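import Mathlib

/-!
# Spectrum of an operator diagonal on a biorthogonal system, with small tails
-/

open Finset Filter Topology

namespace Pool.Agent.Q81.HR

section
variable {X : Type*} [NormedAddCommGroup X] [NormedSpace ℂ X]

/-- partial sum projection -/
noncomputable def PS (φ : ℕ → X →L[ℂ] ℂ) (e : ℕ → X) (N0 : ℕ) : X →L[ℂ] X :=
  ∑ n ∈ range N0, (φ n).smulRight (e n)

lemma PS_apply (φ : ℕ → X →L[ℂ] ℂ) (e : ℕ → X) (N0 : ℕ) (f : X) :
    PS φ e N0 f = ∑ n ∈ range N0, φ n f • e n := by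
  unfold PS
  rw [_root_.sum_apply]
  rfl

variable {φ : ℕ → X →L[ℂ] ℂ} {e : ℕ → X} (hφe : ∀ n m, φ n (e m) = if n = m then 1 else 0)
include hφe

lemma phi_PS (N0 : ℕ) (f : X) (m : ℕ) : φ m (PS φ e N0 f) = if m < N0 then φ m f else 0 := by
  rw [PS_apply, map_sum]
  simp_rw [map_smul, hφe, smul_eq_mul, mul_ite, mul_one, mul_zero]
  rw [Finset.sum_ite_eq]
  simp [Finset.mem_range]

lemma PS_idem (N0 : ℕ) (f : X) : PS φ e N0 (PS φ e N0 f) = PS φ e N0 f := by
  rw [PS_apply φ e N0 (PS φ e N0 f)]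
  conv_rhs => rw [PS_apply]
  refine Finset.sum_congr rfl fun n hn => ?_
  rw [phi_PS hφe, if_pos (Finset.mem_range.1 hn)]

lemma e_ne (n : ℕ) : e n ≠ 0 := by
  intro h
  have h1 := hφe n n
  rw [h, map_zero, if_pos rfl] at h1
  exact zero_ne_one h1

/-- complementary projection -/
noncomputable def PQ (φ : ℕ → X →L[ℂ] ℂ) (e : ℕ → X) (N0 : ℕ) : X →L[ℂ] X := 1 - PS φ e N0

omit hφe in
lemma PQ_apply (φ : ℕ → X →L[ℂ] ℂ) (e : ℕ → X) (N0 : ℕ) (f : X) :
    PQ φ e N0 f = f - PS φ e N0 f := rfl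

lemma phi_PQ (N0 : ℕ) (f : X) (m : ℕ) (hm : m < N0) : φ m (PQ φ e N0 f) = 0 := by
  rw [PQ_apply, map_sub, phi_PS hφe, if_pos hm, sub_self]

variable {A : X →L[ℂ] X} {lam : ℕ → ℂ} (hA : ∀ n f, φ n (A f) = lam n * φ n f)
  (hAe : ∀ n, A (e n) = lam n • e n)
include hA hAe

lemma PS_comm (N0 : ℕ) (f : X) : PS φ e N0 (A f) = A (PS φ e N0 f) := by
  rw [PS_apply, PS_apply, map_sum]
  refine Finset.sum_congr rfl fun n _ => ?_
  rw [map_smul, hAe, hA, smul_smul, mul_comm]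

lemma abs_tail [CompleteSpace X] {N0 : ℕ} {C ε : ℝ} (hC : 0 ≤ C) (hε0 : 0 < ε)
    (htail : ∀ (j : ℕ) (f : X), (∀ n < N0, φ n f = 0) → ‖(A ^ (j + 1)) f‖ ≤ C * ε ^ (j + 1) * ‖f‖)
    {l : ℂ} (hl : ε < ‖l‖) :
    IsUnit (algebraMap ℂ (X →L[ℂ] X) l - A * PQ φ e N0) := by
  by_contra hcon
  have hmem : l ∈ spectrum ℂ (A * PQ φ e N0) := hcon
  set Q := PQ φ e N0 with hQ
  have hidem : IsIdempotentElem Q := by
    refine ContinuousLinearMap.ext fun f => ?_
    show PQ φ e N0 (PQ φ e N0 f) = PQ φ e N0 f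
    rw [PQ_apply _ _ _ (PQ φ e N0 f), PQ_apply, map_sub, PS_idem hφe, sub_self, sub_zero]
  have hcomm : Commute A Q := by
    refine ContinuousLinearMap.ext fun f => ?_
    show A (PQ φ e N0 f) = PQ φ e N0 (A f)
    rw [PQ_apply, PQ_apply, map_sub, PS_comm hφe hA hAe]
  have hpow : ∀ j : ℕ, (A * Q) ^ (j + 1) = A ^ (j + 1) * Q := by
    intro j
    rw [hcomm.mul_pow, hidem.pow_succ_eq]
  set C0 : ℝ := C * ‖Q‖ + 1 with hC0
  have hC0p : 0 < C0 := by positivity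
  have hnorm : ∀ j : ℕ, ‖(A * Q) ^ (j + 1)‖ ≤ C0 * ε ^ (j + 1) := by
    intro j
    refine ContinuousLinearMap.opNorm_le_bound _ (by positivity) (fun f => ?_)
    rw [hpow]
    show ‖(A ^ (j + 1)) (Q f)‖ ≤ C0 * ε ^ (j + 1) * ‖f‖
    have h2 := htail j (Q f) (fun n hn => phi_PQ hφe N0 f n hn)
    refine h2.trans ?_
    have h3 : ‖Q f‖ ≤ ‖Q‖ * ‖f‖ := Q.le_opNorm f
    have h4 : 0 ≤ ε ^ (j + 1) := by positivity
    calc C * ε ^ (j + 1) * ‖Q f‖
        ≤ C * ε ^ (j + 1) * (‖Q‖ * ‖f‖) := by gcongr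
      _ = (C * ‖Q‖) * ε ^ (j + 1) * ‖f‖ := by ring
      _ ≤ C0 * ε ^ (j + 1) * ‖f‖ := by
          refine mul_le_mul_of_nonneg_right (mul_le_mul_of_nonneg_right ?_ h4) (norm_nonneg _)
          rw [hC0]; linarith
  have hl0 : 0 < ‖l‖ := hε0.trans hl
  have h31 : ‖(1 : X →L[ℂ] X)‖ ≤ 1 := ContinuousLinearMap.norm_id_le
  have hlow : ∀ j : ℕ, ‖l‖ ^ (j + 1) ≤ C0 * ε ^ (j + 1) := by
    intro j
    have h1 : l ^ (j + 1) ∈ spectrum ℂ ((A * Q) ^ (j + 1)) :=
      spectrum.pow_mem_pow _ (j + 1) hmem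
    have h2 := spectrum.norm_le_norm_mul_of_mem h1
    rw [norm_pow] at h2
    calc ‖l‖ ^ (j + 1) ≤ ‖(A * Q) ^ (j + 1)‖ * ‖(1 : X →L[ℂ] X)‖ := h2
      _ ≤ ‖(A * Q) ^ (j + 1)‖ * 1 := mul_le_mul_of_nonneg_left h31 (norm_nonneg _)
      _ ≤ C0 * ε ^ (j + 1) := by rw [mul_one]; exact hnorm j
  have hr : ε / ‖l‖ < 1 := (div_lt_one hl0).2 hl
  obtain ⟨j, hj⟩ := exists_pow_lt_of_lt_one (by positivity : 0 < 1 / C0) hr
  have h5 := hlow j
  have h6 : (ε / ‖l‖) ^ (j + 1) < 1 / C0 := by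
    refine lt_of_le_of_lt ?_ hj
    exact pow_le_pow_of_le_one (by positivity) hr.le (Nat.le_succ j)
  rw [div_pow, div_lt_div_iff₀ (by positivity) hC0p] at h6
  linarith

/-- abstract statement on the spectrum -/
theorem abs_spec [CompleteSpace X] (hlam : Tendsto lam atTop (𝓝 0))
    (htail : ∀ ε : ℝ, 0 < ε → ∃ (N0 : ℕ) (C : ℝ), 0 ≤ C ∧
      ∀ (j : ℕ) (f : X), (∀ n < N0, φ n f = 0) → ‖(A ^ (j + 1)) f‖ ≤ C * ε ^ (j + 1) * ‖f‖) :
    spectrum ℂ A = closure (Set.range lam) := by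
  have happ : ∀ (B : X →L[ℂ] X) (l : ℂ) (f : X),
      (algebraMap ℂ (X →L[ℂ] X) l - B) f = l • f - B f := fun B l f => rfl
  apply Set.Subset.antisymm
  · intro l hl
    by_contra hlc
    apply hl
    show IsUnit (algebraMap ℂ (X →L[ℂ] X) l - A)
    have hl0 : l ≠ 0 := by
      rintro rfl
      exact hlc (mem_closure_of_tendsto hlam (Filter.Eventually.of_forall fun n => ⟨n, rfl⟩))
    have hlp : 0 < ‖l‖ := norm_pos_iff.2 hl0
    obtain ⟨N0, C, hC, ht⟩ := htail (‖l‖ / 2) (by positivity)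
    have hunit := abs_tail hφe hA hAe hC (by positivity : 0 < ‖l‖ / 2) ht
      (l := l) (by linarith)
    rw [ContinuousLinearMap.isUnit_iff_bijective] at hunit ⊢
    have hne : ∀ n : ℕ, l - lam n ≠ 0 := by
      intro n h
      exact hlc (subset_closure ⟨n, (sub_eq_zero.1 h).symm⟩)
    constructor
    · -- injectivity
      rw [injective_iff_map_eq_zero]
      intro f hf
      rw [happ] at hf
      have hco : ∀ n : ℕ, φ n f = 0 := by
        intro n
        have h1 := congrArg (φ n) hf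
        rw [map_sub, map_smul, hA, map_zero, smul_eq_mul, ← sub_mul] at h1
        exact (mul_eq_zero.1 h1).resolve_left (hne n)
      have hQf : PQ φ e N0 f = f := by
        rw [PQ_apply, PS_apply]
        simp_rw [hco]
        simp
      have h2 : (algebraMap ℂ (X →L[ℂ] X) l - A * PQ φ e N0) f = 0 := by
        rw [happ]
        show l • f - A (PQ φ e N0 f) = 0
        rw [hQf]; exact hf
      exact (injective_iff_map_eq_zero _).1 hunit.1 f h2
    · -- surjectivity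
      intro g
      obtain ⟨h, hh⟩ := hunit.2 (PQ φ e N0 g)
      rw [happ] at hh
      have hh' : l • h - A (PQ φ e N0 h) = PQ φ e N0 g := hh
      have hcoef : ∀ n : ℕ, n < N0 → φ n h = 0 := by
        intro n hn
        have h1 := congrArg (φ n) hh'
        rw [map_sub, map_smul, hA, phi_PQ hφe N0 h n hn, phi_PQ hφe N0 g n hn, mul_zero,
          sub_zero, smul_eq_mul] at h1
        exact (mul_eq_zero.1 h1).resolve_left hl0
      have hQh : PQ φ e N0 h = h := by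
        rw [PQ_apply, PS_apply, Finset.sum_eq_zero, sub_zero]
        intro n hn
        rw [hcoef n (Finset.mem_range.1 hn), zero_smul]
      rw [hQh] at hh'
      refine ⟨(∑ n ∈ range N0, ((l - lam n)⁻¹ * φ n g) • e n) + h, ?_⟩
      rw [map_add, happ _ _ h, hh', map_sum]
      have hterm : ∀ n ∈ range N0, (algebraMap ℂ (X →L[ℂ] X) l - A)
          (((l - lam n)⁻¹ * φ n g) • e n) = φ n g • e n := by
        intro n _
        rw [map_smul, happ, hAe, ← sub_smul, smul_smul]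
        congr 1
        have := hne n
        field_simp
      rw [Finset.sum_congr rfl hterm, ← PS_apply, PQ_apply]
      abel
  · refine closure_minimal ?_ (spectrum.isClosed _)
    rintro _ ⟨n, rfl⟩
    intro hu
    have hu' : IsUnit (algebraMap ℂ (X →L[ℂ] X) (lam n) - A) := hu
    rw [ContinuousLinearMap.isUnit_iff_bijective] at hu'
    have h1 : (algebraMap ℂ (X →L[ℂ] X) (lam n) - A) (e n) = 0 := by
      rw [happ, hAe, sub_self]
    exact e_ne hφe n ((injective_iff_map_eq_zero _).1 hu'.1 _ h1)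

end

end Pool.Agent.Q81.HR
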