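import Pool.Agent.Q81.HR.Carl

/-!
# The band-pass pieces are controlled by the local variance
-/

open MeasureTheory AddCircle Finset
open scoped ComplexConjugate

namespace Pool.Agent.Q81.HR

set_option linter.unusedSectionVars false

variable {T : ℝ} [hT : Fact (0 < T)]

/-- trapezoid: equal to 1 on [N/2, 3N/2] and 0 outside (0, 2N) -/
noncomputable def psi (N : ℕ) (n : ℤ) : ℝ :=
  max 0 (min 1 (min (2 * n / N) (4 - 2 * n / N)))

lemma psi_nonneg (N : ℕ) (n : ℤ) : 0 ≤ psi N n := le_max_left _ _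

lemma psi_le_one (N : ℕ) (n : ℤ) : psi N n ≤ 1 :=
  max_le zero_le_one (min_le_left _ _)

lemma psi_low {N : ℕ} {n : ℤ} (h : n ≤ 0) : psi N n = 0 := by
  unfold psi
  apply max_eq_left
  refine (min_le_right _ _).trans ((min_le_left _ _).trans ?_)
  have : (n : ℝ) ≤ 0 := by exact_mod_cast h
  exact div_nonpos_of_nonpos_of_nonneg (by linarith) (Nat.cast_nonneg _)

lemma psi_high {N : ℕ} (hN : 1 ≤ N) {n : ℤ} (h : 2 * (N : ℤ) ≤ n) : psi N n = 0 := by
  unfold psi
  apply max_eq_left
  refine (min_le_right _ _).trans ((min_le_right _ _).trans ?_)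
  have h1 : 2 * (N : ℝ) ≤ n := by exact_mod_cast h
  have h2 : (0 : ℝ) < N := by exact_mod_cast hN
  rw [sub_nonpos, le_div_iff₀ h2]
  linarith

lemma psi_mid {N : ℕ} (hN : 1 ≤ N) {n : ℤ} (h1 : (N : ℤ) ≤ 2 * n) (h2 : 2 * n ≤ 3 * (N : ℤ)) :
    psi N n = 1 := by
  unfold psi
  have h0 : (0 : ℝ) < N := by exact_mod_cast hN
  have h1' : (N : ℝ) ≤ 2 * n := by exact_mod_cast h1
  have h2' : 2 * (n : ℝ) ≤ 3 * N := by exact_mod_cast h2
  have a1 : 1 ≤ 2 * (n : ℝ) / N := by rw [le_div_iff₀ h0]; linarith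
  have a2 : 1 ≤ 4 - 2 * (n : ℝ) / N := by
    have : 2 * (n : ℝ) / N ≤ 3 := by rw [div_le_iff₀ h0]; linarith
    linarith
  rw [min_eq_left (le_min a1 a2)]
  exact max_eq_right zero_le_one

lemma psi_lip {N : ℕ} (hN : 1 ≤ N) (n : ℤ) : |psi N n - psi N (n - 1)| ≤ 2 / N := by
  unfold psi
  have h0 : (0 : ℝ) < N := by exact_mod_cast hN
  refine (abs_max_sub_max_le_max _ _ _ _).trans ?_
  rw [sub_self, abs_zero, max_eq_right (abs_nonneg _)]
  refine (abs_min_sub_min_le_max _ _ _ _).trans ?_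
  rw [sub_self, abs_zero, max_eq_right (abs_nonneg _)]
  refine (abs_min_sub_min_le_max _ _ _ _).trans ?_
  have e1 : 2 * (n : ℝ) / N - 2 * ((n - 1 : ℤ) : ℝ) / N = 2 / N := by
    push_cast; field_simp; ring
  have e2 : (4 - 2 * (n : ℝ) / N) - (4 - 2 * ((n - 1 : ℤ) : ℝ) / N) = -(2 / N) := by
    push_cast; field_simp; ring
  rw [e1, e2, abs_neg, max_self, abs_of_nonneg (by positivity)]

/-- coefficients of the kernel -/
noncomputable def ka (N : ℕ) (q : ℝ) (n : ℕ) : ℝ := psi N n / q ^ n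

/-- the kernel -/
noncomputable def kap (N : ℕ) (q : ℝ) (y : AddCircle T) : ℂ :=
  ∑ n ∈ range (2 * N + 1), ((ka N q n : ℝ) : ℂ) * fourier (-(n : ℤ)) y

lemma kap_cont (N : ℕ) (q : ℝ) : Continuous (kap (T := T) N q) := by
  unfold kap; fun_prop

lemma kap_coef (N : ℕ) (hN : 1 ≤ N) {q : ℝ} (hq : 0 < q) (m : ℤ) :
    (∫ y : AddCircle T, kap N q y * fourier m y ∂haarAddCircle) * (q : ℂ) ^ m.natAbs
      = psi N m := by
  have h1 : ∀ y : AddCircle T, kap N q y * fourier m y
      = ∑ n ∈ range (2 * N + 1), ((ka N q n : ℝ) : ℂ) * fourier (-(n : ℤ) + m) y := by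
    intro y
    unfold kap
    rw [Finset.sum_mul]
    refine Finset.sum_congr rfl fun n _ => ?_
    rw [mul_assoc, fadd]
  simp_rw [h1]
  rw [integral_finsetSum _ (fun n _ => cint (by fun_prop))]
  simp_rw [integral_const_mul, intf]
  rcases lt_or_ge m 0 with hm | hm
  · rw [psi_low hm.le, Finset.sum_eq_zero]
    · simp
    · intro n _
      have : ¬ (-(n : ℤ) + m = 0) := by omega
      rw [if_neg this, mul_zero]
  · obtain ⟨k, rfl⟩ := Int.eq_ofNat_of_zero_le hm
    by_cases hk : k < 2 * N + 1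
    · rw [Finset.sum_eq_single k]
      · have : (-(k : ℤ) + (k : ℤ) = 0) := by omega
        rw [if_pos this, mul_one, Int.natAbs_natCast]
        unfold ka
        push_cast
        rw [div_mul_cancel₀]
        exact pow_ne_zero _ (by exact_mod_cast hq.ne')
      · intro n _ hnk
        have : ¬ (-(n : ℤ) + (k : ℤ) = 0) := by omega
        rw [if_neg this, mul_zero]
      · intro h; exact absurd (Finset.mem_range.2 hk) h
    · rw [psi_high hN (by omega), Finset.sum_eq_zero]
      · simp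
      · intro n hn
        have := Finset.mem_range.1 hn
        have : ¬ (-(n : ℤ) + (k : ℤ) = 0) := by omega
        rw [if_neg this, mul_zero]

lemma kap_shift (N : ℕ) (hN : 1 ≤ N) (q p : ℝ) (y : AddCircle T) :
    kap N q y * (1 - (p : ℂ) * fourier (-1) y)
      = ∑ n ∈ range (2 * N + 1),
        ((ka N q n - p * (if n = 0 then 0 else ka N q (n - 1)) : ℝ) : ℂ)
          * fourier (-(n : ℤ)) y := by
  have hlast : ka N q (2 * N) = 0 := by
    unfold ka; rw [psi_high hN (by push_cast; omega)]; simp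
  have h1 : kap N q y * fourier (-1) y
      = ∑ n ∈ range (2 * N + 1), (((if n = 0 then 0 else ka N q (n - 1)) : ℝ) : ℂ)
          * fourier (-(n : ℤ)) y := by
    unfold kap
    rw [Finset.sum_mul, Finset.sum_range_succ, hlast, Finset.sum_range_succ']
    simp only [Complex.ofReal_zero, zero_mul, add_zero, if_true, Nat.add_eq_zero_iff,
      one_ne_zero, and_false, if_false, Nat.add_sub_cancel]
    refine Finset.sum_congr rfl fun n _ => ?_
    rw [mul_assoc, fadd]
    push_cast
    rw [neg_add]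
  have h2 : kap N q y * (1 - (p : ℂ) * fourier (-1) y)
      = kap N q y - (p : ℂ) * (kap N q y * fourier (-1) y) := by ring
  rw [h2, h1, Finset.mul_sum]
  conv_lhs => rw [kap]
  rw [← Finset.sum_sub_distrib]
  refine Finset.sum_congr rfl fun n _ => ?_
  push_cast; ring

lemma kap_energy {N N' : ℕ} (hN : 1 ≤ N) (hNN : 3 * N ≤ N') {r q p : ℝ}
    (hr : r = N / (N + 1)) (hq : q = N' / (N' + 1)) (hp : r = p * q) :
    ∫ y : AddCircle T, ‖kap N q y * (1 - (p : ℂ) * fourier (-1) y)‖ ^ 2 ∂haarAddCircle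
      ≤ 243 / N := by
  have hN0 : (0 : ℝ) < N := by exact_mod_cast hN
  have hN'0 : (0 : ℝ) < N' := by
    have : 1 ≤ N' := by omega
    exact_mod_cast this
  have hq0 : 0 < q := by rw [hq]; positivity
  have hq1 : q ≤ 1 := by rw [hq, div_le_one (by positivity)]; linarith
  have hr1 : r ≤ 1 := by rw [hr, div_le_one (by positivity)]; linarith
  have hr2 : 1 - r ≤ 1 / N := by
    rw [hr]
    have : 1 - (N : ℝ) / (N + 1) = 1 / (N + 1) := by field_simp; ring
    rw [this]
    exact one_div_le_one_div_of_le hN0 (by linarith)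
  simp_rw [kap_shift N hN q p]
  rw [plan_inj (range (2 * N + 1)) (fun n : ℕ => -(n : ℤ)) (fun a b h => by simpa using h)]
  have hterm : ∀ n ∈ range (2 * N + 1), ‖((ka N q n
      - p * (if n = 0 then 0 else ka N q (n - 1)) : ℝ) : ℂ)‖ ^ 2 ≤ (9 / N) ^ 2 := by
    intro n hn
    have hn' : n < 2 * N + 1 := Finset.mem_range.1 hn
    rw [Complex.norm_real, Real.norm_eq_abs]
    refine pow_le_pow_left₀ (abs_nonneg _) ?_ 2
    rcases Nat.eq_zero_or_pos n with h0 | hpos
    · subst h0
      unfold ka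
      rw [psi_low (by simp)]
      simp only [if_true, zero_div, mul_zero, sub_zero, abs_zero]
      positivity
    · have hn0 : n ≠ 0 := by omega
      rw [if_neg hn0]
      obtain ⟨k, rfl⟩ : ∃ k, n = k + 1 := ⟨n - 1, by omega⟩
      simp only [Nat.add_sub_cancel]
      unfold ka
      have e : psi N ((k + 1 : ℕ) : ℤ) / q ^ (k + 1) - p * (psi N (k : ℤ) / q ^ k)
          = (1 / q ^ (k + 1)) * (psi N ((k + 1 : ℕ) : ℤ) - r * psi N (k : ℤ)) := by
        rw [hp]; field_simp; ring
      rw [e, abs_mul, abs_of_nonneg (by positivity)]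
      have h3 : 1 / q ^ (k + 1) ≤ 3 := by
        have hinv : 1 / q = 1 + 1 / N' := by rw [hq]; field_simp
        rw [one_div, ← inv_pow, ← one_div, hinv]
        have h4 : (1 : ℝ) + 1 / N' ≤ Real.exp (1 / N') := by
          have := Real.add_one_le_exp (1 / (N' : ℝ)); linarith
        have h5 : ((1 : ℝ) + 1 / N') ^ (k + 1) ≤ Real.exp (1 / N') ^ (k + 1) :=
          pow_le_pow_left₀ (by positivity) h4 _
        refine h5.trans ?_
        rw [← Real.exp_nat_mul]
        have h6 : ((k + 1 : ℕ) : ℝ) * (1 / N') ≤ 1 := by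
          rw [mul_one_div, div_le_one hN'0]
          have : k + 1 ≤ N' := by omega
          exact_mod_cast this
        exact (Real.exp_le_exp.2 h6).trans (Real.exp_one_lt_three.le)
      have h4 : |psi N ((k + 1 : ℕ) : ℤ) - r * psi N (k : ℤ)| ≤ 3 / N := by
        have e2 : psi N ((k + 1 : ℕ) : ℤ) - r * psi N (k : ℤ)
            = (psi N ((k + 1 : ℕ) : ℤ) - psi N (((k + 1 : ℕ) : ℤ) - 1))
              + (1 - r) * psi N (k : ℤ) := by
          have : (((k + 1 : ℕ) : ℤ) - 1) = (k : ℤ) := by push_cast; ring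
          rw [this]; ring
        rw [e2]
        refine (abs_add_le _ _).trans ?_
        have h5 := psi_lip hN ((k + 1 : ℕ) : ℤ)
        have h6 : |(1 - r) * psi N (k : ℤ)| ≤ 1 / N := by
          rw [abs_mul, abs_of_nonneg (by linarith : 0 ≤ 1 - r), abs_of_nonneg (psi_nonneg _ _)]
          calc (1 - r) * psi N k ≤ (1 - r) * 1 :=
                mul_le_mul_of_nonneg_left (psi_le_one _ _) (by linarith)
            _ ≤ 1 / N := by linarith
        calc _ ≤ 2 / (N : ℝ) + 1 / N := add_le_add h5 h6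
          _ = 3 / N := by ring
      calc 1 / q ^ (k + 1) * |psi N ((k + 1 : ℕ) : ℤ) - r * psi N (k : ℤ)|
          ≤ 3 * (3 / N) := mul_le_mul h3 h4 (abs_nonneg _) (by norm_num)
        _ = 9 / N := by ring
  refine (Finset.sum_le_sum hterm).trans ?_
  rw [Finset.sum_const, Finset.card_range, nsmul_eq_mul]
  have h1N : (1 : ℝ) ≤ N := by exact_mod_cast hN
  rw [div_pow, mul_div_assoc', div_le_div_iff₀ (by positivity) hN0]
  push_cast
  nlinarith [mul_pos hN0 hN0, mul_nonneg (mul_nonneg hN0.le hN0.le) (sub_nonneg.2 h1N)]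

/-- pointwise bound of a band-pass piece by the local variance -/
lemma band {ι : Type*} (s : Finset ι) (ν : ι → ℤ) (b : ι → ℂ) {N N' : ℕ} (hN : 1 ≤ N)
    (hNN : 3 * N ≤ N') {r q p : ℝ}
    (hr : r = N / (N + 1)) (hq : q = N' / (N' + 1)) (hp : r = p * q) (z : AddCircle T) :
    ‖tp s ν (fun i => (psi N (ν i) : ℂ) * b i) z‖ ^ 2 ≤ 729 * Vv s ν b q p z := by
  have hN0 : (0 : ℝ) < N := by exact_mod_cast hN
  have h1N : (1 : ℝ) ≤ N := by exact_mod_cast hN
  have hNN' : 3 * (N : ℝ) ≤ N' := by exact_mod_cast hNN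
  have hN'0 : (0 : ℝ) < N' := by linarith
  have hq0 : 0 < q := by rw [hq]; positivity
  have hpe : p = (N * (N' + 1)) / ((N + 1) * N') := by
    have h1 : p = r / q := by rw [hp]; field_simp
    rw [h1, hr, hq]; field_simp
  have hp0 : 0 ≤ p := by rw [hpe]; positivity
  have hp2 : 1 / (3 * N) ≤ 1 - p := by
    have e : 1 - p = (N' - N) / ((N + 1) * N') := by rw [hpe]; field_simp; ring
    rw [e, div_le_div_iff₀ (by positivity) (by positivity)]
    nlinarith [mul_nonneg hN0.le hN'0.le, mul_nonneg (sub_nonneg.2 hNN') hN0.le,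
      mul_nonneg (sub_nonneg.2 h1N) hN'0.le]
  have hp1 : p < 1 := by
    have : 0 < 1 / (3 * (N : ℝ)) := by positivity
    linarith
  have Wc := W_cont (T := T) hp0 hp1
  have Wp : ∀ x : AddCircle T, 0 < W p x := W_pos hp0 hp1
  -- the piece as a correlation
  have e1 : tp s ν (fun i => (psi N (ν i) : ℂ) * b i) z
      = ∫ y, kap N q y * (uk s ν b q (z + y) - uk s ν b (p * q) z) ∂haarAddCircle := by
    have h1 : ∀ y : AddCircle T, kap N q y * (uk s ν b q (z + y) - uk s ν b (p * q) z)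
        = kap N q y * uk s ν b q (z + y) - (kap N q y * fourier 0 y) * uk s ν b (p * q) z := by
      intro y; rw [fourier_zero]; ring
    have kc := kap_cont (T := T) N q
    have uc := uk_cont (T := T) s ν b q
    simp_rw [h1]
    rw [integral_sub (cint (by fun_prop)) (cint (by fun_prop)), integral_mul_const]
    have h0 := kap_coef (T := T) N hN hq0 0
    rw [psi_low le_rfl] at h0
    simp only [Int.natAbs_zero, pow_zero, mul_one, Complex.ofReal_zero] at h0
    rw [h0, zero_mul, sub_zero]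
    have h2 := corr_tp (T := T) s ν (fun i => (q : ℂ) ^ (ν i).natAbs * b i) kc z
    have h3 : ∫ y, kap N q y * uk s ν b q (z + y) ∂haarAddCircle
        = tp s ν (fun i => (∫ y : AddCircle T, kap N q y * fourier (ν i) y ∂haarAddCircle)
          * ((q : ℂ) ^ (ν i).natAbs * b i)) z := h2
    rw [h3]
    refine Finset.sum_congr rfl fun i _ => ?_
    simp only
    rw [← mul_assoc (∫ y : AddCircle T, kap N q y * fourier (ν i) y ∂haarAddCircle),
      kap_coef N hN hq0]
  -- Cauchy-Schwarz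
  have kc := kap_cont (T := T) N q
  have uc := uk_cont (T := T) s ν b q
  have qc : Continuous fun y : AddCircle T => ‖kap N q y‖ / W p y :=
    Continuous.div (by fun_prop) Wc (fun y => (Wp y).ne')
  have cs := csw Wc (p := fun y => ‖kap N q y‖ / W p y)
    (q := fun y => ‖uk s ν b q (z + y) - uk s ν b (p * q) z‖) qc (by fun_prop)
    (fun y => (Wp y).le)
  have e2 : ∀ y : AddCircle T, W p y * (‖kap N q y‖ / W p y
      * ‖uk s ν b q (z + y) - uk s ν b (p * q) z‖)
      = ‖kap N q y * (uk s ν b q (z + y) - uk s ν b (p * q) z)‖ := by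
    intro y
    have := (Wp y).ne'
    rw [norm_mul]; field_simp
  have e3 : ∀ y : AddCircle T, W p y * (‖kap N q y‖ / W p y) ^ 2
      = ‖kap N q y * (1 - (p : ℂ) * fourier (-1) y)‖ ^ 2 * (1 / (1 - p ^ 2)) := by
    intro y
    have h1 := (Wp y).ne'
    have h2 : W p y * (‖kap N q y‖ / W p y) ^ 2 = ‖kap N q y‖ ^ 2 * (W p y)⁻¹ := by
      field_simp
    have h3 : ‖(1 : ℂ) - (p : ℂ) * fourier (-1) y‖ = ‖(1 : ℂ) - (p : ℂ) * fourier 1 y‖ := by
      rw [← Complex.norm_conj ((1 : ℂ) - (p : ℂ) * fourier 1 y)]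
      rw [map_sub, map_one, map_mul, Complex.conj_ofReal, fconj]
    rw [h2, W_inv, norm_mul, h3]; ring
  have e4 : ∫ y, W p y * ‖uk s ν b q (z + y) - uk s ν b (p * q) z‖ ^ 2 ∂haarAddCircle
      = Vv s ν b q p z := by
    have h1 : ∀ y : AddCircle T, W p y * ‖uk s ν b q (z + y) - uk s ν b (p * q) z‖ ^ 2
        = (W p y * ‖uk s ν b q (z + y)‖ ^ 2
          - 2 * (((W p y : ℝ) : ℂ) * uk s ν b q (z + y) * conj (uk s ν b (p * q) z)).re)
          + W p y * ‖uk s ν b (p * q) z‖ ^ 2 := by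
      intro y
      rw [← Complex.normSq_eq_norm_sq, ← Complex.normSq_eq_norm_sq, ← Complex.normSq_eq_norm_sq,
        Complex.normSq_sub, mul_assoc ((W p y : ℝ) : ℂ), Complex.re_ofReal_mul]
      ring
    simp_rw [h1]
    have c1 : Continuous fun y : AddCircle T =>
        (((W p y : ℝ) : ℂ) * uk s ν b q (z + y) * conj (uk s ν b (p * q) z)) := by fun_prop
    rw [integral_add (cint (by fun_prop)) (cint (by fun_prop)),
      integral_sub (cint (by fun_prop)) (cint (by fun_prop)), integral_const_mul,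
      integral_mul_const, int_W_one hp0 hp1, one_mul]
    have h2 : ∫ y, (((W p y : ℝ) : ℂ) * uk s ν b q (z + y) * conj (uk s ν b (p * q) z)).re
        ∂haarAddCircle = ‖uk s ν b (p * q) z‖ ^ 2 := by
      have h3 := integral_re (cint c1) (μ := haarAddCircle (T := T))
      have h4 : ∫ y, (((W p y : ℝ) : ℂ) * uk s ν b q (z + y) * conj (uk s ν b (p * q) z)).re
          ∂haarAddCircle
          = (∫ y, (((W p y : ℝ) : ℂ) * uk s ν b q (z + y) * conj (uk s ν b (p * q) z))
            ∂haarAddCircle).re := h3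
      rw [h4, integral_mul_const, ← uk_semi s ν b hp0 hp1 z, Complex.mul_conj,
        Complex.ofReal_re, Complex.normSq_eq_norm_sq]
    rw [h2]
    unfold Vv
    ring
  simp_rw [e2, e3] at cs
  rw [e4, integral_mul_const] at cs
  have hen := kap_energy (T := T) hN hNN hr hq hp
  have hV0 : 0 ≤ Vv s ν b q p z := by
    rw [← e4]
    exact integral_nonneg fun y => mul_nonneg (Wp y).le (sq_nonneg _)
  have h5 : ‖tp s ν (fun i => (psi N (ν i) : ℂ) * b i) z‖ ^ 2
      ≤ (∫ y, ‖kap N q y * (uk s ν b q (z + y) - uk s ν b (p * q) z)‖ ∂haarAddCircle) ^ 2 := by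
    rw [e1]
    exact pow_le_pow_left₀ (norm_nonneg _) (norm_integral_le_integral_norm _) 2
  refine h5.trans (cs.trans ?_)
  refine mul_le_mul_of_nonneg_right ?_ hV0
  have h6 : 1 / (1 - p ^ 2) ≤ 3 * N := by
    have h7 : 1 / (3 * (N : ℝ)) ≤ 1 - p ^ 2 := by nlinarith
    have h8 : 0 < 1 - p ^ 2 := lt_of_lt_of_le (by positivity) h7
    rw [div_le_iff₀ h8]
    rw [div_le_iff₀ (by positivity)] at h7
    linarith
  have h9 : 0 ≤ 1 / (1 - p ^ 2) := by
    have : 0 < 1 - p ^ 2 := by nlinarith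
    positivity
  calc _ ≤ (243 / (N : ℝ)) * (3 * N) := mul_le_mul hen h6 h9 (by positivity)
    _ = 729 := by field_simp; norm_num

end Pool.Agent.Q81.HR
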