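import Mathlib

/-!
# Base facts on the circle: continuous functions, monomials, finite Plancherel
-/

open MeasureTheory AddCircle Finset
open scoped ComplexConjugate

namespace Pool.Agent.Q81.HR

set_option linter.unusedSectionVars false

variable {T : ℝ} [hT : Fact (0 < T)]

lemma cint {E : Type*} [NormedAddCommGroup E] {f : AddCircle T → E} (hf : Continuous f) :
    Integrable f (haarAddCircle (T := T)) :=
  hf.integrable_of_hasCompactSupport (HasCompactSupport.of_compactSpace f)

lemma cint2 {E : Type*} [NormedAddCommGroup E] {f : AddCircle T × AddCircle T → E}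
    (hf : Continuous f) :
    Integrable f ((haarAddCircle (T := T)).prod (haarAddCircle (T := T))) :=
  hf.integrable_of_hasCompactSupport (HasCompactSupport.of_compactSpace f)

/-- swapping the order of integration for a continuous function of two variables -/
lemma cswap {E : Type*} [NormedAddCommGroup E] [NormedSpace ℝ E]
    {f : AddCircle T → AddCircle T → E} (hf : Continuous (Function.uncurry f)) :
    ∫ x, ∫ y, f x y ∂(haarAddCircle (T := T)) ∂(haarAddCircle (T := T))
      = ∫ y, ∫ x, f x y ∂(haarAddCircle (T := T)) ∂(haarAddCircle (T := T)) :=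
  integral_integral_swap (cint2 hf)

lemma cint_left {E : Type*} [NormedAddCommGroup E] [NormedSpace ℝ E]
    {f : AddCircle T → AddCircle T → E} (hf : Continuous (Function.uncurry f)) :
    Integrable (fun x => ∫ y, f x y ∂(haarAddCircle (T := T))) (haarAddCircle (T := T)) :=
  (cint2 hf).integral_prod_left

/-- translation invariance -/
lemma tinv {E : Type*} [NormedAddCommGroup E] [NormedSpace ℝ E]
    (f : AddCircle T → E) (y : AddCircle T) :
    ∫ x, f (x + y) ∂(haarAddCircle (T := T)) = ∫ x, f x ∂(haarAddCircle (T := T)) :=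
  integral_add_right_eq_self f y

lemma fsh (n : ℤ) (x y : AddCircle T) :
    (fourier n (x + y) : ℂ) = fourier n x * fourier n y := by
  simp [fourier_apply, smul_add, toCircle_add]

lemma fnorm (n : ℤ) (x : AddCircle T) : ‖(fourier n x : ℂ)‖ = 1 := by
  rw [fourier_apply, Circle.norm_coe]

lemma fconj (n : ℤ) (x : AddCircle T) : conj (fourier n x : ℂ) = fourier (-n) x := by
  rw [fourier_neg]

lemma fadd (m n : ℤ) (x : AddCircle T) :
    (fourier m x : ℂ) * fourier n x = fourier (m + n) x := by
  rw [fourier_add]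

lemma intf (n : ℤ) :
    ∫ x : AddCircle T, (fourier n x : ℂ) ∂haarAddCircle = if n = 0 then 1 else 0 := by
  have h := congrFun (fourierCoeff_fourier (T := T) n) 0
  unfold fourierCoeff at h
  simp only [neg_zero, fourier_zero, one_smul] at h
  rw [h]
  by_cases hn : n = 0
  · subst hn; simp
  · rw [if_neg hn, Pi.single_eq_of_ne (fun h => hn h.symm)]

lemma cont_f (n : ℤ) : Continuous (fun x : AddCircle T => (fourier n x : ℂ)) :=
  (fourier n).continuous

/-- finite Parseval identity -/
lemma parseval_fin (s : Finset ℤ) (a b : ℤ → ℂ) :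
    ∫ x : AddCircle T, (∑ n ∈ s, a n * fourier n x) * conj (∑ n ∈ s, b n * fourier n x)
      ∂haarAddCircle = ∑ n ∈ s, a n * conj (b n) := by
  have h1 : ∀ x : AddCircle T, (∑ n ∈ s, a n * (fourier n x : ℂ))
      * conj (∑ n ∈ s, b n * (fourier n x : ℂ))
      = ∑ n ∈ s, ∑ m ∈ s, (a n * conj (b m)) * fourier (n + -m) x := by
    intro x
    rw [map_sum, Finset.sum_mul_sum]
    refine Finset.sum_congr rfl fun n _ => Finset.sum_congr rfl fun m _ => ?_
    rw [map_mul, fconj, fourier_add]
    ring
  simp_rw [h1]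
  rw [integral_finsetSum _ (fun n _ => cint (by fun_prop))]
  refine Finset.sum_congr rfl fun n hn => ?_
  rw [integral_finsetSum _ (fun m _ => cint (by fun_prop))]
  simp_rw [integral_const_mul, intf]
  rw [Finset.sum_eq_single n]
  · simp
  · intro m _ hmn
    have : ¬ (n + -m = 0) := by omega
    simp [this]
  · intro h; exact absurd hn h

/-- analytic polynomial -/
noncomputable def pol (D : ℕ) (a : ℕ → ℂ) (x : AddCircle T) : ℂ :=
  ∑ n ∈ range D, a n * fourier (n : ℤ) x

lemma pol_cont (D : ℕ) (a : ℕ → ℂ) : Continuous (pol (T := T) D a) := by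
  unfold pol; fun_prop

lemma pol_add (D : ℕ) (a b : ℕ → ℂ) (x : AddCircle T) :
    pol D (fun n => a n + b n) x = pol D a x + pol D b x := by
  simp [pol, add_mul, Finset.sum_add_distrib]

lemma pol_sub (D : ℕ) (a b : ℕ → ℂ) (x : AddCircle T) :
    pol D (fun n => a n - b n) x = pol D a x - pol D b x := by
  simp [pol, sub_mul, Finset.sum_sub_distrib]

/-- finite Plancherel for analytic polynomials -/
lemma pol_norm (D : ℕ) (a : ℕ → ℂ) :
    ∫ x : AddCircle T, ‖pol D a x‖ ^ 2 ∂haarAddCircle = ∑ n ∈ range D, ‖a n‖ ^ 2 := by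
  have h := parseval_fin (T := T) ((range D).map Nat.castEmbedding)
    (fun n => a n.toNat) (fun n => a n.toNat)
  simp only [Finset.sum_map, Nat.castEmbedding_apply, Int.toNat_natCast] at h
  have h2 : ∀ z : ℂ, z * conj z = ((‖z‖ ^ 2 : ℝ) : ℂ) := by
    intro z; rw [Complex.mul_conj, Complex.normSq_eq_norm_sq]
  simp_rw [h2] at h
  rw [integral_complex_ofReal, ← Complex.ofReal_sum] at h
  exact_mod_cast h

/-- finite Plancherel for injective frequency maps -/
lemma plan_inj {ι : Type*} (s : Finset ι) (ν : ι → ℤ) (hν : Function.Injective ν) (a : ι → ℂ) :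
    ∫ x : AddCircle T, ‖∑ n ∈ s, a n * fourier (ν n) x‖ ^ 2 ∂haarAddCircle
      = ∑ n ∈ s, ‖a n‖ ^ 2 := by
  classical
  have h2 : ∀ z : ℂ, ((‖z‖ ^ 2 : ℝ) : ℂ) = z * conj z := by
    intro z; rw [Complex.mul_conj, Complex.normSq_eq_norm_sq]
  have h1 : ∀ x : AddCircle T, ((‖∑ n ∈ s, a n * (fourier (ν n) x : ℂ)‖ ^ 2 : ℝ) : ℂ)
      = ∑ n ∈ s, ∑ m ∈ s, (a n * conj (a m)) * fourier (ν n + -ν m) x := by
    intro x
    rw [h2, map_sum, Finset.sum_mul_sum]
    refine Finset.sum_congr rfl fun n _ => Finset.sum_congr rfl fun m _ => ?_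
    rw [map_mul, fconj, fourier_add]
    ring
  have key : ((∫ x : AddCircle T, ‖∑ n ∈ s, a n * fourier (ν n) x‖ ^ 2 ∂haarAddCircle : ℝ) : ℂ)
      = ((∑ n ∈ s, ‖a n‖ ^ 2 : ℝ) : ℂ) := by
    rw [← integral_complex_ofReal]
    simp_rw [h1]
    rw [integral_finsetSum _ (fun n _ => cint (by fun_prop)), Complex.ofReal_sum]
    refine Finset.sum_congr rfl fun n hn => ?_
    rw [integral_finsetSum _ (fun m _ => cint (by fun_prop))]
    simp_rw [integral_const_mul, intf]
    rw [Finset.sum_eq_single n]
    · rw [if_pos (by omega), mul_one, h2]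
    · intro m _ hmn
      have : ¬ (ν n + -ν m = 0) := by
        intro h
        exact hmn (hν (by omega))
      simp [this]
    · intro h; exact absurd hn h
  exact_mod_cast key

/-- finite Plancherel for two-sided sums -/
lemma plan_fin (s : Finset ℤ) (a : ℤ → ℂ) :
    ∫ x : AddCircle T, ‖∑ n ∈ s, a n * fourier n x‖ ^ 2 ∂haarAddCircle
      = ∑ n ∈ s, ‖a n‖ ^ 2 := by
  have h := parseval_fin (T := T) s a a
  have h2 : ∀ z : ℂ, z * conj z = ((‖z‖ ^ 2 : ℝ) : ℂ) := by
    intro z; rw [Complex.mul_conj, Complex.normSq_eq_norm_sq]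
  simp_rw [h2] at h
  rw [integral_complex_ofReal, ← Complex.ofReal_sum] at h
  exact_mod_cast h

end Pool.Agent.Q81.HR
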