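import Pool.Agent.Q81.HR.Pois

/-!
# A discrete Carleson embedding on the circle, by a Bellman function
-/

open MeasureTheory AddCircle Finset
open scoped ComplexConjugate

namespace Pool.Agent.Q81.HR

set_option linter.unusedSectionVars false

variable {T : ℝ} [hT : Fact (0 < T)]

lemma cpar {E : Type*} [NormedAddCommGroup E] [NormedSpace ℝ E]
    {f : AddCircle T → AddCircle T → E} (hf : Continuous (Function.uncurry f)) :
    Continuous (fun x => ∫ y, f x y ∂(haarAddCircle (T := T))) := by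
  have h := continuous_parametric_integral_of_continuous (μ := haarAddCircle (T := T)) hf
    (isCompact_univ (X := AddCircle T))
  simpa using h

/-- the Bellman inequality at one point -/
lemma bell_pt {w : AddCircle T → ℝ} {h v : AddCircle T → ℂ} {U : AddCircle T → ℝ}
    (hw : Continuous w) (w0 : ∀ x, 0 ≤ w x) (w1 : ∫ x, w x ∂haarAddCircle = 1)
    (hh : Continuous h) (hv : Continuous v) (hU : Continuous U)
    (hvU : ∀ x, ‖v x‖ ^ 2 ≤ U x) (hU1 : ∀ x, U x ≤ 1) :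
    ‖∫ x, (w x : ℂ) * h x ∂haarAddCircle‖ ^ 2
        / (1 + (∫ x, w x * U x ∂haarAddCircle) - ‖∫ x, (w x : ℂ) * v x ∂haarAddCircle‖ ^ 2)
      + (1 / 4) * (‖∫ x, (w x : ℂ) * h x ∂haarAddCircle‖ ^ 2
        * ((∫ x, w x * ‖v x‖ ^ 2 ∂haarAddCircle)
            - ‖∫ x, (w x : ℂ) * v x ∂haarAddCircle‖ ^ 2))
      ≤ ∫ x, w x * (‖h x‖ ^ 2 / (1 + U x - ‖v x‖ ^ 2)) ∂haarAddCircle := by
  have hD1 : ∀ x, 1 ≤ 1 + U x - ‖v x‖ ^ 2 := fun x => by have := hvU x; linarith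
  have hDc : Continuous fun x => 1 + U x - ‖v x‖ ^ 2 := by fun_prop
  have hsc : Continuous fun x => Real.sqrt (1 + U x - ‖v x‖ ^ 2) := by fun_prop
  have hs0 : ∀ x, Real.sqrt (1 + U x - ‖v x‖ ^ 2) ≠ 0 := fun x =>
    (Real.sqrt_pos.2 (by have := hD1 x; linarith)).ne'
  have hpc : Continuous fun x => ‖h x‖ / Real.sqrt (1 + U x - ‖v x‖ ^ 2) :=
    Continuous.div (by fun_prop) hsc hs0
  have hqc : Continuous fun x => ‖h x‖ ^ 2 / (1 + U x - ‖v x‖ ^ 2) :=
    Continuous.div (by fun_prop) hDc (fun x => by have := hD1 x; linarith)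
  set X := ∫ x, w x * (‖h x‖ ^ 2 / (1 + U x - ‖v x‖ ^ 2)) ∂haarAddCircle with hX
  set H := ‖∫ x, (w x : ℂ) * h x ∂haarAddCircle‖ with hH
  set v0 := ‖∫ x, (w x : ℂ) * v x ∂haarAddCircle‖ with hv0
  set UU := ∫ x, w x * U x ∂haarAddCircle with hUU
  set VV := ∫ x, w x * ‖v x‖ ^ 2 ∂haarAddCircle with hVV
  -- first Cauchy-Schwarz
  have nh : ∀ g : AddCircle T → ℂ, ‖∫ x, (w x : ℂ) * g x ∂haarAddCircle‖
      ≤ ∫ x, w x * ‖g x‖ ∂haarAddCircle := by
    intro g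
    refine (norm_integral_le_integral_norm _).trans (le_of_eq ?_)
    congr 1; funext x
    rw [norm_mul, Complex.norm_real, Real.norm_eq_abs, abs_of_nonneg (w0 x)]
  have e1 : ∫ x, w x * ‖h x‖ ∂haarAddCircle
      = ∫ x, w x * ((‖h x‖ / Real.sqrt (1 + U x - ‖v x‖ ^ 2))
        * Real.sqrt (1 + U x - ‖v x‖ ^ 2)) ∂haarAddCircle := by
    congr 1; funext x; rw [div_mul_cancel₀ _ (hs0 x)]
  have e2 : ∫ x, w x * (‖h x‖ / Real.sqrt (1 + U x - ‖v x‖ ^ 2)) ^ 2 ∂haarAddCircle = X := by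
    rw [hX]; congr 1; funext x
    rw [div_pow, Real.sq_sqrt (by have := hD1 x; linarith)]
  have e3 : ∫ x, w x * (Real.sqrt (1 + U x - ‖v x‖ ^ 2)) ^ 2 ∂haarAddCircle = 1 + UU - VV := by
    have : ∀ x, w x * (Real.sqrt (1 + U x - ‖v x‖ ^ 2)) ^ 2
        = (w x + w x * U x) - w x * ‖v x‖ ^ 2 := by
      intro x; rw [Real.sq_sqrt (by have := hD1 x; linarith)]; ring
    simp_rw [this]
    rw [integral_sub (cint (by fun_prop)) (cint (by fun_prop)),
      integral_add (cint (by fun_prop)) (cint (by fun_prop)), w1]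
  have cs1 := csw hw hpc hsc w0
  rw [← e1, e2, e3] at cs1
  have hH0 : 0 ≤ H := norm_nonneg _
  have hH2 : H ^ 2 ≤ X * (1 + UU - VV) :=
    (pow_le_pow_left₀ hH0 (nh h) 2).trans cs1
  -- variance is nonnegative
  have cs2 := csw hw (p := fun x => ‖v x‖) (q := fun _ => (1 : ℝ)) (by fun_prop) continuous_const w0
  simp only [mul_one, one_pow] at cs2
  rw [w1, mul_one] at cs2
  have hV : v0 ^ 2 ≤ VV := (pow_le_pow_left₀ (norm_nonneg _) (nh v) 2).trans cs2
  have hUUle : UU ≤ 1 := by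
    rw [hUU, ← w1]
    refine integral_mono (cint (by fun_prop)) (cint hw) (fun x => ?_)
    have := mul_le_mul_of_nonneg_left (hU1 x) (w0 x)
    simpa using this
  have hVU : VV ≤ UU := by
    rw [hUU, hVV]
    refine integral_mono (cint (by fun_prop)) (cint (by fun_prop)) (fun x => ?_)
    exact mul_le_mul_of_nonneg_left (hvU x) (w0 x)
  have hv00 : 0 ≤ v0 ^ 2 := sq_nonneg _
  have hX0 : 0 ≤ X := by
    rw [hX]
    refine integral_nonneg fun x => mul_nonneg (w0 x) ?_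
    exact div_nonneg (sq_nonneg _) (by have := hD1 x; linarith)
  -- algebra
  have hD0 : 0 < 1 + UU - v0 ^ 2 := by linarith
  have hY : 0 < 1 + UU - VV := by linarith
  have hfin : H ^ 2 / (1 + UU - v0 ^ 2) + (1 / 4) * (H ^ 2 * (VV - v0 ^ 2))
      ≤ H ^ 2 / (1 + UU - VV) := by
    have hH20 : 0 ≤ H ^ 2 := sq_nonneg _
    have key : 1 / (1 + UU - v0 ^ 2) + (1 / 4) * (VV - v0 ^ 2) ≤ 1 / (1 + UU - VV) := by
      rw [div_add' _ _ _ hD0.ne', div_le_div_iff₀ hD0 hY]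
      have h1 : 0 ≤ VV - v0 ^ 2 := by linarith
      have h2 : (1 + UU - v0 ^ 2) * (1 + UU - VV) ≤ 4 := by
        have a1 : 1 + UU - v0 ^ 2 ≤ 2 := by linarith
        have a2 : 1 + UU - VV ≤ 2 := by
          have : 0 ≤ VV := le_trans hv00 hV
          linarith
        nlinarith
      nlinarith [mul_le_mul_of_nonneg_left h2 h1]
    have := mul_le_mul_of_nonneg_left key hH20
    calc H ^ 2 / (1 + UU - v0 ^ 2) + (1 / 4) * (H ^ 2 * (VV - v0 ^ 2))
        = H ^ 2 * (1 / (1 + UU - v0 ^ 2) + (1 / 4) * (VV - v0 ^ 2)) := by ring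
      _ ≤ H ^ 2 * (1 / (1 + UU - VV)) := this
      _ = H ^ 2 / (1 + UU - VV) := by ring
  refine hfin.trans ?_
  rw [div_le_iff₀ hY]
  exact hH2

/-- the integrated Bellman step -/
lemma bell_int {w : AddCircle T → ℝ} {h v : AddCircle T → ℂ} {U : AddCircle T → ℝ}
    (hw : Continuous w) (w0 : ∀ x, 0 ≤ w x) (w1 : ∫ x, w x ∂haarAddCircle = 1)
    (hh : Continuous h) (hv : Continuous v) (hU : Continuous U)
    (hvU : ∀ x, ‖v x‖ ^ 2 ≤ U x) (hU1 : ∀ x, U x ≤ 1)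
    {h' v' : AddCircle T → ℂ} {U' : AddCircle T → ℝ}
    (eh : ∀ z, h' z = ∫ x, (w x : ℂ) * h (z + x) ∂haarAddCircle)
    (ev : ∀ z, v' z = ∫ x, (w x : ℂ) * v (z + x) ∂haarAddCircle)
    (eU : ∀ z, U' z = ∫ x, w x * U (z + x) ∂haarAddCircle) :
    (∫ z, ‖h' z‖ ^ 2 / (1 + U' z - ‖v' z‖ ^ 2) ∂haarAddCircle)
      + (1 / 4) * ∫ z, ‖h' z‖ ^ 2 * ((∫ x, w x * ‖v (z + x)‖ ^ 2 ∂haarAddCircle) - ‖v' z‖ ^ 2)
          ∂haarAddCircle
      ≤ ∫ z, ‖h z‖ ^ 2 / (1 + U z - ‖v z‖ ^ 2) ∂haarAddCircle := by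
  have hD1 : ∀ x, 1 ≤ 1 + U x - ‖v x‖ ^ 2 := fun x => by have := hvU x; linarith
  have hqc : Continuous fun x => ‖h x‖ ^ 2 / (1 + U x - ‖v x‖ ^ 2) :=
    Continuous.div (by fun_prop) (by fun_prop) (fun x => by have := hD1 x; linarith)
  have hc' : Continuous h' := by
    have : h' = fun z => ∫ x, (w x : ℂ) * h (z + x) ∂haarAddCircle := funext eh
    rw [this]; exact cpar (by unfold Function.uncurry; fun_prop)
  have vc' : Continuous v' := by
    have : v' = fun z => ∫ x, (w x : ℂ) * v (z + x) ∂haarAddCircle := funext ev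
    rw [this]; exact cpar (by unfold Function.uncurry; fun_prop)
  have Uc' : Continuous U' := by
    have : U' = fun z => ∫ x, w x * U (z + x) ∂haarAddCircle := funext eU
    rw [this]; exact cpar (by unfold Function.uncurry; fun_prop)
  have Vc' : Continuous fun z => ∫ x, w x * ‖v (z + x)‖ ^ 2 ∂haarAddCircle :=
    cpar (by unfold Function.uncurry; fun_prop)
  have hD1' : ∀ z, 1 ≤ 1 + U' z - ‖v' z‖ ^ 2 := by
    intro z
    have cs2 := csw hw (p := fun x => ‖v (z + x)‖) (q := fun _ => (1 : ℝ)) (by fun_prop)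
      continuous_const w0
    simp only [mul_one, one_pow] at cs2
    rw [w1, mul_one] at cs2
    have nh : ‖v' z‖ ≤ ∫ x, w x * ‖v (z + x)‖ ∂haarAddCircle := by
      rw [ev]
      refine (norm_integral_le_integral_norm _).trans (le_of_eq ?_)
      congr 1; funext x
      rw [norm_mul, Complex.norm_real, Real.norm_eq_abs, abs_of_nonneg (w0 x)]
    have h3 : ‖v' z‖ ^ 2 ≤ ∫ x, w x * ‖v (z + x)‖ ^ 2 ∂haarAddCircle :=
      (pow_le_pow_left₀ (norm_nonneg _) nh 2).trans cs2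
    have h4 : ∫ x, w x * ‖v (z + x)‖ ^ 2 ∂haarAddCircle ≤ U' z := by
      rw [eU]
      refine integral_mono (cint (by fun_prop)) (cint (by fun_prop)) (fun x => ?_)
      exact mul_le_mul_of_nonneg_left (hvU _) (w0 x)
    linarith
  have hpt : ∀ z, ‖h' z‖ ^ 2 / (1 + U' z - ‖v' z‖ ^ 2)
      + (1 / 4) * (‖h' z‖ ^ 2 * ((∫ x, w x * ‖v (z + x)‖ ^ 2 ∂haarAddCircle) - ‖v' z‖ ^ 2))
      ≤ ∫ x, w x * (‖h (z + x)‖ ^ 2 / (1 + U (z + x) - ‖v (z + x)‖ ^ 2)) ∂haarAddCircle := by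
    intro z
    rw [eh, ev, eU]
    exact bell_pt hw w0 w1 (h := fun x => h (z + x)) (v := fun x => v (z + x))
      (U := fun x => U (z + x)) (by fun_prop) (by fun_prop) (by fun_prop)
      (fun x => hvU _) (fun x => hU1 _)
  have hleft : Continuous fun z => ‖h' z‖ ^ 2 / (1 + U' z - ‖v' z‖ ^ 2) :=
    Continuous.div (by fun_prop) (by fun_prop) (fun x => by have := hD1' x; linarith)
  have hmono := integral_mono (μ := haarAddCircle (T := T))
    (f := fun z => ‖h' z‖ ^ 2 / (1 + U' z - ‖v' z‖ ^ 2)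
      + (1 / 4) * (‖h' z‖ ^ 2 * ((∫ x, w x * ‖v (z + x)‖ ^ 2 ∂haarAddCircle) - ‖v' z‖ ^ 2)))
    (g := fun z => ∫ x, w x * (‖h (z + x)‖ ^ 2 / (1 + U (z + x) - ‖v (z + x)‖ ^ 2))
      ∂haarAddCircle)
    (cint (by fun_prop)) (cint (cpar (by
      unfold Function.uncurry
      exact (hw.comp continuous_snd).mul (hqc.comp (continuous_fst.add continuous_snd))))) hpt
  rw [integral_add (cint hleft) (cint (by fun_prop)), integral_const_mul] at hmono
  refine hmono.trans (le_of_eq ?_)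
  rw [cswap (f := fun z x => w x * (‖h (z + x)‖ ^ 2 / (1 + U (z + x) - ‖v (z + x)‖ ^ 2))) (by
      unfold Function.uncurry
      exact (hw.comp continuous_snd).mul (hqc.comp (continuous_fst.add continuous_snd)))]
  have : ∀ x, ∫ z, w x * (‖h (z + x)‖ ^ 2 / (1 + U (z + x) - ‖v (z + x)‖ ^ 2)) ∂haarAddCircle
      = w x * ∫ z, ‖h z‖ ^ 2 / (1 + U z - ‖v z‖ ^ 2) ∂haarAddCircle := by
    intro x
    rw [integral_const_mul, tinv (fun z => ‖h z‖ ^ 2 / (1 + U z - ‖v z‖ ^ 2)) x]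
  simp_rw [this]
  rw [integral_mul_const, w1, one_mul]

end Pool.Agent.Q81.HR
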