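import Pool.Agent.Q81.HR.RP

/-!
# The bilinear bound
-/

open MeasureTheory AddCircle Finset
open scoped ComplexConjugate

namespace Pool.Agent.Q81.HR

set_option linter.unusedSectionVars false

variable {T : ℝ} [hT : Fact (0 < T)]

lemma X1 {p A B : AddCircle T → ℝ} (hp : Continuous p) (hA : Continuous A) (hB : Continuous B) :
    ∫ z, A z * (∫ y, p y * B (z + y) ∂haarAddCircle) ∂haarAddCircle
      = ∫ y, p y * (∫ z, A z * B (z + y) ∂haarAddCircle) ∂haarAddCircle := by
  have h1 : ∀ z, A z * (∫ y, p y * B (z + y) ∂haarAddCircle)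
      = ∫ y, A z * (p y * B (z + y)) ∂haarAddCircle := by
    intro z; rw [integral_const_mul]
  have h2 : ∀ y, p y * (∫ z, A z * B (z + y) ∂haarAddCircle)
      = ∫ z, A z * (p y * B (z + y)) ∂haarAddCircle := by
    intro y; rw [← integral_const_mul]
    congr 1; funext z; ring
  simp_rw [h1, h2]
  exact cswap (by unfold Function.uncurry; fun_prop)

lemma X2 {p A B : AddCircle T → ℝ} (hp : Continuous p) (hA : Continuous A) (hB : Continuous B) :
    ∫ z, A z * (∫ y, p y * B (z + y) ∂haarAddCircle) ∂haarAddCircle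
      = ∫ z, B z * (∫ y, p y * A (z - y) ∂haarAddCircle) ∂haarAddCircle := by
  rw [X1 hp hA hB]
  have h1 : ∀ z, B z * (∫ y, p y * A (z - y) ∂haarAddCircle)
      = ∫ y, B z * (p y * A (z - y)) ∂haarAddCircle := by
    intro z; rw [integral_const_mul]
  simp_rw [h1]
  rw [cswap (f := fun z y => B z * (p y * A (z - y))) (by unfold Function.uncurry; fun_prop)]
  congr 1; funext y
  have h2 := tinv (fun z => A (z - y) * B z) y
  simp only [add_sub_cancel_right] at h2
  rw [h2, ← integral_const_mul]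
  congr 1; funext z; ring

/-- Carleson embedding for the dual pieces -/
lemma low_bK {ι : Type*} {N : ℕ → ℕ} (hN : ∀ k, 1 ≤ N k) (hNN : ∀ k, 3 * N k ≤ N (k + 1))
    {c : ℕ → ℂ} (hc : ∀ k, ‖c k‖ ≤ 1 / 2) (s : Finset ι) (ν : ι → ℤ) (b : ι → ℂ)
    (hu : ∀ x : AddCircle T, ‖tp s ν b x‖ ≤ 1) (D : ℕ) (a : ℕ → ℂ) (m : ℕ) :
    ∑ k ∈ range m, ∫ z : AddCircle T, ‖Lo D a (N k) z‖ ^ 2 * ‖bK N c s ν b k z‖ ^ 2
        ∂haarAddCircle
      ≤ 34992 * ∑ n ∈ range D, ‖a n‖ ^ 2 := by
  have step : ∀ k ∈ range m, ∫ z : AddCircle T, ‖Lo D a (N k) z‖ ^ 2 * ‖bK N c s ν b k z‖ ^ 2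
        ∂haarAddCircle
      ≤ ∫ y, P N c m y * (∫ z : AddCircle T, ‖Lo D a (N k) z‖ ^ 2
        * ‖tp s ν (fun i => (psi (N k) (ν i) : ℂ) * b i) (z + y)‖ ^ 2 ∂haarAddCircle)
          ∂haarAddCircle := by
    intro k hk
    have hkm : k ≤ m := (Finset.mem_range.1 hk).le
    have c1 := Lo_cont (T := T) D a (N k)
    have c2 := bK_cont (T := T) N c s ν b k
    have c3 := tp_cont (T := T) s ν (fun i => (psi (N k) (ν i) : ℂ) * b i)
    have c4 := P_cont (T := T) N c k
    have c5 := P_cont (T := T) N c m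
    have h1 : ∫ z : AddCircle T, ‖Lo D a (N k) z‖ ^ 2 * ‖bK N c s ν b k z‖ ^ 2 ∂haarAddCircle
        ≤ ∫ z : AddCircle T, ‖Lo D a (N k) z‖ ^ 2 * (∫ y, P N c k y
          * ‖tp s ν (fun i => (psi (N k) (ν i) : ℂ) * b i) (z + y)‖ ^ 2 ∂haarAddCircle)
            ∂haarAddCircle := by
      have c6 : Continuous fun z : AddCircle T => ∫ y, P N c k y
          * ‖tp s ν (fun i => (psi (N k) (ν i) : ℂ) * b i) (z + y)‖ ^ 2 ∂haarAddCircle :=
        cpar (by unfold Function.uncurry; fun_prop)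
      refine integral_mono (cint (by fun_prop)) (cint (by fun_prop)) (fun z => ?_)
      exact mul_le_mul_of_nonneg_left (bK_sq hN hNN hc s ν b k z) (sq_nonneg _)
    refine h1.trans (le_of_eq ?_)
    rw [X2 (p := P N c k) (A := fun z => ‖Lo D a (N k) z‖ ^ 2)
      (B := fun z => ‖tp s ν (fun i => (psi (N k) (ν i) : ℂ) * b i) z‖ ^ 2)
      c4 (by fun_prop) (by fun_prop)]
    simp_rw [low_swap hN hNN c D a hkm]
    rw [← X2 (p := P N c m) (A := fun z => ‖Lo D a (N k) z‖ ^ 2)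
      (B := fun z => ‖tp s ν (fun i => (psi (N k) (ν i) : ℂ) * b i) z‖ ^ 2)
      c5 (by fun_prop) (by fun_prop),
      X1 (p := P N c m) (A := fun z => ‖Lo D a (N k) z‖ ^ 2)
      (B := fun z => ‖tp s ν (fun i => (psi (N k) (ν i) : ℂ) * b i) z‖ ^ 2)
      c5 (by fun_prop) (by fun_prop)]
  refine (Finset.sum_le_sum step).trans ?_
  have c5 := P_cont (T := T) N c m
  have c6 : ∀ k, Continuous fun y : AddCircle T => (∫ z : AddCircle T, ‖Lo D a (N k) z‖ ^ 2
        * ‖tp s ν (fun i => (psi (N k) (ν i) : ℂ) * b i) (z + y)‖ ^ 2 ∂haarAddCircle) := by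
    intro k
    have c1 := Lo_cont (T := T) D a (N k)
    have c3 := tp_cont (T := T) s ν (fun i => (psi (N k) (ν i) : ℂ) * b i)
    exact cpar (by unfold Function.uncurry; fun_prop)
  rw [← integral_finsetSum _ (fun k _ => cint (by have := c6 k; fun_prop))]
  simp_rw [← Finset.mul_sum]
  have hpt : ∀ y : AddCircle T, ∑ k ∈ range m, (∫ z : AddCircle T, ‖Lo D a (N k) z‖ ^ 2
        * ‖tp s ν (fun i => (psi (N k) (ν i) : ℂ) * b i) (z + y)‖ ^ 2 ∂haarAddCircle)
      ≤ 34992 * ∑ n ∈ range D, ‖a n‖ ^ 2 := by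
    intro y
    have e : ∀ (b' : ι → ℂ) (z : AddCircle T), tp s ν b' (z + y)
        = tp s ν (fun i => b' i * fourier (ν i) y) z := by
      intro b' z
      refine Finset.sum_congr rfl fun i _ => ?_
      simp only
      rw [fsh]; ring
    have h := low_carl (T := T) N hN hNN s ν (fun i => b i * fourier (ν i) y)
      (fun x => by rw [← e b x]; exact hu _) D a m
    have e2 : ∀ k (z : AddCircle T), tp s ν (fun i => (psi (N k) (ν i) : ℂ) * b i) (z + y)
        = tp s ν (fun i => (psi (N k) (ν i) : ℂ) * (b i * fourier (ν i) y)) z := by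
      intro k z
      rw [e]
      refine Finset.sum_congr rfl fun i _ => ?_
      simp only
      ring
    simp_rw [e2]
    exact h
  have c7 : Continuous fun y : AddCircle T => ∑ k ∈ range m,
      (∫ z : AddCircle T, ‖Lo D a (N k) z‖ ^ 2
        * ‖tp s ν (fun i => (psi (N k) (ν i) : ℂ) * b i) (z + y)‖ ^ 2 ∂haarAddCircle) :=
    continuous_finsetSum _ fun k _ => c6 k
  calc _ ≤ ∫ y : AddCircle T, P N c m y * (34992 * ∑ n ∈ range D, ‖a n‖ ^ 2) ∂haarAddCircle :=
        integral_mono (cint (c5.mul c7)) (cint (by fun_prop))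
          (fun y => mul_le_mul_of_nonneg_left (hpt y) (P_nonneg N c hc m y))
    _ = 34992 * ∑ n ∈ range D, ‖a n‖ ^ 2 := by
        rw [integral_mul_const, P_int hN hNN, one_mul]

/-- vanishing of the triple integrals -/
lemma triple_zero {ι : Type*} (s : Finset ι) (ν : ι → ℤ) (b : ι → ℂ) (D : ℕ) (a a' : ℕ → ℂ)
    (h : ∀ (j l : ℕ) (i : ι), (j : ℤ) + (l : ℤ) = ν i → a j * a' l * conj (b i) = 0) :
    ∫ z : AddCircle T, (pol D a z * pol D a' z) * conj (tp s ν b z) ∂haarAddCircle = 0 := by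
  have h1 : ∀ z : AddCircle T, (pol D a z * pol D a' z) * conj (tp s ν b z)
      = ∑ j ∈ range D, ∑ l ∈ range D, ∑ i ∈ s,
        (a j * a' l * conj (b i)) * fourier ((j : ℤ) + (l : ℤ) + -ν i) z := by
    intro z
    unfold pol tp
    rw [map_sum, Finset.sum_mul_sum, Finset.sum_mul]
    refine Finset.sum_congr rfl fun j _ => ?_
    rw [Finset.sum_mul_sum]
    refine Finset.sum_congr rfl fun l _ => Finset.sum_congr rfl fun i _ => ?_
    rw [map_mul, fconj, fourier_add, fourier_add]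
    ring
  simp_rw [h1]
  rw [integral_finsetSum _ (fun j _ => cint (by fun_prop))]
  refine Finset.sum_eq_zero fun j _ => ?_
  rw [integral_finsetSum _ (fun l _ => cint (by fun_prop))]
  refine Finset.sum_eq_zero fun l _ => ?_
  rw [integral_finsetSum _ (fun i _ => cint (by fun_prop))]
  refine Finset.sum_eq_zero fun i _ => ?_
  rw [integral_const_mul, intf]
  by_cases he : (j : ℤ) + (l : ℤ) + -ν i = 0
  · rw [h j l i (by omega), zero_mul]
  · rw [if_neg he, mul_zero]

/-- high frequency part -/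
noncomputable def Hi (D : ℕ) (a : ℕ → ℂ) (N : ℕ) (x : AddCircle T) : ℂ :=
  pol D (fun n => if 2 * N ≤ n then a n else 0) x

lemma split3 (D : ℕ) (a : ℕ → ℂ) {N : ℕ} (hN : 1 ≤ N) (x : AddCircle T) :
    pol D a x = Lo D a N x + Mi D a N x + Hi D a N x := by
  unfold Lo Mi Hi
  rw [← pol_add, ← pol_add]
  unfold pol
  refine Finset.sum_congr rfl fun n _ => ?_
  simp only
  congr 1
  by_cases h1 : 4 * n < N
  · rw [if_pos h1, if_neg (by omega), if_neg (by omega)]; ring
  · rw [if_neg h1]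
    by_cases h2 : n < 2 * N
    · rw [if_pos (by omega), if_neg (by omega)]; ring
    · rw [if_neg (by omega), if_pos (by omega)]; ring

/-- only the interactions involving a middle part matter -/
lemma reduce_mid {ι : Type*} {N : ℕ → ℕ} (hN : ∀ k, 1 ≤ N k) (hNN : ∀ k, 3 * N k ≤ N (k + 1))
    (c : ℕ → ℂ) (s : Finset ι) (ν : ι → ℤ) (b : ι → ℂ) (D : ℕ) (a a' : ℕ → ℂ) (k : ℕ) :
    ∫ z : AddCircle T, (pol D a z * pol D a' z) * conj (bK N c s ν b k z) ∂haarAddCircle
      = ∫ z : AddCircle T, (Mi D a (N k) z * Mi D a' (N k) z + Mi D a (N k) z * Lo D a' (N k) z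
          + Lo D a (N k) z * Mi D a' (N k) z) * conj (bK N c s ν b k z) ∂haarAddCircle := by
  have c1 := Lo_cont (T := T) D a (N k)
  have c2 := Lo_cont (T := T) D a' (N k)
  have c3 := Mi_cont (T := T) D a (N k)
  have c4 := Mi_cont (T := T) D a' (N k)
  have c5 : Continuous (Hi (T := T) D a (N k)) := pol_cont _ _
  have c6 : Continuous (Hi (T := T) D a' (N k)) := pol_cont _ _
  have c7 := bK_cont (T := T) N c s ν b k
  have c8 := pol_cont (T := T) D a'
  have c9 : Continuous fun z : AddCircle T => conj (bK N c s ν b k z) :=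
    Complex.continuous_conj.comp c7
  have z1 : ∫ z : AddCircle T, (Lo D a (N k) z * Lo D a' (N k) z)
      * conj (bK N c s ν b k z) ∂haarAddCircle = 0 := by
    refine triple_zero (T := T) s ν _ D _ _ (fun j l i h => ?_)
    by_cases h1 : 4 * j < N k
    · by_cases h2 : 4 * l < N k
      · rw [pc_supp hN hNN c k]
        · simp
        · rw [← h]
          zify at h1 h2
          rcases abs_cases ((j : ℤ) + (l : ℤ) - (N k : ℤ)) with ⟨h5, h6⟩ | ⟨h5, h6⟩ <;> omega
      · rw [if_neg h2]; simp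
    · rw [if_neg h1]; simp
  have z2 : ∫ z : AddCircle T, (Hi D a (N k) z * pol D a' z)
      * conj (bK N c s ν b k z) ∂haarAddCircle = 0 := by
    refine triple_zero (T := T) s ν _ D _ _ (fun j l i h => ?_)
    by_cases h1 : 2 * N k ≤ j
    · rw [pc_supp hN hNN c k]
      · simp
      · rw [← h]
        zify at h1
        rcases abs_cases ((j : ℤ) + (l : ℤ) - (N k : ℤ)) with ⟨h5, h6⟩ | ⟨h5, h6⟩ <;> omega
    · rw [if_neg h1]; simp
  have z3 : ∫ z : AddCircle T, (pol D (fun n => (if 4 * n < N k then a n else 0)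
      + (if N k ≤ 4 * n ∧ n < 2 * N k then a n else 0)) z * Hi D a' (N k) z)
      * conj (bK N c s ν b k z) ∂haarAddCircle = 0 := by
    refine triple_zero (T := T) s ν _ D _ _ (fun j l i h => ?_)
    by_cases h1 : 2 * N k ≤ l
    · rw [pc_supp hN hNN c k]
      · simp
      · rw [← h]
        zify at h1
        rcases abs_cases ((j : ℤ) + (l : ℤ) - (N k : ℤ)) with ⟨h5, h6⟩ | ⟨h5, h6⟩ <;> omega
    · rw [if_neg h1]; simp
  have z3' : ∫ z : AddCircle T, ((Lo D a (N k) z + Mi D a (N k) z) * Hi D a' (N k) z)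
      * conj (bK N c s ν b k z) ∂haarAddCircle = 0 := by
    rw [← z3]
    congr 1; funext z
    rw [pol_add]; rfl
  have e : ∀ z : AddCircle T, (pol D a z * pol D a' z) * conj (bK N c s ν b k z)
      = (Mi D a (N k) z * Mi D a' (N k) z + Mi D a (N k) z * Lo D a' (N k) z
          + Lo D a (N k) z * Mi D a' (N k) z) * conj (bK N c s ν b k z)
        + ((Lo D a (N k) z * Lo D a' (N k) z) * conj (bK N c s ν b k z)
          + ((Hi D a (N k) z * pol D a' z) * conj (bK N c s ν b k z)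
            + ((Lo D a (N k) z + Mi D a (N k) z) * Hi D a' (N k) z)
              * conj (bK N c s ν b k z))) := by
    intro z
    have h1 := split3 D a (hN k) z
    have h2 := split3 D a' (hN k) z
    rw [h1]
    conv_lhs => rw [h2]
    conv_rhs => rw [h2]
    ring
  simp_rw [e]
  rw [integral_add (cint (by fun_prop)) (cint (by fun_prop)),
    integral_add (cint (by fun_prop)) (cint (by fun_prop)),
    integral_add (cint (by fun_prop)) (cint (by fun_prop)), z1, z2, z3']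
  simp

/-- the bilinear bound -/
theorem bilinear {ι : Type*} {N : ℕ → ℕ} (hN : ∀ k, 1 ≤ N k) (hNN : ∀ k, 3 * N k ≤ N (k + 1))
    {c : ℕ → ℂ} (hc : ∀ k, ‖c k‖ ≤ 1 / 2) (s : Finset ι) (ν : ι → ℤ) (b : ι → ℂ)
    (hu : ∀ x : AddCircle T, ‖tp s ν b x‖ ≤ 1) (D : ℕ) (a a' : ℕ → ℂ) {S : ℝ}
    (ha : ∑ n ∈ range D, ‖a n‖ ^ 2 ≤ S) (ha' : ∑ n ∈ range D, ‖a' n‖ ^ 2 ≤ S)
    (m : ℕ) (w : ℕ → ℂ) {δ : ℝ} (hw : ∀ k, ‖w k‖ ≤ δ) :
    ‖∑ k ∈ range m, w k * ∫ z : AddCircle T, (pol D a z * pol D a' z)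
        * conj (bK N c s ν b k z) ∂haarAddCircle‖ ≤ 35032 * (δ * S) := by
  have hδ : 0 ≤ δ := (norm_nonneg _).trans (hw 0)
  have hk : ∀ k, ‖∫ z : AddCircle T, (pol D a z * pol D a' z)
        * conj (bK N c s ν b k z) ∂haarAddCircle‖
      ≤ (∫ z : AddCircle T, ‖Mi D a (N k) z‖ ^ 2 ∂haarAddCircle)
        + (∫ z : AddCircle T, ‖Mi D a' (N k) z‖ ^ 2 ∂haarAddCircle)
        + (1 / 2) * (∫ z : AddCircle T, ‖Lo D a (N k) z‖ ^ 2 * ‖bK N c s ν b k z‖ ^ 2
            ∂haarAddCircle)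
        + (1 / 2) * (∫ z : AddCircle T, ‖Lo D a' (N k) z‖ ^ 2 * ‖bK N c s ν b k z‖ ^ 2
            ∂haarAddCircle) := by
    intro k
    have c1 := Lo_cont (T := T) D a (N k)
    have c2 := Lo_cont (T := T) D a' (N k)
    have c3 := Mi_cont (T := T) D a (N k)
    have c4 := Mi_cont (T := T) D a' (N k)
    have c7 := bK_cont (T := T) N c s ν b k
    have c9 : Continuous fun z : AddCircle T => conj (bK N c s ν b k z) :=
      Complex.continuous_conj.comp c7
    rw [reduce_mid hN hNN]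
    refine (norm_integral_le_integral_norm _).trans ?_
    rw [← integral_const_mul, ← integral_const_mul,
      ← integral_add (cint (by fun_prop)) (cint (by fun_prop)),
      ← integral_add (cint (by fun_prop)) (cint (by fun_prop)),
      ← integral_add (cint (by fun_prop)) (cint (by fun_prop))]
    refine integral_mono (cint (by fun_prop)) (cint (by fun_prop)) (fun z => ?_)
    simp only
    rw [norm_mul, Complex.norm_conj]
    have hb := bK_le_one (T := T) hN hNN hc s ν b hu k z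
    set β := ‖bK N c s ν b k z‖
    have hβ0 : 0 ≤ β := norm_nonneg _
    have h1 : ‖Mi D a (N k) z * Mi D a' (N k) z + Mi D a (N k) z * Lo D a' (N k) z
          + Lo D a (N k) z * Mi D a' (N k) z‖
        ≤ ‖Mi D a (N k) z‖ * ‖Mi D a' (N k) z‖ + ‖Mi D a (N k) z‖ * ‖Lo D a' (N k) z‖
          + ‖Lo D a (N k) z‖ * ‖Mi D a' (N k) z‖ := by
      refine (norm_add_le _ _).trans ?_
      rw [norm_mul (Lo D a (N k) z)]
      refine add_le_add_left ?_ _ |>.trans le_rfl
      refine (norm_add_le _ _).trans ?_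
      rw [norm_mul, norm_mul]
    set M := ‖Mi D a (N k) z‖
    set M' := ‖Mi D a' (N k) z‖
    set L := ‖Lo D a (N k) z‖
    set L' := ‖Lo D a' (N k) z‖
    have hM : 0 ≤ M := norm_nonneg _
    have hM' : 0 ≤ M' := norm_nonneg _
    have h2 : (M * M' + M * L' + L * M') * β ≤ M ^ 2 + M' ^ 2 + 1 / 2 * (L ^ 2 * β ^ 2)
        + 1 / 2 * (L' ^ 2 * β ^ 2) := by
      have i1 : M * M' * β ≤ 1 / 2 * M ^ 2 + 1 / 2 * M' ^ 2 := by
        have : M * M' * β ≤ M * M' * 1 := mul_le_mul_of_nonneg_left hb (mul_nonneg hM hM')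
        nlinarith [sq_nonneg (M - M')]
      have i2 : M * (L' * β) ≤ 1 / 2 * M ^ 2 + 1 / 2 * (L' ^ 2 * β ^ 2) := by
        nlinarith [sq_nonneg (M - L' * β)]
      have i3 : M' * (L * β) ≤ 1 / 2 * M' ^ 2 + 1 / 2 * (L ^ 2 * β ^ 2) := by
        nlinarith [sq_nonneg (M' - L * β)]
      nlinarith
    exact (mul_le_mul_of_nonneg_right h1 hβ0).trans h2
  have h1 : ‖∑ k ∈ range m, w k * ∫ z : AddCircle T, (pol D a z * pol D a' z)
        * conj (bK N c s ν b k z) ∂haarAddCircle‖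
      ≤ ∑ k ∈ range m, δ * ((∫ z : AddCircle T, ‖Mi D a (N k) z‖ ^ 2 ∂haarAddCircle)
        + (∫ z : AddCircle T, ‖Mi D a' (N k) z‖ ^ 2 ∂haarAddCircle)
        + (1 / 2) * (∫ z : AddCircle T, ‖Lo D a (N k) z‖ ^ 2 * ‖bK N c s ν b k z‖ ^ 2
            ∂haarAddCircle)
        + (1 / 2) * (∫ z : AddCircle T, ‖Lo D a' (N k) z‖ ^ 2 * ‖bK N c s ν b k z‖ ^ 2
            ∂haarAddCircle)) := by
    refine (norm_sum_le _ _).trans (Finset.sum_le_sum fun k _ => ?_)
    rw [norm_mul]
    exact mul_le_mul (hw k) (hk k) (norm_nonneg _) hδ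
  refine h1.trans ?_
  rw [← Finset.mul_sum, Finset.sum_add_distrib, Finset.sum_add_distrib, Finset.sum_add_distrib,
    ← Finset.mul_sum, ← Finset.mul_sum]
  have s1 := mid_sum (T := T) N hN hNN D a m
  have s2 := mid_sum (T := T) N hN hNN D a' m
  have s3 := low_bK (T := T) hN hNN hc s ν b hu D a m
  have s4 := low_bK (T := T) hN hNN hc s ν b hu D a' m
  have h5 : 35032 * (δ * S) = δ * (35032 * S) := by ring
  rw [h5]
  refine mul_le_mul_of_nonneg_left ?_ hδ
  linarith

end Pool.Agent.Q81.HR
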