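import Pool.Agent.Q81.HR.Bell

/-!
# Carleson embedding for Poisson averages at finitely many scales
-/

open MeasureTheory AddCircle Finset
open scoped ComplexConjugate

namespace Pool.Agent.Q81.HR

set_option linter.unusedSectionVars false

variable {T : ℝ} [hT : Fact (0 < T)]

section
variable {ι : Type*} (s : Finset ι) (ν : ι → ℤ) (b : ι → ℂ)

/-- Poisson average of the polynomial -/
noncomputable def uk (r : ℝ) (z : AddCircle T) : ℂ :=
  tp s ν (fun i => (r : ℂ) ^ (ν i).natAbs * b i) z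

/-- Poisson average of the square of the modulus -/
noncomputable def Uk (r : ℝ) (z : AddCircle T) : ℝ :=
  ∫ y, W r y * ‖tp s ν b (z + y)‖ ^ 2 ∂haarAddCircle

lemma uk_cont (r : ℝ) : Continuous (uk (T := T) s ν b r) := tp_cont _ _ _

lemma uk_eq {r : ℝ} (h0 : 0 ≤ r) (h1 : r < 1) (z : AddCircle T) :
    uk s ν b r z = ∫ y, ((W r y : ℝ) : ℂ) * tp s ν b (z + y) ∂haarAddCircle := by
  have := A_tp (T := T) s ν b h0 h1 z
  unfold A at this
  rw [this]; rfl

lemma uk_semi {r p : ℝ} (p0 : 0 ≤ p) (p1 : p < 1)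
    (z : AddCircle T) :
    uk s ν b (p * r) z = ∫ y, ((W p y : ℝ) : ℂ) * uk s ν b r (z + y) ∂haarAddCircle := by
  have h := A_tp (T := T) s ν (fun i => (r : ℂ) ^ (ν i).natAbs * b i) p0 p1 z
  unfold A at h
  unfold uk
  rw [h]
  refine Finset.sum_congr rfl fun i _ => ?_
  push_cast
  rw [mul_pow]; ring

lemma sq_tp (z : AddCircle T) :
    ((‖tp s ν b z‖ ^ 2 : ℝ) : ℂ)
      = tp (s ×ˢ s) (fun p => ν p.1 + -ν p.2) (fun p => b p.1 * conj (b p.2)) z := by
  have h2 : ∀ z : ℂ, ((‖z‖ ^ 2 : ℝ) : ℂ) = z * conj z := by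
    intro z; rw [Complex.mul_conj, Complex.normSq_eq_norm_sq]
  rw [h2]
  unfold tp
  rw [map_sum, Finset.sum_mul_sum, Finset.sum_product]
  refine Finset.sum_congr rfl fun n _ => Finset.sum_congr rfl fun m _ => ?_
  rw [map_mul, fconj]
  simp only
  rw [fourier_add]; ring

lemma Uk_coe {r : ℝ} (h0 : 0 ≤ r) (h1 : r < 1) (z : AddCircle T) :
    ((Uk s ν b r z : ℝ) : ℂ)
      = uk (s ×ˢ s) (fun p => ν p.1 + -ν p.2) (fun p => b p.1 * conj (b p.2)) r z := by
  rw [uk_eq _ _ _ h0 h1]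
  unfold Uk
  rw [← integral_complex_ofReal]
  congr 1; funext y
  push_cast
  rw [← sq_tp]; push_cast; rfl

lemma Uk_cont {r : ℝ} (h0 : 0 ≤ r) (h1 : r < 1) : Continuous (Uk (T := T) s ν b r) := by
  have := W_cont (T := T) h0 h1
  have h2 := tp_cont (T := T) s ν b
  unfold Uk
  exact cpar (by unfold Function.uncurry; fun_prop)

lemma Uk_semi {r p : ℝ} (r0 : 0 ≤ r) (r1 : r < 1) (p0 : 0 ≤ p) (p1 : p < 1)
    (z : AddCircle T) :
    Uk s ν b (p * r) z = ∫ y, W p y * Uk s ν b r (z + y) ∂haarAddCircle := by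
  have h : ((Uk s ν b (p * r) z : ℝ) : ℂ)
      = ((∫ y, W p y * Uk s ν b r (z + y) ∂haarAddCircle : ℝ) : ℂ) := by
    rw [Uk_coe s ν b (mul_nonneg p0 r0) (by nlinarith), uk_semi _ _ _ p0 p1,
      ← integral_complex_ofReal]
    congr 1; funext y
    rw [Complex.ofReal_mul, Uk_coe s ν b r0 r1]
  exact_mod_cast h

lemma uk_le {r : ℝ} (h0 : 0 ≤ r) (h1 : r < 1) (z : AddCircle T) :
    ‖uk s ν b r z‖ ^ 2 ≤ Uk s ν b r z := by
  have hw := W_cont (T := T) h0 h1
  have w0 : ∀ x : AddCircle T, 0 ≤ W r x := fun x => (W_pos h0 h1 x).le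
  have ht := tp_cont (T := T) s ν b
  have cs2 := csw hw (p := fun x => ‖tp s ν b (z + x)‖) (q := fun _ => (1 : ℝ)) (by fun_prop)
    continuous_const w0
  simp only [mul_one, one_pow] at cs2
  rw [int_W_one h0 h1, mul_one] at cs2
  have nh : ‖uk s ν b r z‖ ≤ ∫ x, W r x * ‖tp s ν b (z + x)‖ ∂haarAddCircle := by
    rw [uk_eq s ν b h0 h1]
    refine (norm_integral_le_integral_norm _).trans (le_of_eq ?_)
    congr 1; funext x
    rw [norm_mul, Complex.norm_real, Real.norm_eq_abs, abs_of_nonneg (w0 x)]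
  exact (pow_le_pow_left₀ (norm_nonneg _) nh 2).trans cs2

lemma Uk_le {r : ℝ} (h0 : 0 ≤ r) (h1 : r < 1) (hu : ∀ x : AddCircle T, ‖tp s ν b x‖ ≤ 1)
    (z : AddCircle T) :
    Uk s ν b r z ≤ 1 := by
  have hw := W_cont (T := T) h0 h1
  have w0 : ∀ x : AddCircle T, 0 ≤ W r x := fun x => (W_pos h0 h1 x).le
  have ht := tp_cont (T := T) s ν b
  rw [← int_W_one (T := T) h0 h1]
  unfold Uk
  refine integral_mono (cint (by fun_prop)) (cint hw) (fun x => ?_)
  have h3 : ‖tp s ν b (z + x)‖ ^ 2 ≤ 1 := by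
    have := hu (z + x)
    have h4 := norm_nonneg (tp s ν b (z + x))
    nlinarith
  have := mul_le_mul_of_nonneg_left h3 (w0 x)
  simpa using this

end

/-- the local variance -/
noncomputable def Vv {ι : Type*} (s : Finset ι) (ν : ι → ℤ) (b : ι → ℂ) (r p : ℝ)
    (z : AddCircle T) : ℝ :=
  (∫ y, W p y * ‖uk s ν b r (z + y)‖ ^ 2 ∂haarAddCircle) - ‖uk s ν b (p * r) z‖ ^ 2

lemma Vv_cont {ι : Type*} (s : Finset ι) (ν : ι → ℤ) (b : ι → ℂ) {r p : ℝ}
    (p0 : 0 ≤ p) (p1 : p < 1) : Continuous (Vv (T := T) s ν b r p) := by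
  have h1 := W_cont (T := T) p0 p1
  have h2 := uk_cont (T := T) s ν b r
  have h3 := uk_cont (T := T) s ν b (p * r)
  have h4 : Continuous fun z : AddCircle T =>
    ∫ y, W p y * ‖uk s ν b r (z + y)‖ ^ 2 ∂haarAddCircle :=
    cpar (by unfold Function.uncurry; fun_prop)
  unfold Vv
  fun_prop

lemma pol_eq_tp (D : ℕ) (a : ℕ → ℂ) (x : AddCircle T) :
    pol D a x = tp (range D) (fun n : ℕ => (n : ℤ)) a x := rfl

/-- Carleson embedding -/
lemma carleson {ι : Type*} (s : Finset ι) (ν : ι → ℤ) (b : ι → ℂ)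
    (hu : ∀ x : AddCircle T, ‖tp s ν b x‖ ≤ 1) (D : ℕ) (a : ℕ → ℂ)
    (r p : ℕ → ℝ) (r0 : ∀ k, 0 ≤ r k) (r1 : ∀ k, r k < 1) (p0 : ∀ k, 0 ≤ p k)
    (p1 : ∀ k, p k < 1) (hrp : ∀ k, r k = p k * r (k + 1)) (m : ℕ) :
    ∑ k ∈ range m, ∫ z : AddCircle T, ‖pol D (fun n => (r k : ℂ) ^ n * a n) z‖ ^ 2
        * Vv s ν b (r (k + 1)) (p k) z ∂haarAddCircle
      ≤ 4 * ∑ n ∈ range D, ‖a n‖ ^ 2 := by
  set E : ℕ → ℝ := fun k => ∫ z : AddCircle T, ‖pol D (fun n => (r k : ℂ) ^ n * a n) z‖ ^ 2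
    / (1 + Uk s ν b (r k) z - ‖uk s ν b (r k) z‖ ^ 2) ∂haarAddCircle with hE
  have hpoluk : ∀ (k : ℕ) (z : AddCircle T), pol D (fun n => (r k : ℂ) ^ n * a n) z
      = uk (range D) (fun n : ℕ => (n : ℤ)) a (r k) z := by
    intro k z
    rfl
  have hD1 : ∀ k (z : AddCircle T), 1 ≤ 1 + Uk s ν b (r k) z - ‖uk s ν b (r k) z‖ ^ 2 := by
    intro k z
    have := uk_le s ν b (r0 k) (r1 k) z
    linarith
  have step : ∀ k, E k + (1 / 4) * ∫ z : AddCircle T,
      ‖pol D (fun n => (r k : ℂ) ^ n * a n) z‖ ^ 2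
        * Vv s ν b (r (k + 1)) (p k) z ∂haarAddCircle ≤ E (k + 1) := by
    intro k
    have h := bell_int (T := T) (w := W (p k)) (W_cont (p0 k) (p1 k))
      (fun x => (W_pos (p0 k) (p1 k) x).le) (int_W_one (p0 k) (p1 k))
      (h := fun z => pol D (fun n => (r (k + 1) : ℂ) ^ n * a n) z)
      (v := uk s ν b (r (k + 1))) (U := Uk s ν b (r (k + 1)))
      (pol_cont _ _) (uk_cont _ _ _ _) (Uk_cont _ _ _ (r0 _) (r1 _))
      (uk_le s ν b (r0 _) (r1 _)) (Uk_le s ν b (r0 _) (r1 _) hu)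
      (h' := fun z => pol D (fun n => (r k : ℂ) ^ n * a n) z)
      (v' := uk s ν b (r k)) (U' := Uk s ν b (r k))
      (by
        intro z
        simp only [hpoluk]
        rw [hrp k]
        exact uk_semi _ _ _ (p0 k) (p1 k) z)
      (by intro z; rw [hrp k]; exact uk_semi _ _ _ (p0 k) (p1 k) z)
      (by intro z; rw [hrp k]; exact Uk_semi _ _ _ (r0 _) (r1 _) (p0 k) (p1 k) z)
    have e : ∀ z : AddCircle T, Vv s ν b (r (k + 1)) (p k) z
        = (∫ x, W (p k) x * ‖uk s ν b (r (k + 1)) (z + x)‖ ^ 2 ∂haarAddCircle)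
          - ‖uk s ν b (r k) z‖ ^ 2 := by
      intro z; unfold Vv; rw [← hrp k]
    simp_rw [e]
    exact h
  have tele : ∀ m : ℕ, (1 / 4) * ∑ k ∈ range m, ∫ z : AddCircle T,
      ‖pol D (fun n => (r k : ℂ) ^ n * a n) z‖ ^ 2
        * Vv s ν b (r (k + 1)) (p k) z ∂haarAddCircle ≤ E m - E 0 := by
    intro m
    induction m with
    | zero => simp
    | succ m ih =>
      rw [Finset.sum_range_succ, mul_add]
      have := step m
      linarith
  have hE0 : 0 ≤ E 0 := by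
    rw [hE]
    refine integral_nonneg fun z => div_nonneg (sq_nonneg _) ?_
    have := hD1 0 z; linarith
  have hEm : E m ≤ ∑ n ∈ range D, ‖a n‖ ^ 2 := by
    have h1 : E m ≤ ∫ z : AddCircle T, ‖pol D (fun n => (r m : ℂ) ^ n * a n) z‖ ^ 2
        ∂haarAddCircle := by
      have c1 := pol_cont (T := T) D (fun n => (r m : ℂ) ^ n * a n)
      have c2 := uk_cont (T := T) s ν b (r m)
      have c3 := Uk_cont (T := T) s ν b (r0 m) (r1 m)
      refine integral_mono (cint ?_) (cint (by fun_prop)) (fun z => ?_)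
      · exact Continuous.div (by fun_prop) (by fun_prop) (fun x => by
          have := hD1 m x; linarith)
      · exact div_le_self (sq_nonneg _) (hD1 m z)
    refine h1.trans ?_
    rw [pol_norm]
    refine Finset.sum_le_sum fun n _ => ?_
    rw [norm_mul, norm_pow, Complex.norm_real, Real.norm_eq_abs, abs_of_nonneg (r0 m), mul_pow]
    have h2 : ((r m) ^ n) ^ 2 ≤ 1 := by
      rw [← pow_mul]
      exact pow_le_one₀ (r0 m) (r1 m).le
    nlinarith [sq_nonneg ‖a n‖]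
  have := tele m
  linarith

end Pool.Agent.Q81.HR
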