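import Pool.Agent.Q81.HR.Bil

/-!
# Factorization of analytic polynomials into two square-root factors
-/

open MeasureTheory AddCircle Finset Metric
open scoped ComplexConjugate

namespace Pool.Agent.Q81.HR

set_option linter.unusedSectionVars false

/-- the factorization property -/
def Qf (p : ℂ → ℂ) : Prop :=
  ∃ g h : ℂ → ℂ, DiffContOnCl ℂ g (ball 0 1) ∧ DiffContOnCl ℂ h (ball 0 1) ∧
    ∀ z : ℂ, ‖z‖ = 1 → g z * h z = p z ∧ ‖g z‖ ^ 2 = ‖p z‖ ∧ ‖h z‖ ^ 2 = ‖p z‖

lemma dcl_mul {f g : ℂ → ℂ} {s : Set ℂ} (hf : DiffContOnCl ℂ f s) (hg : DiffContOnCl ℂ g s) :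
    DiffContOnCl ℂ (fun z => f z * g z) s :=
  ⟨hf.differentiableOn.mul hg.differentiableOn, hf.continuousOn.mul hg.continuousOn⟩

lemma Qf_mul {p q : ℂ → ℂ} (hp : Qf p) (hq : Qf q) : Qf (fun z => p z * q z) := by
  obtain ⟨g, h, hg, hh, H⟩ := hp
  obtain ⟨g', h', hg', hh', H'⟩ := hq
  refine ⟨fun z => g z * g' z, fun z => h z * h' z, dcl_mul hg hg', dcl_mul hh hh', ?_⟩
  intro z hz
  obtain ⟨a1, a2, a3⟩ := H z hz
  obtain ⟨b1, b2, b3⟩ := H' z hz
  refine ⟨?_, ?_, ?_⟩
  · simp only; rw [← a1, ← b1]; ring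
  · simp only; rw [norm_mul, norm_mul, mul_pow, a2, b2]
  · simp only; rw [norm_mul, norm_mul, mul_pow, a3, b3]

lemma Qf_const (c : ℂ) : Qf (fun _ => c) := by
  obtain ⟨s, hs⟩ := IsAlgClosed.exists_pow_nat_eq c (n := 2) (by norm_num)
  refine ⟨fun _ => s, fun _ => s, diffContOnCl_const, diffContOnCl_const, fun z _ => ?_⟩
  refine ⟨by rw [← hs]; ring, ?_, ?_⟩ <;> rw [← norm_pow, hs]

lemma half_sq (w : ℂ) : w ^ ((2 : ℕ) : ℂ)⁻¹ * w ^ ((2 : ℕ) : ℂ)⁻¹ = w := by
  have := Complex.cpow_nat_inv_pow w (n := 2) (by norm_num)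
  rw [← pow_two]; exact this

lemma half_re : 0 < (((2 : ℕ) : ℂ)⁻¹).re := by
  norm_num

lemma Qf_lin_out {α : ℂ} (hα : 1 ≤ ‖α‖) : Qf (fun z => z - α) := by
  have hα0 : α ≠ 0 := by
    intro h; rw [h, norm_zero] at hα; linarith
  obtain ⟨s, hs⟩ := IsAlgClosed.exists_pow_nat_eq (-α) (n := 2) (by norm_num)
  set g : ℂ → ℂ := fun z => s * (1 - z / α) ^ ((2 : ℕ) : ℂ)⁻¹ with hg
  have hre : ∀ z : ℂ, ‖z‖ ≤ 1 → 0 ≤ (1 - z / α).re := by
    intro z hz
    have h1 : (z / α).re ≤ ‖z / α‖ := Complex.re_le_norm _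
    have h2 : ‖z / α‖ ≤ 1 := by
      rw [norm_div]; exact div_le_one_of_le₀ (hz.trans hα) (norm_nonneg _)
    rw [Complex.sub_re, Complex.one_re]; linarith
  have hre2 : ∀ z : ℂ, ‖z‖ < 1 → 0 < (1 - z / α).re := by
    intro z hz
    have h1 : (z / α).re ≤ ‖z / α‖ := Complex.re_le_norm _
    have h2 : ‖z / α‖ < 1 := by
      rw [norm_div, div_lt_one (by linarith)]; linarith
    rw [Complex.sub_re, Complex.one_re]; linarith
  have hd : DiffContOnCl ℂ g (ball 0 1) := by
    refine ⟨?_, ?_⟩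
    · intro z hz
      have hz' : ‖z‖ < 1 := by simpa using hz
      refine DifferentiableAt.differentiableWithinAt ?_
      refine DifferentiableAt.const_mul ?_ s
      exact DifferentiableAt.cpow (by fun_prop) (by fun_prop) (Or.inl (hre2 z hz'))
    · rw [closure_ball _ (by norm_num)]
      intro z hz
      have hz' : ‖z‖ ≤ 1 := by simpa using hz
      refine ContinuousAt.continuousWithinAt ?_
      have hc : ContinuousAt (fun w : ℂ => w ^ ((2 : ℕ) : ℂ)⁻¹) (1 - z / α) :=
        Complex.continuousAt_cpow_const_of_re_pos (Or.inl (hre z hz')) half_re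
      have hc2 : ContinuousAt (fun z : ℂ => 1 - z / α) z := by fun_prop
      exact continuousAt_const.mul (ContinuousAt.comp (g := fun w : ℂ => w ^ ((2 : ℕ) : ℂ)⁻¹)
        (f := fun z : ℂ => 1 - z / α) hc hc2)
  have hmul : ∀ z, g z * g z = z - α := by
    intro z
    have : g z * g z = s ^ 2 * ((1 - z / α) ^ ((2 : ℕ) : ℂ)⁻¹ * (1 - z / α) ^ ((2 : ℕ) : ℂ)⁻¹) := by
      simp only [hg]; ring
    rw [this, half_sq, hs]
    field_simp; ring
  have hn : ∀ z, ‖g z‖ ^ 2 = ‖z - α‖ := by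
    intro z
    have h1 := congrArg norm (hmul z)
    rw [norm_mul] at h1
    rw [pow_two]; exact h1
  exact ⟨g, g, hd, hd, fun z _ => ⟨hmul z, hn z, hn z⟩⟩

lemma Qf_lin_in {α : ℂ} (hα : ‖α‖ < 1) : Qf (fun z => z - α) := by
  set g : ℂ → ℂ := fun z => (1 - conj α * z) ^ ((2 : ℕ) : ℂ)⁻¹ with hg
  have hre : ∀ z : ℂ, ‖z‖ ≤ 1 → 0 < (1 - conj α * z).re := by
    intro z hz
    have h1 : (conj α * z).re ≤ ‖conj α * z‖ := Complex.re_le_norm _
    have h2 : ‖conj α * z‖ < 1 := by
      rw [norm_mul, Complex.norm_conj]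
      calc ‖α‖ * ‖z‖ ≤ ‖α‖ * 1 := mul_le_mul_of_nonneg_left hz (norm_nonneg _)
        _ < 1 := by linarith
    rw [Complex.sub_re, Complex.one_re]; linarith
  have hmul : ∀ z, g z * g z = 1 - conj α * z := by
    intro z; simp only [hg]; exact half_sq _
  have hne : ∀ z : ℂ, ‖z‖ ≤ 1 → g z ≠ 0 := by
    intro z hz h0
    have := hmul z
    rw [h0, mul_zero] at this
    have h2 := hre z hz
    rw [← this] at h2
    simp at h2
  have hda : ∀ z : ℂ, ‖z‖ ≤ 1 → DifferentiableAt ℂ g z := by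
    intro z hz
    exact DifferentiableAt.cpow (by fun_prop) (by fun_prop) (Or.inl (hre z hz))
  have hd : DiffContOnCl ℂ g (ball 0 1) := by
    refine ⟨fun z hz => (hda z ?_).differentiableWithinAt, ?_⟩
    · have : ‖z‖ < 1 := by simpa using hz
      exact this.le
    · rw [closure_ball _ (by norm_num)]
      intro z hz
      exact (hda z (by simpa using hz)).continuousAt.continuousWithinAt
  have hdh : DiffContOnCl ℂ (fun z => (z - α) * (g z)⁻¹) (ball 0 1) := by
    have hi : ∀ z : ℂ, ‖z‖ ≤ 1 → DifferentiableAt ℂ (fun z => (z - α) * (g z)⁻¹) z := by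
      intro z hz
      exact DifferentiableAt.mul (by fun_prop) ((hda z hz).inv (hne z hz))
    refine ⟨fun z hz => (hi z ?_).differentiableWithinAt, ?_⟩
    · have : ‖z‖ < 1 := by simpa using hz
      exact this.le
    · rw [closure_ball _ (by norm_num)]
      intro z hz
      exact (hi z (by simpa using hz)).continuousAt.continuousWithinAt
  have hmod : ∀ z : ℂ, ‖z‖ = 1 → ‖1 - conj α * z‖ = ‖z - α‖ := by
    intro z hz
    have hzz : z * conj z = 1 := by
      rw [Complex.mul_conj, Complex.normSq_eq_norm_sq, hz]; simp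
    have h1 : 1 - conj α * z = z * conj (z - α) := by
      rw [map_sub, mul_sub, hzz]; ring
    rw [h1, norm_mul, hz, one_mul, Complex.norm_conj]
  have hg2 : ∀ z : ℂ, ‖z‖ = 1 → ‖g z‖ ^ 2 = ‖z - α‖ := by
    intro z hz
    rw [pow_two, ← norm_mul, hmul, hmod z hz]
  refine ⟨g, fun z => (z - α) * (g z)⁻¹, hd, hdh, fun z hz => ⟨?_, hg2 z hz, ?_⟩⟩
  · have := hne z hz.le
    field_simp
  · have h0 := hne z hz.le
    have h1 := hg2 z hz
    have h2 : ‖z - α‖ ≠ 0 := by
      rw [← h1]; exact pow_ne_zero _ (norm_ne_zero_iff.2 h0)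
    rw [norm_mul, norm_inv, mul_pow, inv_pow, h1]
    field_simp

lemma Qf_poly (p : Polynomial ℂ) : Qf (fun z => p.eval z) := by
  have hs := IsAlgClosed.splits p
  have hroots := hs.eq_prod_roots
  have hfun : (fun z => p.eval z) = fun z => p.leadingCoeff
      * (p.roots.map (fun a => z - a)).prod := by
    funext z
    conv_lhs => rw [hroots]
    rw [Polynomial.eval_mul, Polynomial.eval_C, Polynomial.eval_multiset_prod, Multiset.map_map]
    simp
  rw [hfun]
  have hprod : ∀ s : Multiset ℂ, Qf (fun z => (s.map (fun a => z - a)).prod) := by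
    intro s
    induction s using Multiset.induction_on with
    | empty => simpa using Qf_const 1
    | cons a s ih =>
      simp only [Multiset.map_cons, Multiset.prod_cons]
      refine Qf_mul ?_ ih
      rcases lt_or_ge ‖a‖ 1 with h | h
      · exact Qf_lin_in h
      · exact Qf_lin_out h
  exact Qf_mul (Qf_const _) (hprod _)

variable {T : ℝ} [hT : Fact (0 < T)]

/-- integral over the circle as a circle average -/
lemma haar_circle (F : ℂ → ℂ) :
    ∫ x : AddCircle T, F (fourier 1 x) ∂haarAddCircle = Real.circleAverage F 0 1 := by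
  have hTp := hT.out
  rw [integral_haarAddCircle, ← AddCircle.intervalIntegral_preimage T 0
    (fun x : AddCircle T => F (fourier 1 x)), zero_add, Real.circleAverage_def]
  have h1 : ∀ x : ℝ, F (fourier 1 (x : AddCircle T)) = F (circleMap 0 1 ((2 * Real.pi / T) * x)) := by
    intro x
    congr 1
    rw [fourier_coe_apply]
    unfold circleMap
    simp only [zero_add, Complex.ofReal_one, one_mul]
    congr 1
    push_cast
    field_simp
  simp_rw [h1]
  rw [intervalIntegral.integral_comp_mul_left (fun θ => F (circleMap 0 1 θ))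
    (by positivity : (2 * Real.pi / T) ≠ 0)]
  rw [mul_zero, div_mul_cancel₀ _ hTp.ne', smul_smul]
  congr 1
  field_simp

lemma dcl_neg {g : ℂ → ℂ} (hg : DiffContOnCl ℂ g (ball 0 1)) (m : ℕ) :
    ∫ x : AddCircle T, g (fourier 1 x) * fourier ((m + 1 : ℕ) : ℤ) x ∂haarAddCircle = 0 := by
  have h1 : ∀ x : AddCircle T, g (fourier 1 x) * fourier ((m + 1 : ℕ) : ℤ) x
      = (fun z : ℂ => g z * z ^ (m + 1)) (fourier 1 x) := by
    intro x; simp only; rw [fpow]
  simp_rw [h1]
  rw [haar_circle (fun z : ℂ => g z * z ^ (m + 1))]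
  have hd : DiffContOnCl ℂ (fun z : ℂ => g z * z ^ (m + 1)) (ball 0 |1|) := by
    rw [abs_one]
    exact dcl_mul hg (Differentiable.diffContOnCl (by fun_prop))
  rw [hd.circleAverage]
  simp

lemma dcl_cont {g : ℂ → ℂ} (hg : DiffContOnCl ℂ g (ball 0 1)) :
    Continuous fun x : AddCircle T => g (fourier 1 x) := by
  have h1 := hg.continuousOn
  rw [closure_ball _ (by norm_num)] at h1
  refine h1.comp_continuous (cont_f 1) (fun x => ?_)
  rw [mem_closedBall_zero_iff, fnorm]

/-- product integral through Fourier coefficients, in case all the terms vanish -/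
lemma ortho_prod {F H : AddCircle T → ℂ} (hF : Continuous F) (hH : Continuous H)
    (h : ∀ i : ℤ, (∫ x, F x * fourier i x ∂haarAddCircle = 0)
      ∨ (∫ x, H x * fourier (-i) x ∂haarAddCircle = 0)) :
    ∫ x, F x * H x ∂haarAddCircle = 0 := by
  set Fc : C(AddCircle T, ℂ) := ⟨fun x => conj (F x), Complex.continuous_conj.comp hF⟩ with hFc
  set Hc : C(AddCircle T, ℂ) := ⟨H, hH⟩ with hHc
  have h1 := (fourierBasis (T := T)).tsum_inner_mul_inner
    (ContinuousMap.toLp 2 haarAddCircle ℂ Fc) (ContinuousMap.toLp 2 haarAddCircle ℂ Hc)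
  rw [ContinuousMap.inner_toLp] at h1
  have e1 : ∫ x, F x * H x ∂haarAddCircle = ∫ x, Hc x * conj (Fc x) ∂haarAddCircle := by
    congr 1; funext x
    simp only [hFc, hHc, ContinuousMap.coe_mk, Complex.conj_conj]
    ring
  rw [e1, ← h1]
  have hz : ∀ i : ℤ, inner ℂ (ContinuousMap.toLp 2 haarAddCircle ℂ Fc) (fourierBasis (T := T) i)
      * inner ℂ (fourierBasis (T := T) i) (ContinuousMap.toLp 2 haarAddCircle ℂ Hc) = 0 := by
    intro i
    have e2 : (fourierBasis (T := T) i) = ContinuousMap.toLp 2 haarAddCircle ℂ (fourier i) := by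
      rw [coe_fourierBasis]
    rw [e2, ContinuousMap.inner_toLp, ContinuousMap.inner_toLp]
    rcases h i with h2 | h2
    · have : ∫ x, (fourier i : C(AddCircle T, ℂ)) x * conj (Fc x) ∂haarAddCircle = 0 := by
        rw [← h2]
        congr 1; funext x
        simp only [hFc, ContinuousMap.coe_mk, Complex.conj_conj, mul_comm]
      rw [this, zero_mul]
    · have : ∫ x, Hc x * conj ((fourier i : C(AddCircle T, ℂ)) x) ∂haarAddCircle = 0 := by
        rw [← h2]
        refine integral_congr_ae (Filter.Eventually.of_forall fun x => ?_)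
        simp only [hHc, ContinuousMap.coe_mk]
        rw [fconj]
      rw [this, mul_zero]
  simp_rw [hz]
  simp

end Pool.Agent.Q81.HR
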