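import Pool.Agent.Q81.HR.Op

/-!
# Density of analytic polynomials
-/

open MeasureTheory AddCircle Finset Filter Topology
open scoped ComplexConjugate ENNReal

namespace Pool.Agent.Q81.HR

set_option linter.unusedSectionVars false

variable {T : ℝ} [hT : Fact (0 < T)]

/-- the exponential as an element of L1 -/
noncomputable def E (T : ℝ) [Fact (0 < T)] (n : ℤ) : L1 T := fourierLp 1 n

lemma E_ae (n : ℤ) : E T n =ᵐ[haarAddCircle] fourier n := coeFn_fourierLp 1 n

lemma phi_E (n m : ℤ) : phi n (E T m) = if n = m then 1 else 0 := by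
  rw [phi_apply, congrFun (fourierCoeff_congr_ae (E_ae (T := T) m)) n, fourierCoeff_fourier]
  by_cases h : n = m
  · subst h; simp
  · rw [if_neg h, Pi.single_eq_of_ne h]

lemma tau_E (y : AddCircle T) (n : ℤ) : tau y (E T n) = (fourier (-n) y : ℂ) • E T n := by
  apply Lp.ext
  have hq : Tendsto (fun x : AddCircle T => x - y) (ae haarAddCircle) (ae haarAddCircle) :=
    (measurePreserving_sub_right haarAddCircle y).quasiMeasurePreserving.tendsto_ae
  filter_upwards [tau_ae y (E T n), hq.eventually (E_ae (T := T) n), E_ae (T := T) n,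
    Lp.coeFn_smul (fourier (-n) y : ℂ) (E T n)] with x h1 h2 h3 h4
  rw [h1, h2, h4, Pi.smul_apply, h3, sub_eq_add_neg, fsh, smul_eq_mul, mul_comm]
  congr 1
  simp [fourier_apply]

lemma conv_E (μ : Measure (AddCircle T)) [IsFiniteMeasure μ] (n : ℤ) :
    conv μ (E T n) = fs μ n • E T n := by
  rw [conv_apply]
  simp_rw [tau_E]
  rw [integral_smul_const]
  rfl

/-- convolution with a continuous kernel -/
noncomputable def ck (k : C(AddCircle T, ℂ)) : L1 T →L[ℂ] L1 T :=
  LinearMap.mkContinuous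
    { toFun := fun f => ∫ y, k y • tau y f ∂haarAddCircle
      map_add' := fun f g => by
        simp_rw [tau_add, smul_add]
        exact integral_add (cint (k.continuous.smul (tau_cont f)))
          (cint (k.continuous.smul (tau_cont g)))
      map_smul' := fun c f => by
        simp_rw [tau_smul, smul_comm _ c]
        exact integral_smul c _ } (∫ y, ‖k y‖ ∂haarAddCircle)
    (fun f => by
      simp only [LinearMap.coe_mk, AddHom.coe_mk]
      refine (norm_integral_le_integral_norm _).trans (le_of_eq ?_)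
      simp_rw [norm_smul, tau_norm]
      rw [integral_mul_const])

lemma ck_apply (k : C(AddCircle T, ℂ)) (f : L1 T) :
    ck k f = ∫ y, k y • tau y f ∂haarAddCircle := rfl

lemma ck_norm (k : C(AddCircle T, ℂ)) (f : L1 T) :
    ‖ck k f‖ ≤ (∫ y, ‖k y‖ ∂haarAddCircle) * ‖f‖ := by
  rw [ck_apply]
  refine (norm_integral_le_integral_norm _).trans (le_of_eq ?_)
  simp_rw [norm_smul, tau_norm]
  rw [integral_mul_const]

lemma ck_E (k : C(AddCircle T, ℂ)) (m : ℤ) :
    ck k (E T m) = (∫ y, k y * fourier (-m) y ∂haarAddCircle) • E T m := by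
  rw [ck_apply]
  simp_rw [tau_E, smul_smul]
  rw [integral_smul_const]

lemma ck_fourier (n : ℤ) (f : L1 T) : ck (fourier n) f = phi n f • E T n := by
  have h : ck (T := T) (fourier n) = (phi n).smulRight (E T n) := by
    apply ContinuousLinearMap.ext_on (s := Set.range (@fourierLp T _ 1 _))
    · rw [Submodule.dense_iff_topologicalClosure_eq_top]
      exact span_fourierLp_closure_eq_top ENNReal.one_ne_top
    · rintro _ ⟨m, rfl⟩
      have h1 := ck_E (T := T) (fourier n) m
      have h2 : (fourierLp (T := T) 1 m : L1 T) = E T m := rfl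
      rw [h2, h1, ContinuousLinearMap.smulRight_apply, phi_E]
      simp_rw [fadd]
      rw [intf]
      by_cases hnm : n = m
      · subst hnm; simp
      · rw [if_neg (by omega), if_neg hnm, zero_smul, zero_smul]
  rw [h]; rfl

lemma ck_add (k l : C(AddCircle T, ℂ)) (f : L1 T) : ck (k + l) f = ck k f + ck l f := by
  rw [ck_apply, ck_apply, ck_apply]
  simp_rw [ContinuousMap.add_apply, add_smul]
  exact integral_add (cint (k.continuous.smul (tau_cont f)))
    (cint (l.continuous.smul (tau_cont f)))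

lemma ck_smul (c : ℂ) (k : C(AddCircle T, ℂ)) (f : L1 T) : ck (c • k) f = c • ck k f := by
  rw [ck_apply, ck_apply, ← integral_smul]
  simp_rw [ContinuousMap.smul_apply, smul_assoc]

lemma ck_zero (f : L1 T) : ck (0 : C(AddCircle T, ℂ)) f = 0 := by
  rw [ck_apply]; simp

lemma ck_sum {ι : Type*} (s : Finset ι) (k : ι → C(AddCircle T, ℂ)) (f : L1 T) :
    ck (∑ i ∈ s, k i) f = ∑ i ∈ s, ck (k i) f := by
  classical
  induction s using Finset.induction_on with
  | empty => simp [ck_zero]
  | insert a s ha ih => rw [Finset.sum_insert ha, Finset.sum_insert ha, ck_add, ih]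

/-- the Fejer kernel -/
noncomputable def fej (T : ℝ) (D : ℕ) : C(AddCircle T, ℂ) :=
  ((D : ℂ)⁻¹) • ∑ p ∈ range D ×ˢ range D, fourier ((p.1 : ℤ) - (p.2 : ℤ))

lemma fej_eq (D : ℕ) (x : AddCircle T) :
    fej T D x = (((D : ℝ)⁻¹ * ‖∑ j ∈ range D, (fourier (j : ℤ) x : ℂ)‖ ^ 2 : ℝ) : ℂ) := by
  have h2 : ∀ z : ℂ, ((‖z‖ ^ 2 : ℝ) : ℂ) = z * conj z := by
    intro z; rw [Complex.mul_conj, Complex.normSq_eq_norm_sq]
  rw [Complex.ofReal_mul, h2, map_sum, Finset.sum_mul_sum, ← Finset.sum_product']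
  unfold fej
  rw [ContinuousMap.smul_apply, ContinuousMap.sum_apply, smul_eq_mul]
  push_cast
  congr 1
  refine Finset.sum_congr rfl fun p _ => ?_
  rw [fconj, fadd, sub_eq_add_neg]

lemma fej_coef (D : ℕ) (m : ℤ) :
    ∫ y, fej T D y * fourier (-m) y ∂haarAddCircle
      = (D : ℂ)⁻¹ * ∑ p ∈ range D ×ˢ range D, (if (p.1 : ℤ) - (p.2 : ℤ) = m then 1 else 0) := by
  have h1 : ∀ y : AddCircle T, fej T D y * fourier (-m) y
      = (D : ℂ)⁻¹ * ∑ p ∈ range D ×ˢ range D, fourier ((p.1 : ℤ) - (p.2 : ℤ) + -m) y := by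
    intro y
    unfold fej
    rw [ContinuousMap.smul_apply, ContinuousMap.sum_apply, smul_eq_mul, mul_assoc,
      Finset.sum_mul]
    congr 1
    refine Finset.sum_congr rfl fun p _ => ?_
    rw [fadd]
  simp_rw [h1]
  rw [integral_const_mul, integral_finsetSum _ (fun p _ => cint (by fun_prop))]
  congr 1
  refine Finset.sum_congr rfl fun p _ => ?_
  rw [intf]
  by_cases h : (p.1 : ℤ) - (p.2 : ℤ) = m
  · rw [if_pos h, if_pos (by omega)]
  · rw [if_neg h, if_neg (by omega)]

lemma fej_norm {D : ℕ} (hD : 1 ≤ D) : ∫ y, ‖fej T D y‖ ∂haarAddCircle = 1 := by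
  have h1 : ∀ y : AddCircle T, ‖fej T D y‖
      = (D : ℝ)⁻¹ * ‖∑ j ∈ range D, (1 : ℂ) * (fourier (j : ℤ) y : ℂ)‖ ^ 2 := by
    intro y
    rw [fej_eq, Complex.norm_real, Real.norm_eq_abs, abs_of_nonneg (by positivity)]
    simp
  simp_rw [h1]
  have h2 := plan_inj (T := T) (range D) (fun n : ℕ => (n : ℤ)) (fun a b h => by simpa using h)
    (fun _ => (1 : ℂ))
  rw [integral_const_mul, h2]
  have hD0 : (D : ℝ) ≠ 0 := by
    have : (1 : ℝ) ≤ D := by exact_mod_cast hD
    linarith
  simp [hD0]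

lemma fej_count (D : ℕ) (m : ℤ) :
    (D : ℝ) - |(m : ℝ)| ≤ ∑ p ∈ range D ×ˢ range D,
      (if (p.1 : ℤ) - (p.2 : ℤ) = m then (1 : ℝ) else 0) ∧
    ∑ p ∈ range D ×ˢ range D, (if (p.1 : ℤ) - (p.2 : ℤ) = m then (1 : ℝ) else 0) ≤ D := by
  rw [Finset.sum_product]
  have hin : ∀ j ∈ range D, ∑ l ∈ range D, (if (j : ℤ) - (l : ℤ) = m then (1 : ℝ) else 0)
      = if 0 ≤ (j : ℤ) - m ∧ (j : ℤ) - m < D then 1 else 0 := by
    intro j _
    by_cases h : 0 ≤ (j : ℤ) - m ∧ (j : ℤ) - m < D
    · rw [if_pos h, Finset.sum_eq_single ((j : ℤ) - m).toNat]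
      · rw [if_pos (by omega)]
      · intro l _ hl
        rw [if_neg (by omega)]
      · intro h2
        exact absurd (Finset.mem_range.2 (by omega)) h2
    · rw [if_neg h]
      refine Finset.sum_eq_zero fun l hl => ?_
      have := Finset.mem_range.1 hl
      rw [if_neg (by omega)]
  simp only
  rw [Finset.sum_congr rfl hin]
  constructor
  · have h1 : ∀ j ∈ range D, (1 : ℝ) - (if (j : ℤ) < m ∨ (D : ℤ) + m ≤ j then 1 else 0)
        ≤ if 0 ≤ (j : ℤ) - m ∧ (j : ℤ) - m < D then 1 else 0 := by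
      intro j hj
      by_cases h : 0 ≤ (j : ℤ) - m ∧ (j : ℤ) - m < D
      · rw [if_pos h]
        split_ifs <;> norm_num
      · rw [if_neg h, if_pos (by omega)]
        norm_num
    have h2 := Finset.sum_le_sum h1
    rw [Finset.sum_sub_distrib] at h2
    have h3 : ∑ j ∈ range D, (if (j : ℤ) < m ∨ (D : ℤ) + m ≤ j then (1 : ℝ) else 0)
        ≤ |(m : ℝ)| := by
      rw [← Finset.sum_filter, Finset.sum_const, nsmul_eq_mul, mul_one]
      have hcard : ((range D).filter (fun j : ℕ => (j : ℤ) < m ∨ (D : ℤ) + m ≤ j)).card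
          ≤ m.natAbs := by
        rcases le_or_gt 0 m with hm | hm
        · refine (Finset.card_le_card (t := range m.natAbs) ?_).trans (by simp)
          intro j hj
          rw [Finset.mem_filter, Finset.mem_range] at hj
          rw [Finset.mem_range]; omega
        · refine (Finset.card_le_card (t := Finset.Ico (D - m.natAbs) D) ?_).trans ?_
          · intro j hj
            rw [Finset.mem_filter, Finset.mem_range] at hj
            rw [Finset.mem_Ico]; omega
          · rw [Nat.card_Ico]; omega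
      have h4 : ((m.natAbs : ℕ) : ℝ) = |(m : ℝ)| := by
        rw [Nat.cast_natAbs]; push_cast; rfl
      rw [← h4]
      exact_mod_cast hcard
    simp only [Finset.sum_const, Finset.card_range, nsmul_eq_mul, mul_one] at h2
    linarith
  · refine (Finset.sum_le_sum (g := fun _ => (1 : ℝ)) (fun j _ => ?_)).trans (by simp)
    split_ifs <;> norm_num

lemma fej_tendsto_E (m : ℤ) : Tendsto (fun D : ℕ => ck (fej T D) (E T m)) atTop (𝓝 (E T m)) := by
  have h1 : ∀ D : ℕ, ck (fej T D) (E T m)
      = (((D : ℝ)⁻¹ * ∑ p ∈ range D ×ˢ range D,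
        (if (p.1 : ℤ) - (p.2 : ℤ) = m then (1 : ℝ) else 0) : ℝ) : ℂ) • E T m := by
    intro D
    rw [ck_E, fej_coef]
    congr 1
    rw [Complex.ofReal_mul, Complex.ofReal_inv, Complex.ofReal_natCast, Complex.ofReal_sum]
    congr 1
    refine Finset.sum_congr rfl fun p _ => ?_
    split_ifs <;> simp
  simp_rw [h1]
  have h2 : Tendsto (fun D : ℕ => (D : ℝ)⁻¹ * ∑ p ∈ range D ×ˢ range D,
        (if (p.1 : ℤ) - (p.2 : ℤ) = m then (1 : ℝ) else 0)) atTop (𝓝 1) := by
    refine tendsto_of_tendsto_of_tendsto_of_le_of_le' (g := fun D : ℕ => 1 - |(m : ℝ)| / D)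
      (h := fun _ => (1 : ℝ)) ?_ tendsto_const_nhds ?_ ?_
    · have := tendsto_const_div_atTop_nhds_zero_nat |(m : ℝ)|
      simpa using (tendsto_const_nhds (x := (1 : ℝ))).sub this
    · filter_upwards [eventually_ge_atTop 1] with D hD
      have hD0 : (0 : ℝ) < D := by exact_mod_cast hD
      have := (fej_count D m).1
      rw [← div_eq_inv_mul, le_div_iff₀ hD0]
      have e : (1 - |(m : ℝ)| / D) * D = D - |(m : ℝ)| := by field_simp
      rw [e]; exact this
    · filter_upwards [eventually_ge_atTop 1] with D hD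
      have hD0 : (0 : ℝ) < D := by exact_mod_cast hD
      have := (fej_count D m).2
      rw [← div_eq_inv_mul, div_le_one hD0]
      exact this
  have h3 := ((Complex.continuous_ofReal.tendsto 1).comp h2).smul_const (E T m)
  simpa using h3

lemma fej_tendsto_span {p : L1 T} (hp : p ∈ Submodule.span ℂ (Set.range (@fourierLp T _ 1 _))) :
    Tendsto (fun D : ℕ => ck (fej T D) p) atTop (𝓝 p) := by
  induction hp using Submodule.span_induction with
  | mem x hx =>
    obtain ⟨m, rfl⟩ := hx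
    exact fej_tendsto_E m
  | zero => simp
  | add x y _ _ hx hy => simpa using hx.add hy
  | smul a x _ hx => simpa using hx.const_smul a

lemma fej_tendsto (f : L1 T) : Tendsto (fun D : ℕ => ck (fej T D) f) atTop (𝓝 f) := by
  rw [Metric.tendsto_atTop]
  intro ε hε
  have hd : f ∈ (Submodule.span ℂ (Set.range (@fourierLp T _ 1 _))).topologicalClosure := by
    rw [span_fourierLp_closure_eq_top ENNReal.one_ne_top]; trivial
  rw [← SetLike.mem_coe, Submodule.topologicalClosure_coe, Metric.mem_closure_iff] at hd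
  obtain ⟨p, hp, hpd⟩ := hd (ε / 3) (by positivity)
  obtain ⟨M, hM⟩ := Metric.tendsto_atTop.1 (fej_tendsto_span (T := T) hp) (ε / 3) (by positivity)
  refine ⟨max M 1, fun D hD => ?_⟩
  have h1 := hM D ((le_max_left _ _).trans hD)
  have h2 : 1 ≤ D := (le_max_right _ _).trans hD
  rw [dist_eq_norm] at *
  have h3 : ck (fej T D) f - f = ck (fej T D) (f - p) + (ck (fej T D) p - p) + (p - f) := by
    rw [map_sub]; abel
  rw [h3]
  have h4 : ‖ck (fej T D) (f - p)‖ ≤ ‖f - p‖ := by
    refine (ck_norm _ _).trans ?_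
    rw [fej_norm h2, one_mul]
  have h5 : ‖p - f‖ = ‖f - p‖ := norm_sub_rev _ _
  calc _ ≤ ‖ck (fej T D) (f - p)‖ + ‖ck (fej T D) p - p‖ + ‖p - f‖ := norm_add₃_le
    _ < ε := by linarith

/-- elements whose coefficients below N0 vanish are limits of polynomials with frequencies
at least N0 -/
lemma mem_closure_pol (N0 : ℕ) (f : L1 T) (hf : ∀ n : ℤ, n < N0 → phi n f = 0) :
    f ∈ closure ((Submodule.span ℂ ((fun n : ℕ => E T (n : ℤ)) '' {n | N0 ≤ n}) :
      Submodule ℂ (L1 T)) : Set (L1 T)) := by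
  refine mem_closure_of_tendsto (fej_tendsto f) (Filter.Eventually.of_forall fun D => ?_)
  unfold fej
  rw [SetLike.mem_coe, ck_smul, ck_sum]
  refine Submodule.smul_mem _ _ (Submodule.sum_mem _ fun p _ => ?_)
  rw [ck_fourier]
  by_cases h : (p.1 : ℤ) - (p.2 : ℤ) < N0
  · rw [hf _ h, zero_smul]; exact Submodule.zero_mem _
  · refine Submodule.smul_mem _ _ (Submodule.subset_span ⟨((p.1 : ℤ) - (p.2 : ℤ)).toNat, ?_, ?_⟩)
    · simp only [Set.mem_ofPred_eq]; omega
    · simp only
      rw [Int.toNat_of_nonneg (by omega)]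

/-- uniqueness of Fourier coefficients in L1 -/
lemma phi_ext {f g : L1 T} (h : ∀ n : ℤ, phi n f = phi n g) : f = g := by
  have h1 := fej_tendsto (T := T) f
  have h2 := fej_tendsto (T := T) g
  have h3 : ∀ D : ℕ, ck (fej T D) f = ck (fej T D) g := by
    intro D
    unfold fej
    rw [ck_smul, ck_smul, ck_sum, ck_sum]
    simp_rw [ck_fourier, h]
  simp_rw [h3] at h1
  exact tendsto_nhds_unique h1 h2

/-- polynomials in L1 -/
noncomputable def lpol (T : ℝ) [Fact (0 < T)] (D : ℕ) (a : ℕ → ℂ) : L1 T :=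
  ∑ n ∈ range D, a n • E T (n : ℤ)

lemma lpol_norm (D : ℕ) (a : ℕ → ℂ) :
    ‖lpol T D a‖ = ∫ x : AddCircle T, ‖pol D a x‖ ∂haarAddCircle := by
  rw [L1.norm_eq_integral_norm]
  refine integral_congr_ae ?_
  have h : lpol T D a = ContinuousMap.toLp 1 haarAddCircle ℂ
      (∑ n ∈ range D, a n • fourier (n : ℤ)) := by
    rw [map_sum]
    unfold lpol
    refine Finset.sum_congr rfl fun n _ => ?_
    rw [map_smul]; rfl
  have h2 := ContinuousMap.coeFn_toLp (p := 1) (𝕜 := ℂ) (haarAddCircle (T := T))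
    (∑ n ∈ range D, a n • fourier (n : ℤ))
  rw [h]
  filter_upwards [h2] with x hx
  rw [hx]
  simp only [ContinuousMap.sum_apply, ContinuousMap.smul_apply, smul_eq_mul]
  rfl

/-- elements of the span are polynomials -/
lemma span_lpol (N0 : ℕ) {f : L1 T}
    (hf : f ∈ Submodule.span ℂ ((fun n : ℕ => E T (n : ℤ)) '' {n | N0 ≤ n})) :
    ∃ (D : ℕ) (a : ℕ → ℂ), (∀ n, n < N0 → a n = 0) ∧ f = lpol T D a := by
  rw [Finsupp.mem_span_image_iff_linearCombination] at hf
  obtain ⟨l, hl, rfl⟩ := hf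
  refine ⟨l.support.sup id + 1, l, fun n hn => ?_, ?_⟩
  · by_contra h
    have := hl (Finsupp.mem_support_iff.2 h)
    simp only [Set.mem_ofPred_eq] at this
    omega
  · rw [Finsupp.linearCombination_apply]
    unfold lpol Finsupp.sum
    refine Finset.sum_subset (fun n hn => ?_) (fun n _ hn => ?_)
    · rw [Finset.mem_range]
      have : id n ≤ l.support.sup id := Finset.le_sup (f := id) hn
      simp only [id] at this
      omega
    · simp only
      rw [Finsupp.notMem_support_iff.1 hn, zero_smul]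

end Pool.Agent.Q81.HR
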