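import Pool.Agent.Q81.HR.Fact

/-!
# The L1 bound for analytic polynomials
-/

open MeasureTheory AddCircle Finset Metric
open scoped ComplexConjugate

namespace Pool.Agent.Q81.HR

set_option linter.unusedSectionVars false

variable {T : ℝ} [hT : Fact (0 < T)]

lemma pol_eval (D : ℕ) (a : ℕ → ℂ) (x : AddCircle T) :
    pol D a x = (∑ n ∈ range D, Polynomial.C (a n) * Polynomial.X ^ n : Polynomial ℂ).eval
      (fourier 1 x : ℂ) := by
  unfold pol
  rw [Polynomial.eval_finsetSum]
  refine Finset.sum_congr rfl fun n _ => ?_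
  rw [Polynomial.eval_mul, Polynomial.eval_C, Polynomial.eval_pow, Polynomial.eval_X, fpow]

/-- factorization on the circle -/
lemma fact_pol (D : ℕ) (a : ℕ → ℂ) : ∃ g h : AddCircle T → ℂ, Continuous g ∧ Continuous h ∧
    (∀ m : ℕ, ∫ x, g x * fourier ((m + 1 : ℕ) : ℤ) x ∂haarAddCircle = 0) ∧
    (∀ m : ℕ, ∫ x, h x * fourier ((m + 1 : ℕ) : ℤ) x ∂haarAddCircle = 0) ∧
    (∀ x, g x * h x = pol D a x) ∧ (∀ x, ‖g x‖ ^ 2 = ‖pol D a x‖) ∧
    (∀ x, ‖h x‖ ^ 2 = ‖pol D a x‖) := by
  obtain ⟨g, h, hg, hh, H⟩ := Qf_poly (∑ n ∈ range D, Polynomial.C (a n) * Polynomial.X ^ n)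
  refine ⟨fun x => g (fourier 1 x), fun x => h (fourier 1 x), dcl_cont hg, dcl_cont hh,
    dcl_neg hg, dcl_neg hh, fun x => ?_, fun x => ?_, fun x => ?_⟩
  · rw [pol_eval]; exact (H _ (fnorm 1 x)).1
  · rw [pol_eval]; exact (H _ (fnorm 1 x)).2.1
  · rw [pol_eval]; exact (H _ (fnorm 1 x)).2.2

lemma pol_coef (D : ℕ) (a : ℕ → ℂ) (k : ℤ) :
    ∫ x : AddCircle T, pol D a x * fourier (-k) x ∂haarAddCircle
      = if 0 ≤ k ∧ k < D then a k.toNat else 0 := by
  have h1 : ∀ x : AddCircle T, pol D a x * fourier (-k) x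
      = ∑ n ∈ range D, a n * fourier ((n : ℤ) + -k) x := by
    intro x
    unfold pol
    rw [Finset.sum_mul]
    refine Finset.sum_congr rfl fun n _ => ?_
    rw [mul_assoc, fadd]
  simp_rw [h1]
  rw [integral_finsetSum _ (fun n _ => cint (by fun_prop))]
  simp_rw [integral_const_mul, intf]
  by_cases hk : 0 ≤ k ∧ k < D
  · rw [if_pos hk, Finset.sum_eq_single k.toNat]
    · rw [if_pos (by omega), mul_one]
    · intro n _ hn
      rw [if_neg (by omega), mul_zero]
    · intro h
      exact absurd (Finset.mem_range.2 (by omega)) h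
  · rw [if_neg hk]
    refine Finset.sum_eq_zero fun n hn => ?_
    have := Finset.mem_range.1 hn
    rw [if_neg (by omega), mul_zero]

/-- Bessel inequality -/
lemma bessel {g : AddCircle T → ℂ} (hg : Continuous g) (D : ℕ) :
    ∑ n ∈ range D, ‖∫ x, g x * fourier (-(n : ℤ)) x ∂haarAddCircle‖ ^ 2
      ≤ ∫ x, ‖g x‖ ^ 2 ∂haarAddCircle := by
  set a : ℕ → ℂ := fun n => ∫ x, g x * fourier (-(n : ℤ)) x ∂haarAddCircle with ha
  have hp := pol_cont (T := T) D a
  have h0 : 0 ≤ ∫ x, ‖g x - pol D a x‖ ^ 2 ∂haarAddCircle :=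
    integral_nonneg fun x => sq_nonneg _
  have h1 : ∀ x : AddCircle T, ‖g x - pol D a x‖ ^ 2
      = (‖g x‖ ^ 2 - 2 * (g x * conj (pol D a x)).re) + ‖pol D a x‖ ^ 2 := by
    intro x
    rw [← Complex.normSq_eq_norm_sq, ← Complex.normSq_eq_norm_sq, ← Complex.normSq_eq_norm_sq,
      Complex.normSq_sub]
    ring
  simp_rw [h1] at h0
  have c1 : Continuous fun x : AddCircle T => g x * conj (pol D a x) := by fun_prop
  rw [integral_add (cint (by fun_prop)) (cint (by fun_prop)),
    integral_sub (cint (by fun_prop)) (cint (by fun_prop)), integral_const_mul, pol_norm] at h0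
  have h2 : ∫ x, (g x * conj (pol D a x)).re ∂haarAddCircle = ∑ n ∈ range D, ‖a n‖ ^ 2 := by
    have h3 : ∫ x, (g x * conj (pol D a x)).re ∂haarAddCircle
        = (∫ x, g x * conj (pol D a x) ∂haarAddCircle).re :=
      integral_re (cint c1)
    rw [h3]
    have h4 : ∀ x : AddCircle T, g x * conj (pol D a x)
        = ∑ n ∈ range D, conj (a n) * (g x * fourier (-(n : ℤ)) x) := by
      intro x
      unfold pol
      rw [map_sum, Finset.mul_sum]
      refine Finset.sum_congr rfl fun n _ => ?_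
      rw [map_mul, fconj]; ring
    simp_rw [h4]
    rw [integral_finsetSum _ (fun n _ => cint (by fun_prop))]
    simp_rw [integral_const_mul]
    rw [Complex.re_sum]
    refine Finset.sum_congr rfl fun n _ => ?_
    have : conj (a n) * ∫ x, g x * fourier (-(n : ℤ)) x ∂haarAddCircle
        = ((‖a n‖ ^ 2 : ℝ) : ℂ) := by
      rw [← Complex.normSq_eq_norm_sq, ← Complex.mul_conj, mul_comm]
    rw [this, Complex.ofReal_re]
  rw [h2] at h0
  linarith

/-- truncating two analytic factors does not change the low coefficients of the product -/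
lemma trunc_prod {g h : AddCircle T → ℂ} (hg : Continuous g) (hh : Continuous h)
    (g0 : ∀ m : ℕ, ∫ x, g x * fourier ((m + 1 : ℕ) : ℤ) x ∂haarAddCircle = 0)
    (h0 : ∀ m : ℕ, ∫ x, h x * fourier ((m + 1 : ℕ) : ℤ) x ∂haarAddCircle = 0)
    (D : ℕ) (n : ℤ) (hn : n < D) :
    ∫ x : AddCircle T, (pol D (fun n => ∫ x, g x * fourier (-(n : ℤ)) x ∂haarAddCircle) x
      * pol D (fun n => ∫ x, h x * fourier (-(n : ℤ)) x ∂haarAddCircle) x)
        * fourier (-n) x ∂haarAddCircle
      = ∫ x : AddCircle T, (g x * h x) * fourier (-n) x ∂haarAddCircle := by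
  set a : ℕ → ℂ := fun n => ∫ x, g x * fourier (-(n : ℤ)) x ∂haarAddCircle with ha
  set a' : ℕ → ℂ := fun n => ∫ x, h x * fourier (-(n : ℤ)) x ∂haarAddCircle with ha'
  have hp := pol_cont (T := T) D a
  have hp' := pol_cont (T := T) D a'
  have gneg : ∀ k : ℤ, k < 0 → ∫ x, g x * fourier (-k) x ∂haarAddCircle = 0 := by
    intro k hk
    obtain ⟨m, hm⟩ := Int.eq_ofNat_of_zero_le (by omega : 0 ≤ -k - 1)
    have e : -k = ((m + 1 : ℕ) : ℤ) := by push_cast; omega
    rw [e]; exact g0 m
  have hneg : ∀ k : ℤ, k < 0 → ∫ x, h x * fourier (-k) x ∂haarAddCircle = 0 := by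
    intro k hk
    obtain ⟨m, hm⟩ := Int.eq_ofNat_of_zero_le (by omega : 0 ≤ -k - 1)
    have e : -k = ((m + 1 : ℕ) : ℤ) := by push_cast; omega
    rw [e]; exact h0 m
  -- coefficients of the differences
  have dg : ∀ k : ℤ, k < D → ∫ x, (g x - pol D a x) * fourier (-k) x ∂haarAddCircle = 0 := by
    intro k hk
    have : ∀ x : AddCircle T, (g x - pol D a x) * fourier (-k) x
        = g x * fourier (-k) x - pol D a x * fourier (-k) x := by intro x; ring
    simp_rw [this]
    rw [integral_sub (cint (by fun_prop)) (cint (by fun_prop)), pol_coef]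
    by_cases h1 : 0 ≤ k
    · rw [if_pos ⟨h1, hk⟩]
      simp only [ha]
      rw [Int.toNat_of_nonneg h1, sub_self]
    · rw [if_neg (by omega), gneg k (by omega), sub_zero]
  have dh : ∀ k : ℤ, k < D → ∫ x, (h x - pol D a' x) * fourier (-k) x ∂haarAddCircle = 0 := by
    intro k hk
    have : ∀ x : AddCircle T, (h x - pol D a' x) * fourier (-k) x
        = h x * fourier (-k) x - pol D a' x * fourier (-k) x := by intro x; ring
    simp_rw [this]
    rw [integral_sub (cint (by fun_prop)) (cint (by fun_prop)), pol_coef]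
    by_cases h1 : 0 ≤ k
    · rw [if_pos ⟨h1, hk⟩]
      simp only [ha']
      rw [Int.toNat_of_nonneg h1, sub_self]
    · rw [if_neg (by omega), hneg k (by omega), sub_zero]
  have z1 : ∫ x, ((g x - pol D a x) * fourier (-n) x) * h x ∂haarAddCircle = 0 := by
    refine ortho_prod (by fun_prop) hh (fun i => ?_)
    by_cases hi : i < 0
    · right; exact hneg i hi
    · left
      have : ∀ x : AddCircle T, (g x - pol D a x) * fourier (-n) x * fourier i x
          = (g x - pol D a x) * fourier (-(n - i)) x := by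
        intro x; rw [mul_assoc, fadd]; congr 3; ring
      simp_rw [this]
      exact dg _ (by omega)
  have z2 : ∫ x, ((h x - pol D a' x) * fourier (-n) x) * pol D a x ∂haarAddCircle = 0 := by
    refine ortho_prod (by fun_prop) hp (fun i => ?_)
    by_cases hi : i < 0
    · right; rw [pol_coef, if_neg (by omega)]
    · left
      have : ∀ x : AddCircle T, (h x - pol D a' x) * fourier (-n) x * fourier i x
          = (h x - pol D a' x) * fourier (-(n - i)) x := by
        intro x; rw [mul_assoc, fadd]; congr 3; ring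
      simp_rw [this]
      exact dh _ (by omega)
  have e : ∀ x : AddCircle T, (g x * h x) * fourier (-n) x
      = (pol D a x * pol D a' x) * fourier (-n) x
        + (((g x - pol D a x) * fourier (-n) x) * h x
          + ((h x - pol D a' x) * fourier (-n) x) * pol D a x) := by
    intro x; ring
  simp_rw [e]
  rw [integral_add (cint (by fun_prop)) (cint (by fun_prop)),
    integral_add (cint (by fun_prop)) (cint (by fun_prop)), z1, z2]
  simp

lemma conj_pair {ι : Type*} (s : Finset ι) (ν : ι → ℤ) (b : ι → ℂ) {F : AddCircle T → ℂ}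
    (hF : Continuous F) :
    ∫ x, F x * conj (tp s ν b x) ∂haarAddCircle
      = ∑ i ∈ s, conj (b i) * ∫ x, F x * fourier (-(ν i)) x ∂haarAddCircle := by
  have h1 : ∀ x : AddCircle T, F x * conj (tp s ν b x)
      = ∑ i ∈ s, conj (b i) * (F x * fourier (-(ν i)) x) := by
    intro x
    unfold tp
    rw [map_sum, Finset.mul_sum]
    refine Finset.sum_congr rfl fun i _ => ?_
    rw [map_mul, fconj]; ring
  simp_rw [h1]
  rw [integral_finsetSum _ (fun n _ => cint (by fun_prop))]
  simp_rw [integral_const_mul]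

/-- the bound for the pairing -/
theorem l1_pair {ι : Type*} {N : ℕ → ℕ} (hN : ∀ k, 1 ≤ N k) (hNN : ∀ k, 3 * N k ≤ N (k + 1))
    {c : ℕ → ℂ} (hc : ∀ k, ‖c k‖ ≤ 1 / 2) (s : Finset ι) (ν : ι → ℤ) (b : ι → ℂ)
    (hu : ∀ x : AddCircle T, ‖tp s ν b x‖ ≤ 1) (D0 : ℕ) (α : ℕ → ℂ)
    (m : ℕ) (w : ℕ → ℂ) {δ : ℝ} (hw : ∀ k, ‖w k‖ ≤ δ) :
    ‖∑ k ∈ range m, w k * ∫ z : AddCircle T, pol D0 α z
        * conj (bK N c s ν b k z) ∂haarAddCircle‖
      ≤ 35032 * (δ * ∫ x : AddCircle T, ‖pol D0 α x‖ ∂haarAddCircle) := by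
  obtain ⟨g, h, hg, hh, g0, h0, hgh, hg2, hh2⟩ := fact_pol (T := T) D0 α
  set D := N m with hD
  have hS1 := bessel hg D
  have hS2 := bessel hh D
  simp_rw [hg2] at hS1
  simp_rw [hh2] at hS2
  have hb := bilinear (T := T) hN hNN hc s ν b hu D _ _ hS1 hS2 m w hw
  refine le_trans (le_of_eq ?_) hb
  congr 1
  refine Finset.sum_congr rfl fun k hk => ?_
  congr 1
  have hkm : k < m := Finset.mem_range.1 hk
  have hmono : Monotone N := by
    refine monotone_nat_of_le_succ fun j => ?_
    have := hNN j; omega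
  have hDk : 3 * N k ≤ D := (hNN k).trans (hmono (by omega))
  have hp := pol_cont (T := T) D0 α
  have hpa := pol_cont (T := T) D (fun n => ∫ x, g x * fourier (-(n : ℤ)) x ∂haarAddCircle)
  have hpb := pol_cont (T := T) D (fun n => ∫ x, h x * fourier (-(n : ℤ)) x ∂haarAddCircle)
  unfold bK
  rw [conj_pair s ν _ hp, conj_pair s ν _ (F := fun z => 
    pol D (fun n => ∫ x, g x * fourier (-(n : ℤ)) x ∂haarAddCircle) z
      * pol D (fun n => ∫ x, h x * fourier (-(n : ℤ)) x ∂haarAddCircle) z) (hpa.mul hpb)]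
  refine Finset.sum_congr rfl fun i _ => ?_
  by_cases hz : (N k : ℤ) ≤ 2 * |ν i - N k|
  · rw [pc_supp hN hNN c k _ hz]; simp
  · congr 1
    have hlt : ν i < D := by
      zify at hDk
      rcases abs_cases (ν i - (N k : ℤ)) with ⟨h5, h6⟩ | ⟨h5, h6⟩ <;> omega
    have ht := trunc_prod hg hh g0 h0 D (ν i) hlt
    rw [ht]
    simp_rw [hgh]

/-- duality for the L1 norm -/
theorem dual_l1 {F : AddCircle T → ℂ} (hF : Continuous F) {B : ℝ}
    (hB : ∀ (s : Finset ℤ) (b : ℤ → ℂ), (∀ x : AddCircle T, ‖tp s id b x‖ ≤ 1) →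
      ‖∫ x, F x * conj (tp s id b x) ∂haarAddCircle‖ ≤ B) :
    ∫ x, ‖F x‖ ∂haarAddCircle ≤ B := by
  set I := ∫ x, ‖F x‖ ∂haarAddCircle with hI
  have hI0 : 0 ≤ I := integral_nonneg fun x => norm_nonneg _
  have hB0 : 0 ≤ B := (norm_nonneg _).trans (hB ∅ 0 (fun x => by simp [tp]))
  have key : ∀ ε : ℝ, 0 < ε → ε < 1 → I ≤ B + ε * (1 + B + I) := by
    intro ε h0 h1
    -- the almost extremal function
    have hden : ∀ x, ‖F x‖ + ε ≠ 0 := fun x => by have := norm_nonneg (F x); linarith
    have hdenp : ∀ x, 0 < ‖F x‖ + ε := fun x => by have := norm_nonneg (F x); linarith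
    set v : C(AddCircle T, ℂ) := ⟨fun x => F x / ((‖F x‖ + ε : ℝ) : ℂ), by
      refine Continuous.div hF (by fun_prop) (fun x => ?_)
      exact_mod_cast hden x⟩ with hv
    have hv1 : ∀ x, ‖v x‖ ≤ 1 := by
      intro x
      simp only [hv, ContinuousMap.coe_mk]
      rw [norm_div, Complex.norm_real, Real.norm_eq_abs, abs_of_pos (hdenp x),
        div_le_one (hdenp x)]
      linarith
    -- approximation
    have hdense : v ∈ (Submodule.span ℂ (Set.range (@fourier T))).topologicalClosure := by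
      rw [span_fourier_closure_eq_top]; trivial
    rw [← SetLike.mem_coe, Submodule.topologicalClosure_coe, Metric.mem_closure_iff] at hdense
    obtain ⟨q, hq, hdist⟩ := hdense ε h0
    rw [dist_eq_norm] at hdist
    have hq' : q ∈ Submodule.span ℂ (Set.range (@fourier T)) := hq
    rw [Finsupp.mem_span_range_iff_exists_finsupp] at hq'
    obtain ⟨cc, hcc⟩ := hq'
    have hqx : ∀ x, q x = tp cc.support id cc x := by
      intro x
      rw [← hcc]
      unfold Finsupp.sum tp
      simp [ContinuousMap.sum_apply]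
    have hvq : ∀ x, ‖v x - q x‖ ≤ ε := fun x =>
      ((v - q).norm_coe_le_norm x).trans hdist.le
    have hq1 : ∀ x, ‖q x‖ ≤ 1 + ε := by
      intro x
      have h2 : ‖q x‖ ≤ ‖v x‖ + ‖v x - q x‖ := by
        have := norm_sub_le (v x) (v x - q x)
        simpa using this
      have := hv1 x; have := hvq x; linarith
    -- scaled polynomial
    have hs : ∀ x : AddCircle T, tp cc.support id (fun i => cc i / ((1 + ε : ℝ) : ℂ)) x
        = q x / ((1 + ε : ℝ) : ℂ) := by
      intro x
      rw [hqx]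
      unfold tp
      rw [Finset.sum_div]
      refine Finset.sum_congr rfl fun i _ => ?_
      simp only; ring
    have h1e : (0 : ℝ) < 1 + ε := by linarith
    have hb := hB cc.support (fun i => cc i / ((1 + ε : ℝ) : ℂ)) (fun x => by
      rw [hs, norm_div, Complex.norm_real, Real.norm_eq_abs, abs_of_pos h1e, div_le_one h1e]
      exact hq1 x)
    have hbq : ‖∫ x, F x * conj (q x) ∂haarAddCircle‖ ≤ (1 + ε) * B := by
      have e : ∫ x, F x * conj (q x) ∂haarAddCircle
          = ((1 + ε : ℝ) : ℂ) * ∫ x, F x * conj (tp cc.support id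
            (fun i => cc i / ((1 + ε : ℝ) : ℂ)) x) ∂haarAddCircle := by
        rw [← integral_const_mul]
        congr 1; funext x
        rw [hs, map_div₀, Complex.conj_ofReal]
        have : ((1 + ε : ℝ) : ℂ) ≠ 0 := by exact_mod_cast h1e.ne'
        field_simp
      rw [e, norm_mul, Complex.norm_real, Real.norm_eq_abs, abs_of_pos h1e]
      exact mul_le_mul_of_nonneg_left hb h1e.le
    have hqc : Continuous fun x : AddCircle T => q x := q.continuous
    have hvc : Continuous fun x : AddCircle T => v x := v.continuous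
    -- lower bound for the pairing with v
    have hlow : I - ε ≤ ‖∫ x, F x * conj (v x) ∂haarAddCircle‖ := by
      have e : ∀ x, F x * conj (v x) = ((‖F x‖ ^ 2 / (‖F x‖ + ε) : ℝ) : ℂ) := by
        intro x
        simp only [hv, ContinuousMap.coe_mk]
        rw [map_div₀, Complex.conj_ofReal, ← mul_div_assoc, Complex.mul_conj,
          Complex.normSq_eq_norm_sq]
        push_cast; rfl
      have hcq : Continuous fun x => ‖F x‖ ^ 2 / (‖F x‖ + ε) :=
        Continuous.div (by fun_prop) (by fun_prop) hden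
      simp_rw [e]
      rw [integral_complex_ofReal, Complex.norm_real, Real.norm_eq_abs]
      refine le_trans ?_ (le_abs_self _)
      have e2 : I - ε = ∫ x, (‖F x‖ - ε) ∂(haarAddCircle (T := T)) := by
        rw [integral_sub (cint (by fun_prop)) (cint continuous_const)]
        simp [hI]
      rw [e2]
      refine integral_mono (cint (by fun_prop)) (cint hcq) (fun x => ?_)
      simp only
      rw [le_div_iff₀ (hdenp x)]
      nlinarith
    have hup : ‖∫ x, F x * conj (v x) ∂haarAddCircle‖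
        ≤ ‖∫ x, F x * conj (q x) ∂haarAddCircle‖ + ε * I := by
      have e : ∫ x, F x * conj (v x) ∂haarAddCircle
          = ∫ x, F x * conj (q x) ∂haarAddCircle
            + ∫ x, F x * conj (v x - q x) ∂haarAddCircle := by
        rw [← integral_add (cint (by fun_prop)) (cint (by fun_prop))]
        congr 1; funext x; rw [map_sub]; ring
      rw [e]
      refine (norm_add_le _ _).trans (add_le_add_right ?_ _)
      refine (norm_integral_le_integral_norm _).trans ?_
      rw [hI, ← integral_const_mul]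
      refine integral_mono (cint (by fun_prop)) (cint (by fun_prop)) (fun x => ?_)
      simp only
      rw [norm_mul, Complex.norm_conj, mul_comm]
      exact mul_le_mul_of_nonneg_right (hvq x) (norm_nonneg _)
    nlinarith
  by_contra hcon
  push Not at hcon
  have hpos : 0 < 1 + B + I := by linarith
  set ε := min (1 / 2) ((I - B) / (2 * (1 + B + I))) with hε
  have e0 : 0 < ε := lt_min (by norm_num) (by
    have : 0 < I - B := by linarith
    positivity)
  have e1 : ε < 1 := (min_le_left _ _).trans_lt (by norm_num)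
  have h2 := key ε e0 e1
  have h3 : ε * (1 + B + I) ≤ (I - B) / 2 := by
    calc ε * (1 + B + I) ≤ ((I - B) / (2 * (1 + B + I))) * (1 + B + I) :=
          mul_le_mul_of_nonneg_right (min_le_right _ _) hpos.le
      _ = (I - B) / 2 := by field_simp
  linarith

lemma pc_conj (N : ℕ → ℕ) (c : ℕ → ℂ) (K : ℕ) (m : ℤ) :
    conj (pc T N c K m) = pc T N c K (-m) := by
  unfold pc
  rw [← integral_conj]
  congr 1; funext x
  rw [map_mul, Complex.conj_ofReal, fconj]

/-- the L1 bound -/
theorem l1_bound {N : ℕ → ℕ} (hN : ∀ k, 1 ≤ N k) (hNN : ∀ k, 3 * N k ≤ N (k + 1))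
    {c : ℕ → ℂ} (hc : ∀ k, ‖c k‖ ≤ 1 / 2) (D0 : ℕ) (α : ℕ → ℂ)
    (m : ℕ) (w : ℕ → ℂ) {δ : ℝ} (hw : ∀ k, ‖w k‖ ≤ δ) :
    ∫ x : AddCircle T, ‖pol D0 (fun n => (∑ k ∈ range m, w k * pc T N c k (N k - n)) * α n) x‖
        ∂haarAddCircle
      ≤ 35032 * (δ * ∫ x : AddCircle T, ‖pol D0 α x‖ ∂haarAddCircle) := by
  refine dual_l1 (pol_cont _ _) (fun s b hu => ?_)
  have hp := pol_cont (T := T) D0 α
  have h := l1_pair (T := T) hN hNN hc s id b hu D0 α m w hw
  refine le_trans (le_of_eq ?_) h
  congr 1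
  rw [conj_pair s id b (pol_cont _ _)]
  unfold bK
  simp_rw [conj_pair s id _ hp, Finset.mul_sum]
  rw [Finset.sum_comm]
  refine Finset.sum_congr rfl fun i _ => ?_
  rw [pol_coef, pol_coef]
  by_cases hi : 0 ≤ id i ∧ id i < (D0 : ℤ)
  · rw [if_pos hi, if_pos hi, ← mul_assoc, Finset.mul_sum, Finset.sum_mul]
    refine Finset.sum_congr rfl fun k _ => ?_
    rw [map_mul, pc_conj]
    have e : -(id i - (N k : ℤ)) = (N k : ℤ) - ((id i).toNat : ℤ) := by
      rw [Int.toNat_of_nonneg hi.1]; ring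
    rw [e]; ring
  · rw [if_neg hi, if_neg hi]; simp

end Pool.Agent.Q81.HR
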