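import Pool.Agent.Q81.HR.Band

/-!
# Sums over lacunary scales
-/

open MeasureTheory AddCircle Finset
open scoped ComplexConjugate

namespace Pool.Agent.Q81.HR

set_option linter.unusedSectionVars false

variable {T : ℝ} [hT : Fact (0 < T)]

/-- bounded increasing comparison function -/
noncomputable def Gn (n N : ℕ) : ℝ := (N : ℝ) ^ 2 / ((N : ℝ) ^ 2 + (n : ℝ) ^ 2)

lemma Gn_le (n N : ℕ) : Gn n N ≤ 1 := by
  unfold Gn
  exact div_le_one_of_le₀ (by nlinarith [sq_nonneg (n : ℝ)]) (by positivity)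

lemma Gn_nonneg (n N : ℕ) : 0 ≤ Gn n N := by unfold Gn; positivity

lemma Gn_diff {n N N' : ℕ} (hn : 1 ≤ n) (hN : 1 ≤ N) (hNN : 3 * N ≤ N') :
    8 * (N : ℝ) ^ 2 * (n : ℝ) ^ 2 / ((9 * (N : ℝ) ^ 2 + (n : ℝ) ^ 2) * ((N : ℝ) ^ 2 + (n : ℝ) ^ 2))
      ≤ Gn n N' - Gn n N := by
  have hn0 : (0 : ℝ) < n := by exact_mod_cast hn
  have hN0 : (0 : ℝ) < N := by exact_mod_cast hN
  have hNN' : 3 * (N : ℝ) ≤ N' := by exact_mod_cast hNN
  have h1 : 9 * (N : ℝ) ^ 2 / (9 * (N : ℝ) ^ 2 + (n : ℝ) ^ 2) ≤ Gn n N' := by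
    unfold Gn
    have h9 : 9 * (N : ℝ) ^ 2 ≤ (N' : ℝ) ^ 2 := by nlinarith
    rw [div_le_div_iff₀ (by positivity) (by positivity)]
    nlinarith [mul_le_mul_of_nonneg_right h9 (sq_nonneg (n : ℝ))]
  have h2 : 9 * (N : ℝ) ^ 2 / (9 * (N : ℝ) ^ 2 + (n : ℝ) ^ 2) - Gn n N
      = 8 * (N : ℝ) ^ 2 * (n : ℝ) ^ 2
        / ((9 * (N : ℝ) ^ 2 + (n : ℝ) ^ 2) * ((N : ℝ) ^ 2 + (n : ℝ) ^ 2)) := by
    unfold Gn
    field_simp
    ring
  linarith

lemma lac_sum (N : ℕ → ℕ) (n m : ℕ) (f : ℕ → ℝ)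
    (hf : ∀ k, f k ≤ 20 * (Gn n (N (k + 1)) - Gn n (N k))) :
    ∑ k ∈ range m, f k ≤ 20 := by
  have h : ∑ k ∈ range m, f k ≤ 20 * (Gn n (N m) - Gn n (N 0)) := by
    refine (Finset.sum_le_sum fun k _ => hf k).trans (le_of_eq ?_)
    rw [← Finset.mul_sum, Finset.sum_range_sub (fun k => Gn n (N k))]
  have h1 := Gn_le n (N m)
  have h2 := Gn_nonneg n (N 0)
  linarith

lemma lac_a {n N N' : ℕ} (hN : 1 ≤ N) (hNN : 3 * N ≤ N') :
    ((if 4 * n < N then (1 : ℝ) else 0) - ((N : ℝ) / (N + 1)) ^ n) ^ 2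
      ≤ 20 * (Gn n N' - Gn n N) := by
  have hN0 : (0 : ℝ) < N := by exact_mod_cast hN
  have hNN' : 3 * (N : ℝ) ≤ N' := by exact_mod_cast hNN
  rcases Nat.eq_zero_or_pos n with h0 | hpos
  · subst h0
    have : 4 * 0 < N := by omega
    rw [if_pos this, pow_zero, sub_self]
    unfold Gn
    have hN'0 : (0 : ℝ) < N' := by linarith
    simp only [Nat.cast_zero, ne_eq, OfNat.ofNat_ne_zero, not_false_eq_true, zero_pow, add_zero]
    rw [div_self (by positivity), div_self (by positivity)]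
    norm_num
  have hn0 : (0 : ℝ) < n := by exact_mod_cast hpos
  have hr1 : 0 ≤ (N : ℝ) / (N + 1) := by positivity
  have hr2 : (N : ℝ) / (N + 1) ≤ 1 := by rw [div_le_one (by positivity)]; linarith
  refine le_trans ?_ (mul_le_mul_of_nonneg_left (Gn_diff hpos hN hNN) (by norm_num))
  rw [← mul_div_assoc]
  by_cases h : 4 * n < N
  · rw [if_pos h]
    have hb : 1 - ((N : ℝ) / (N + 1)) ^ n ≤ n / N := by
      have h1 := one_add_mul_le_pow (a := -(1 / ((N : ℝ) + 1))) (by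
        have : 1 / ((N : ℝ) + 1) ≤ 1 := by rw [div_le_one (by positivity)]; linarith
        linarith) n
      have h2 : (1 : ℝ) + -(1 / ((N : ℝ) + 1)) = N / (N + 1) := by field_simp; ring
      rw [h2] at h1
      have h3 : (n : ℝ) * (1 / ((N : ℝ) + 1)) ≤ n / N := by
        rw [mul_one_div]
        exact div_le_div_of_nonneg_left hn0.le hN0 (by linarith)
      linarith
    have hb0 : 0 ≤ 1 - ((N : ℝ) / (N + 1)) ^ n := by
      have := pow_le_one₀ hr1 hr2 (n := n); linarith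
    refine (pow_le_pow_left₀ hb0 hb 2).trans ?_
    rw [div_pow, div_le_div_iff₀ (by positivity) (by positivity)]
    have hh : 4 * (n : ℝ) ≤ N := by exact_mod_cast h.le
    have h5 : (n : ℝ) ^ 2 ≤ (N : ℝ) ^ 2 := by nlinarith
    have h6 : (9 * (N : ℝ) ^ 2 + (n : ℝ) ^ 2) * ((N : ℝ) ^ 2 + (n : ℝ) ^ 2)
        ≤ 160 * (N : ℝ) ^ 2 * (N : ℝ) ^ 2 := by
      nlinarith [mul_nonneg (sq_nonneg (N : ℝ)) (sub_nonneg.2 h5), sq_nonneg (N : ℝ),
        mul_nonneg (sub_nonneg.2 h5) (sub_nonneg.2 h5), mul_nonneg (sq_nonneg (n : ℝ)) (sub_nonneg.2 h5)]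
    nlinarith [mul_le_mul_of_nonneg_left h6 (sq_nonneg (n : ℝ))]
  · rw [if_neg h]
    have hh : (N : ℝ) ≤ 4 * n := by exact_mod_cast not_lt.1 h
    have hb : ((N : ℝ) / (N + 1)) ^ n ≤ N / (n + N) := by
      have h1 := one_add_mul_le_pow (a := 1 / (N : ℝ)) (by
        have : (0 : ℝ) ≤ 1 / N := by positivity
        linarith) n
      have h2 : (N : ℝ) / (N + 1) = (1 + 1 / (N : ℝ))⁻¹ := by field_simp
      rw [h2, inv_pow]
      have h3 : (N : ℝ) / (n + N) = (1 + n * (1 / (N : ℝ)))⁻¹ := by field_simp; ring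
      rw [h3]
      exact inv_anti₀ (by positivity) h1
    have e : (0 - ((N : ℝ) / (N + 1)) ^ n) ^ 2 = (((N : ℝ) / (N + 1)) ^ n) ^ 2 := by ring
    rw [e]
    refine (pow_le_pow_left₀ (by positivity) hb 2).trans ?_
    rw [div_pow, div_le_div_iff₀ (by positivity) (by positivity)]
    have h5 : (N : ℝ) ^ 2 ≤ 16 * (n : ℝ) ^ 2 := by nlinarith
    have h6 : (N : ℝ) ^ 2 + (n : ℝ) ^ 2 ≤ ((n : ℝ) + N) ^ 2 := by
      nlinarith [mul_pos hn0 hN0]
    have h7 : 9 * (N : ℝ) ^ 2 + (n : ℝ) ^ 2 ≤ 160 * (n : ℝ) ^ 2 := by nlinarith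
    have h8 : (9 * (N : ℝ) ^ 2 + (n : ℝ) ^ 2) * ((N : ℝ) ^ 2 + (n : ℝ) ^ 2)
        ≤ (160 * (n : ℝ) ^ 2) * ((n : ℝ) + N) ^ 2 :=
      mul_le_mul h7 h6 (by positivity) (by positivity)
    nlinarith [mul_le_mul_of_nonneg_left h8 (sq_nonneg (N : ℝ))]

lemma lac_b {n N N' : ℕ} (hN : 1 ≤ N) (hNN : 3 * N ≤ N') :
    (if N ≤ 4 * n ∧ n < 2 * N then (1 : ℝ) else 0) ≤ 20 * (Gn n N' - Gn n N) := by
  have hN0 : (0 : ℝ) < N := by exact_mod_cast hN
  rcases Nat.eq_zero_or_pos n with h0 | hpos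
  · subst h0
    have : ¬ (N ≤ 4 * 0 ∧ 0 < 2 * N) := by omega
    rw [if_neg this]
    unfold Gn
    have hN'0 : (0 : ℝ) < N' := by
      have : 1 ≤ N' := by omega
      exact_mod_cast this
    simp only [Nat.cast_zero, ne_eq, OfNat.ofNat_ne_zero, not_false_eq_true, zero_pow, add_zero]
    rw [div_self (by positivity), div_self (by positivity)]
    norm_num
  have hn0 : (0 : ℝ) < n := by exact_mod_cast hpos
  refine le_trans ?_ (mul_le_mul_of_nonneg_left (Gn_diff hpos hN hNN) (by norm_num))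
  rw [← mul_div_assoc]
  by_cases h : N ≤ 4 * n ∧ n < 2 * N
  · rw [if_pos h, le_div_iff₀ (by positivity)]
    have h1 : (N : ℝ) ≤ 4 * n := by exact_mod_cast h.1
    have h2 : (n : ℝ) ≤ 2 * N := by exact_mod_cast h.2.le
    have h3 : (N : ℝ) ^ 2 ≤ 16 * (n : ℝ) ^ 2 := by nlinarith
    have h4 : (n : ℝ) ^ 2 ≤ 4 * (N : ℝ) ^ 2 := by nlinarith
    nlinarith [mul_le_mul_of_nonneg_left h3 (sq_nonneg (N : ℝ)),
      mul_le_mul_of_nonneg_left h4 (sq_nonneg (n : ℝ)), mul_nonneg (sq_nonneg (N : ℝ)) (sq_nonneg (n : ℝ))]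
  · rw [if_neg h]
    positivity

lemma Vv_le {ι : Type*} (s : Finset ι) (ν : ι → ℤ) (b : ι → ℂ)
    (hu : ∀ x : AddCircle T, ‖tp s ν b x‖ ≤ 1) {q p : ℝ} (q0 : 0 ≤ q) (q1 : q < 1)
    (p0 : 0 ≤ p) (p1 : p < 1) (z : AddCircle T) : Vv s ν b q p z ≤ 1 := by
  have hw := W_cont (T := T) p0 p1
  have w0 : ∀ x : AddCircle T, 0 ≤ W p x := fun x => (W_pos p0 p1 x).le
  have uc := uk_cont (T := T) s ν b q
  have h1 : ∫ y, W p y * ‖uk s ν b q (z + y)‖ ^ 2 ∂haarAddCircle ≤ 1 := by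
    rw [← int_W_one (T := T) p0 p1]
    refine integral_mono (cint (by fun_prop)) (cint hw) (fun x => ?_)
    have h3 := (uk_le s ν b q0 q1 (z + x)).trans (Uk_le s ν b q0 q1 hu (z + x))
    have := mul_le_mul_of_nonneg_left h3 (w0 x)
    simpa using this
  unfold Vv
  have := sq_nonneg ‖uk s ν b (p * q) z‖
  linarith

/-- low frequency part -/
noncomputable def Lo (D : ℕ) (a : ℕ → ℂ) (N : ℕ) (x : AddCircle T) : ℂ :=
  pol D (fun n => if 4 * n < N then a n else 0) x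

/-- middle frequency part -/
noncomputable def Mi (D : ℕ) (a : ℕ → ℂ) (N : ℕ) (x : AddCircle T) : ℂ :=
  pol D (fun n => if N ≤ 4 * n ∧ n < 2 * N then a n else 0) x

lemma Lo_cont (D : ℕ) (a : ℕ → ℂ) (N : ℕ) : Continuous (Lo (T := T) D a N) := pol_cont _ _

lemma Mi_cont (D : ℕ) (a : ℕ → ℂ) (N : ℕ) : Continuous (Mi (T := T) D a N) := pol_cont _ _

/-- the sum of the squared norms of the middle parts -/
lemma mid_sum (N : ℕ → ℕ) (hN : ∀ k, 1 ≤ N k) (hNN : ∀ k, 3 * N k ≤ N (k + 1)) (D : ℕ)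
    (a : ℕ → ℂ) (m : ℕ) :
    ∑ k ∈ range m, ∫ x : AddCircle T, ‖Mi D a (N k) x‖ ^ 2 ∂haarAddCircle
      ≤ 20 * ∑ n ∈ range D, ‖a n‖ ^ 2 := by
  unfold Mi
  simp_rw [pol_norm]
  rw [Finset.sum_comm, Finset.mul_sum]
  refine Finset.sum_le_sum fun n _ => ?_
  have h1 : ∀ k, ‖(if N k ≤ 4 * n ∧ n < 2 * N k then a n else 0)‖ ^ 2
      = (if N k ≤ 4 * n ∧ n < 2 * N k then (1 : ℝ) else 0) * ‖a n‖ ^ 2 := by
    intro k; split_ifs <;> simp
  simp_rw [h1]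
  rw [← Finset.sum_mul]
  exact mul_le_mul_of_nonneg_right
    (lac_sum N n m _ (fun k => lac_b (hN k) (hNN k))) (sq_nonneg _)

/-- Carleson embedding for sharp low-frequency parts -/
lemma low_carl (N : ℕ → ℕ) (hN : ∀ k, 1 ≤ N k) (hNN : ∀ k, 3 * N k ≤ N (k + 1))
    {ι : Type*} (s : Finset ι) (ν : ι → ℤ) (b : ι → ℂ)
    (hu : ∀ x : AddCircle T, ‖tp s ν b x‖ ≤ 1) (D : ℕ) (a : ℕ → ℂ) (m : ℕ) :
    ∑ k ∈ range m, ∫ z : AddCircle T, ‖Lo D a (N k) z‖ ^ 2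
        * ‖tp s ν (fun i => (psi (N k) (ν i) : ℂ) * b i) z‖ ^ 2 ∂haarAddCircle
      ≤ 34992 * ∑ n ∈ range D, ‖a n‖ ^ 2 := by
  have hN0 : ∀ k, (0 : ℝ) < N k := fun k => by exact_mod_cast hN k
  have hNN' : ∀ k, 3 * (N k : ℝ) ≤ N (k + 1) := fun k => by exact_mod_cast hNN k
  set r : ℕ → ℝ := fun k => (N k : ℝ) / (N k + 1) with hr
  set p : ℕ → ℝ := fun k => r k / r (k + 1) with hp
  have r0 : ∀ k, 0 < r k := fun k => by
    have := hN0 k
    simp only [hr]; positivity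
  have r1 : ∀ k, r k < 1 := fun k => by
    have := hN0 k
    simp only [hr]; rw [div_lt_one (by positivity)]; linarith
  have p0 : ∀ k, 0 ≤ p k := fun k => (div_pos (r0 k) (r0 (k + 1))).le
  have hrlt : ∀ k, r k < r (k + 1) := fun k => by
    have h1 := hN0 k
    have h2 := hN0 (k + 1)
    have h3 := hNN' k
    simp only [hr]
    rw [div_lt_div_iff₀ (by positivity) (by positivity)]
    nlinarith
  have p1 : ∀ k, p k < 1 := fun k => (div_lt_one (r0 (k + 1))).2 (hrlt k)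
  have hrp : ∀ k, r k = p k * r (k + 1) := fun k => by
    simp only [hp]; rw [div_mul_cancel₀ _ (r0 (k + 1)).ne']
  have hcarl := carleson (T := T) s ν b hu D a r p (fun k => (r0 k).le) r1 p0 p1 hrp m
  have hband : ∀ k (z : AddCircle T), ‖tp s ν (fun i => (psi (N k) (ν i) : ℂ) * b i) z‖ ^ 2
      ≤ 729 * Vv s ν b (r (k + 1)) (p k) z := fun k z =>
    band s ν b (hN k) (hNN k) (r := r k) (q := r (k + 1)) rfl rfl (hrp k) z
  have hV1 : ∀ k (z : AddCircle T), Vv s ν b (r (k + 1)) (p k) z ≤ 1 := fun k z =>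
    Vv_le s ν b hu (r0 _).le (r1 _) (p0 k) (p1 k) z
  -- the error terms
  have herr : ∑ k ∈ range m, ∫ z : AddCircle T,
      ‖Lo D a (N k) z - pol D (fun n => (r k : ℂ) ^ n * a n) z‖ ^ 2 ∂haarAddCircle
      ≤ 20 * ∑ n ∈ range D, ‖a n‖ ^ 2 := by
    unfold Lo
    simp_rw [← pol_sub, pol_norm]
    rw [Finset.sum_comm, Finset.mul_sum]
    refine Finset.sum_le_sum fun n _ => ?_
    have h1 : ∀ k, ‖(if 4 * n < N k then a n else 0) - (r k : ℂ) ^ n * a n‖ ^ 2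
        = ((if 4 * n < N k then (1 : ℝ) else 0) - ((N k : ℝ) / (N k + 1)) ^ n) ^ 2
          * ‖a n‖ ^ 2 := by
      intro k
      have h2 : (if 4 * n < N k then a n else 0) - (r k : ℂ) ^ n * a n
          = (((if 4 * n < N k then (1 : ℝ) else 0) - ((N k : ℝ) / (N k + 1)) ^ n : ℝ) : ℂ)
            * a n := by
        simp only [hr]
        split_ifs <;> (push_cast; ring)
      rw [h2, norm_mul, mul_pow, Complex.norm_real, Real.norm_eq_abs, sq_abs]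
    simp_rw [h1]
    rw [← Finset.sum_mul]
    exact mul_le_mul_of_nonneg_right
      (lac_sum N n m _ (fun k => lac_a (hN k) (hNN k))) (sq_nonneg _)
  -- pointwise comparison
  have hk : ∀ k ∈ range m, ∫ z : AddCircle T, ‖Lo D a (N k) z‖ ^ 2
        * ‖tp s ν (fun i => (psi (N k) (ν i) : ℂ) * b i) z‖ ^ 2 ∂haarAddCircle
      ≤ 1458 * (∫ z : AddCircle T, ‖pol D (fun n => (r k : ℂ) ^ n * a n) z‖ ^ 2
        * Vv s ν b (r (k + 1)) (p k) z ∂haarAddCircle)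
        + 1458 * ∫ z : AddCircle T,
          ‖Lo D a (N k) z - pol D (fun n => (r k : ℂ) ^ n * a n) z‖ ^ 2 ∂haarAddCircle := by
    intro k _
    have c1 := Lo_cont (T := T) D a (N k)
    have c2 := pol_cont (T := T) D (fun n => (r k : ℂ) ^ n * a n)
    have c3 := tp_cont (T := T) s ν (fun i => (psi (N k) (ν i) : ℂ) * b i)
    have c4 := Vv_cont (T := T) s ν b (r := r (k + 1)) (p0 k) (p1 k)
    rw [← integral_const_mul, ← integral_const_mul,
      ← integral_add (cint (by fun_prop)) (cint (by fun_prop))]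
    refine integral_mono (cint (by fun_prop)) (cint (by fun_prop)) (fun z => ?_)
    simp only
    set L := Lo D a (N k) z
    set H := pol D (fun n => (r k : ℂ) ^ n * a n) z
    set d := ‖tp s ν (fun i => (psi (N k) (ν i) : ℂ) * b i) z‖ ^ 2 with hd
    have h1 := hband k z
    have h2 := hV1 k z
    have h3 : ‖L‖ ^ 2 ≤ 2 * ‖H‖ ^ 2 + 2 * ‖L - H‖ ^ 2 := by
      have h4 : ‖L‖ ≤ ‖H‖ + ‖L - H‖ := by
        have := norm_add_le H (L - H)
        simpa using this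
      nlinarith [norm_nonneg L, norm_nonneg H, norm_nonneg (L - H), sq_nonneg (‖H‖ - ‖L - H‖)]
    have hd0 : 0 ≤ d := sq_nonneg _
    have h5 : d ≤ 729 := by linarith
    calc ‖L‖ ^ 2 * d ≤ (2 * ‖H‖ ^ 2 + 2 * ‖L - H‖ ^ 2) * d := mul_le_mul_of_nonneg_right h3 hd0
      _ = 2 * (‖H‖ ^ 2 * d) + 2 * (‖L - H‖ ^ 2 * d) := by ring
      _ ≤ 2 * (‖H‖ ^ 2 * (729 * Vv s ν b (r (k + 1)) (p k) z)) + 2 * (‖L - H‖ ^ 2 * 729) := by
          gcongr
      _ = _ := by ring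
  refine (Finset.sum_le_sum hk).trans ?_
  rw [Finset.sum_add_distrib, ← Finset.mul_sum, ← Finset.mul_sum]
  have hS : 0 ≤ ∑ n ∈ range D, ‖a n‖ ^ 2 := Finset.sum_nonneg fun n _ => sq_nonneg _
  nlinarith

end Pool.Agent.Q81.HR
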