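import Pool.Agent.Q81.HR.L1b

/-!
# Convolution operators on L1 of the circle and the Hardy space H1
-/

open MeasureTheory AddCircle Finset Filter Topology
open scoped ComplexConjugate ENNReal

namespace Pool.Agent.Q81.HR

set_option linter.unusedSectionVars false

variable {T : ℝ} [hT : Fact (0 < T)]

instance fact_one_ne_top : Fact ((1 : ℝ≥0∞) ≠ ∞) := ⟨ENNReal.one_ne_top⟩

/-- the space L1 of the circle (normalized Haar measure) -/
noncomputable abbrev L1 (T : ℝ) [Fact (0 < T)] := Lp ℂ 1 (haarAddCircle (T := T))

/-- translation -/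
noncomputable def tau (y : AddCircle T) (f : L1 T) : L1 T := DomAddAct.mk (-y) +ᵥ f

lemma tau_ae (y : AddCircle T) (f : L1 T) : tau y f =ᵐ[haarAddCircle] fun x => f (x - y) := by
  have h := DomAddAct.vadd_Lp_ae_eq (DomAddAct.mk (-y)) f
  refine h.trans (Filter.Eventually.of_forall fun x => ?_)
  simp only [DomAddAct.mk, vadd_eq_add]
  congr 1
  rw [sub_eq_add_neg, add_comm]
  rfl

lemma tau_cont (f : L1 T) : Continuous fun y : AddCircle T => tau y f := by
  unfold tau
  have h1 : Continuous fun y : AddCircle T => (DomAddAct.mk (-y), f) :=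
    (DomAddAct.continuous_mk.comp continuous_neg).prodMk continuous_const
  exact (continuous_vadd (M := (AddCircle T)ᵈᵃᵃ) (X := L1 T)).comp h1

lemma tau_add (y : AddCircle T) (f g : L1 T) : tau y (f + g) = tau y f + tau y g :=
  DomAddAct.vadd_Lp_add _ f g

lemma tau_smul (y : AddCircle T) (c : ℂ) (f : L1 T) : tau y (c • f) = c • tau y f := by
  unfold tau
  rcases f with ⟨⟨_⟩, _⟩
  rfl

lemma tau_norm (y : AddCircle T) (f : L1 T) : ‖tau y f‖ = ‖f‖ :=
  DomAddAct.norm_vadd_Lp _ f

/-- Fourier coefficient as a continuous functional -/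
noncomputable def phi (n : ℤ) : L1 T →L[ℂ] ℂ :=
  LinearMap.mkContinuous
    { toFun := fun f => fourierCoeff f n
      map_add' := fun f g => by
        have h1 : fourierCoeff (⇑(f + g)) n = fourierCoeff (⇑f + ⇑g) n :=
          congrFun (fourierCoeff_congr_ae (Lp.coeFn_add f g)) n
        rw [h1, fourierCoeff.add (L1.integrable_coeFn f) (L1.integrable_coeFn g)]
        rfl
      map_smul' := fun c f => by
        have h1 : fourierCoeff (⇑(c • f)) n = fourierCoeff (c • ⇑f) n :=
          congrFun (fourierCoeff_congr_ae (Lp.coeFn_smul c f)) n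
        rw [h1, fourierCoeff.const_smul]
        rfl } 1
    (fun f => by
      simp only [LinearMap.coe_mk, AddHom.coe_mk]
      rw [one_mul, L1.norm_eq_integral_norm]
      unfold fourierCoeff
      refine (norm_integral_le_integral_norm _).trans (le_of_eq ?_)
      congr 1; funext x
      rw [norm_smul, fnorm, one_mul])

lemma phi_apply (n : ℤ) (f : L1 T) : phi n f = fourierCoeff f n := rfl

lemma phi_tau (n : ℤ) (y : AddCircle T) (f : L1 T) :
    phi n (tau y f) = fourier (-n) y * phi n f := by
  rw [phi_apply, phi_apply, congrFun (fourierCoeff_congr_ae (tau_ae y f)) n]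
  unfold fourierCoeff
  have h1 := tinv (T := T) (fun x : AddCircle T => fourier (-n) x • f (x - y)) y
  rw [← h1, ← integral_const_mul]
  congr 1; funext x
  rw [add_sub_cancel_right, fsh]
  simp only [smul_eq_mul]
  ring

/-- the Fourier-Stieltjes coefficients of a measure -/
noncomputable def fs (μ : Measure (AddCircle T)) (n : ℤ) : ℂ := ∫ y, fourier (-n) y ∂μ

lemma tau_int (μ : Measure (AddCircle T)) [IsFiniteMeasure μ] (f : L1 T) :
    Integrable (fun y => tau y f) μ :=
  (tau_cont f).integrable_of_hasCompactSupport (HasCompactSupport.of_compactSpace _)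

/-- convolution with a finite measure on L1 -/
noncomputable def conv (μ : Measure (AddCircle T)) [IsFiniteMeasure μ] : L1 T →L[ℂ] L1 T :=
  LinearMap.mkContinuous
    { toFun := fun f => ∫ y, tau y f ∂μ
      map_add' := fun f g => by
        simp_rw [tau_add]
        exact integral_add (tau_int μ f) (tau_int μ g)
      map_smul' := fun c f => by
        simp_rw [tau_smul]
        exact integral_smul c _ } (μ.real Set.univ)
    (fun f => by
      simp only [LinearMap.coe_mk, AddHom.coe_mk]
      refine (norm_integral_le_integral_norm _).trans (le_of_eq ?_)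
      simp_rw [tau_norm]
      simp)

lemma conv_apply (μ : Measure (AddCircle T)) [IsFiniteMeasure μ] (f : L1 T) :
    conv μ f = ∫ y, tau y f ∂μ := rfl

lemma conv_coef (μ : Measure (AddCircle T)) [IsFiniteMeasure μ] (f : L1 T) (n : ℤ) :
    phi n (conv μ f) = fs μ n * phi n f := by
  rw [conv_apply, ← ContinuousLinearMap.integral_comp_comm _ (tau_int μ f)]
  simp_rw [phi_tau]
  rw [integral_mul_const]
  rfl

/-- the Hardy space -/
def H1 (T : ℝ) [Fact (0 < T)] : Submodule ℂ (L1 T) where
  carrier := {f | ∀ n : ℤ, n < 0 → fourierCoeff f n = 0}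
  zero_mem' := fun n _ => by
    have := (phi (T := T) n).map_zero
    rwa [phi_apply] at this
  add_mem' := fun {f g} hf hg n hn => by
    have := (phi (T := T) n).map_add f g
    rw [phi_apply, phi_apply, phi_apply, hf n hn, hg n hn, add_zero] at this
    exact this
  smul_mem' := fun c f hf n hn => by
    have := (phi (T := T) n).map_smul c f
    rw [phi_apply, phi_apply, hf n hn, smul_zero] at this
    exact this

lemma H1_closed : IsClosed ((H1 T : Submodule ℂ (L1 T)) : Set (L1 T)) := by
  have : ((H1 T : Submodule ℂ (L1 T)) : Set (L1 T))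
      = ⋂ n : ℤ, ⋂ (_ : n < 0), {f | phi n f = 0} := by
    ext f; simp [H1, phi_apply]
  rw [this]
  exact isClosed_iInter fun n => isClosed_iInter fun _ =>
    isClosed_eq (phi n).continuous continuous_const

instance H1_complete : CompleteSpace (H1 T) :=
  (H1_closed (T := T)).completeSpace_coe

/-- the multiplier on H1 defined by a finite measure -/
noncomputable def convH (μ : Measure (AddCircle T)) [IsFiniteMeasure μ] : H1 T →L[ℂ] H1 T :=
  ((conv μ).comp (H1 T).subtypeL).codRestrict (H1 T) (fun f n hn => by
    have h := conv_coef μ (f : L1 T) n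
    rw [phi_apply, phi_apply, f.2 n hn, mul_zero] at h
    exact h)

lemma convH_coe (μ : Measure (AddCircle T)) [IsFiniteMeasure μ] (f : H1 T) :
    ((convH μ f : H1 T) : L1 T) = conv μ (f : L1 T) := rfl

end Pool.Agent.Q81.HR
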