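import Pool.Agent.Q81.HR.Base

/-!
# The Poisson kernel of the circle
-/

open MeasureTheory AddCircle Finset
open scoped ComplexConjugate

namespace Pool.Agent.Q81.HR

set_option linter.unusedSectionVars false

variable {T : ℝ} [hT : Fact (0 < T)]

/-- Poisson kernel -/
noncomputable def W (r : ℝ) (x : AddCircle T) : ℝ :=
  (1 - r ^ 2) / ‖1 - (r : ℂ) * fourier 1 x‖ ^ 2

lemma den_ne {r : ℝ} (h0 : 0 ≤ r) (h1 : r < 1) (x : AddCircle T) :
    (1 : ℂ) - (r : ℂ) * fourier 1 x ≠ 0 := by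
  intro h
  have h2 : (1 : ℂ) = (r : ℂ) * fourier 1 x := by linear_combination h
  have h3 := congrArg norm h2
  rw [norm_mul, fnorm, Complex.norm_real, Real.norm_eq_abs, abs_of_nonneg h0, norm_one] at h3
  linarith

lemma W_pos {r : ℝ} (h0 : 0 ≤ r) (h1 : r < 1) (x : AddCircle T) : 0 < W r x := by
  unfold W
  have := norm_pos_iff.2 (den_ne h0 h1 x)
  have h2 : 0 < 1 - r ^ 2 := by nlinarith
  positivity

lemma W_cont {r : ℝ} (h0 : 0 ≤ r) (h1 : r < 1) : Continuous (W (T := T) r) := by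
  unfold W
  refine Continuous.div continuous_const (by fun_prop) ?_
  intro x
  exact pow_ne_zero _ (norm_ne_zero_iff.2 (den_ne h0 h1 x))

lemma W_inv (r : ℝ) (x : AddCircle T) :
    (W r x)⁻¹ = ‖1 - (r : ℂ) * fourier 1 x‖ ^ 2 / (1 - r ^ 2) := by
  unfold W; rw [inv_div]

/-- one-sided geometric series -/
noncomputable def Sg (r : ℝ) (x : AddCircle T) : ℂ := (1 - (r : ℂ) * fourier 1 x)⁻¹

lemma Sg_cont {r : ℝ} (h0 : 0 ≤ r) (h1 : r < 1) : Continuous (Sg (T := T) r) := by
  unfold Sg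
  exact Continuous.inv₀ (by fun_prop) (den_ne h0 h1)

lemma fpow (k : ℕ) (x : AddCircle T) : (fourier 1 x : ℂ) ^ k = fourier (k : ℤ) x := by
  induction k with
  | zero => simp
  | succ n ih => rw [pow_succ, ih, fadd]; push_cast; rfl

lemma W_eq {r : ℝ} (h0 : 0 ≤ r) (h1 : r < 1) (x : AddCircle T) :
    ((W r x : ℝ) : ℂ) = Sg r x + conj (Sg r x) - 1 := by
  have hd := den_ne h0 h1 x
  have hd2 : conj ((1 : ℂ) - (r : ℂ) * fourier 1 x) ≠ 0 := by
    intro h; exact hd ((map_eq_zero _).1 h)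
  have hz : (fourier 1 x : ℂ) * conj (fourier 1 x : ℂ) = 1 := by
    rw [Complex.mul_conj, Complex.normSq_eq_norm_sq, fnorm]; simp
  unfold W Sg
  rw [Complex.ofReal_div, ← Complex.normSq_eq_norm_sq, ← Complex.mul_conj, map_inv₀]
  rw [map_sub, map_one, map_mul, Complex.conj_ofReal] at hd2 ⊢
  field_simp
  push_cast
  linear_combination ((r : ℂ) ^ 2) * hz

lemma int_Sg {r : ℝ} (h0 : 0 ≤ r) (h1 : r < 1) (n : ℤ) :
    ∫ x : AddCircle T, Sg r x * fourier n x ∂haarAddCircle
      = if n ≤ 0 then (r : ℂ) ^ n.natAbs else 0 := by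
  have hS : ∀ x : AddCircle T, Sg r x * fourier n x
      = ∑' k : ℕ, (r : ℂ) ^ k * fourier ((k : ℤ) + n) x := by
    intro x
    have hlt : ‖(r : ℂ) * fourier 1 x‖ < 1 := by
      rw [norm_mul, fnorm, Complex.norm_real, Real.norm_eq_abs, abs_of_nonneg h0]; linarith
    have h := (hasSum_geometric_of_norm_lt_one hlt).mul_right (fourier n x : ℂ)
    rw [show Sg r x = (1 - (r : ℂ) * fourier 1 x)⁻¹ from rfl, ← h.tsum_eq]
    refine tsum_congr fun k => ?_
    rw [mul_pow, fpow, mul_assoc, fadd]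
  simp_rw [hS]
  have hI := hasSum_integral_of_summable_integral_norm (μ := haarAddCircle (T := T))
    (F := fun (k : ℕ) (x : AddCircle T) => (r : ℂ) ^ k * fourier ((k : ℤ) + n) x)
    (fun k => cint (by fun_prop))
    (by
      have : ∀ k : ℕ, ∫ x : AddCircle T, ‖(r : ℂ) ^ k * fourier ((k : ℤ) + n) x‖ ∂haarAddCircle
          = r ^ k := by
        intro k
        have h2 : ∀ x : AddCircle T, ‖(r : ℂ) ^ k * fourier ((k : ℤ) + n) x‖ = r ^ k := by
          intro x
          rw [norm_mul, fnorm, norm_pow, Complex.norm_real, Real.norm_eq_abs, abs_of_nonneg h0,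
            mul_one]
        simp_rw [h2]; simp
      simp_rw [this]
      exact summable_geometric_of_lt_one h0 h1)
  rw [← hI.tsum_eq]
  simp_rw [integral_const_mul, intf]
  by_cases hn : n ≤ 0
  · rw [if_pos hn, tsum_eq_single n.natAbs]
    · have : ((n.natAbs : ℤ) + n = 0) := by omega
      rw [if_pos this, mul_one]
    · intro k hk
      have : ¬ ((k : ℤ) + n = 0) := by omega
      rw [if_neg this, mul_zero]
  · rw [if_neg hn]
    have : ∀ k : ℕ, (r : ℂ) ^ k * (if (k : ℤ) + n = 0 then (1 : ℂ) else 0) = 0 := by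
      intro k
      have : ¬ ((k : ℤ) + n = 0) := by omega
      rw [if_neg this, mul_zero]
    simp_rw [this]; simp

lemma int_Sg_conj {r : ℝ} (h0 : 0 ≤ r) (h1 : r < 1) (n : ℤ) :
    ∫ x : AddCircle T, conj (Sg r x) * fourier n x ∂haarAddCircle
      = if 0 ≤ n then (r : ℂ) ^ n.natAbs else 0 := by
  have h : ∀ x : AddCircle T, conj (Sg r x) * fourier n x
      = conj (Sg r x * fourier (-n) x) := by
    intro x; rw [map_mul, fconj, neg_neg]
  simp_rw [h]
  rw [integral_conj, int_Sg h0 h1]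
  by_cases hn : 0 ≤ n
  · have h2 : -n ≤ 0 := by omega
    rw [if_pos hn, if_pos h2, map_pow, Complex.conj_ofReal, Int.natAbs_neg]
  · have h2 : ¬ (-n ≤ 0) := by omega
    rw [if_neg hn, if_neg h2, map_zero]

lemma int_W {r : ℝ} (h0 : 0 ≤ r) (h1 : r < 1) (n : ℤ) :
    ∫ x : AddCircle T, ((W r x : ℝ) : ℂ) * fourier n x ∂haarAddCircle
      = (r : ℂ) ^ n.natAbs := by
  have h : ∀ x : AddCircle T, ((W r x : ℝ) : ℂ) * fourier n x
      = Sg r x * fourier n x + conj (Sg r x) * fourier n x - fourier n x := by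
    intro x; rw [W_eq h0 h1]; ring
  simp_rw [h]
  have c1 := Sg_cont (T := T) h0 h1
  have c2 : Continuous fun x : AddCircle T => conj (Sg r x) :=
    Complex.continuous_conj.comp c1
  rw [integral_sub (cint (by fun_prop)) (cint (by fun_prop)),
    integral_add (cint (by fun_prop)) (cint (by fun_prop)),
    int_Sg h0 h1, int_Sg_conj h0 h1, intf]
  rcases lt_trichotomy n 0 with hn | hn | hn
  · simp [hn.le, hn.ne, not_le.2 hn]
  · subst hn; simp
  · simp [hn.le, hn.ne', not_le.2 hn]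

lemma int_W_one {r : ℝ} (h0 : 0 ≤ r) (h1 : r < 1) :
    ∫ x : AddCircle T, W r x ∂haarAddCircle = 1 := by
  have h := int_W (T := T) h0 h1 0
  simp only [fourier_zero, mul_one, Int.natAbs_zero, pow_zero] at h
  rw [integral_complex_ofReal] at h
  exact_mod_cast h

/-- Poisson average of a complex function -/
noncomputable def A (r : ℝ) (F : AddCircle T → ℂ) (z : AddCircle T) : ℂ :=
  ∫ y, ((W r y : ℝ) : ℂ) * F (z + y) ∂haarAddCircle

/-- Poisson average of a real function -/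
noncomputable def AR (r : ℝ) (F : AddCircle T → ℝ) (z : AddCircle T) : ℝ :=
  ∫ y, W r y * F (z + y) ∂haarAddCircle

/-- trigonometric polynomial with arbitrary index set -/
noncomputable def tp {ι : Type*} (s : Finset ι) (ν : ι → ℤ) (a : ι → ℂ) (x : AddCircle T) : ℂ :=
  ∑ i ∈ s, a i * fourier (ν i) x

lemma tp_cont {ι : Type*} (s : Finset ι) (ν : ι → ℤ) (a : ι → ℂ) :
    Continuous (tp (T := T) s ν a) := by
  unfold tp; fun_prop

/-- correlation of a trigonometric polynomial with a continuous kernel -/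
lemma corr_tp {ι : Type*} (s : Finset ι) (ν : ι → ℤ) (a : ι → ℂ) {k : AddCircle T → ℂ}
    (hk : Continuous k) (z : AddCircle T) :
    ∫ y, k y * tp s ν a (z + y) ∂haarAddCircle
      = tp s ν (fun i => (∫ y, k y * fourier (ν i) y ∂haarAddCircle) * a i) z := by
  unfold tp
  simp_rw [Finset.mul_sum]
  rw [integral_finsetSum _ (fun i _ => cint (by fun_prop))]
  refine Finset.sum_congr rfl fun i _ => ?_
  have : ∀ y : AddCircle T, k y * (a i * fourier (ν i) (z + y))
      = (a i * fourier (ν i) z) * (k y * fourier (ν i) y) := by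
    intro y; rw [fsh]; ring
  simp_rw [this]
  rw [integral_const_mul]; ring

lemma A_tp {ι : Type*} (s : Finset ι) (ν : ι → ℤ) (a : ι → ℂ) {r : ℝ} (h0 : 0 ≤ r) (h1 : r < 1)
    (z : AddCircle T) :
    A r (tp s ν a) z = tp s ν (fun i => (r : ℂ) ^ (ν i).natAbs * a i) z := by
  unfold A
  rw [corr_tp s ν a (k := fun y => ((W r y : ℝ) : ℂ))
    (Complex.continuous_ofReal.comp (W_cont h0 h1))]
  simp_rw [int_W h0 h1]

lemma A_semi {ι : Type*} (s : Finset ι) (ν : ι → ℤ) (a : ι → ℂ) {r p : ℝ} (h0 : 0 ≤ r)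
    (h1 : r < 1) (p0 : 0 ≤ p) (p1 : p < 1) (z : AddCircle T) :
    A p (A r (tp s ν a)) z = A (p * r) (tp s ν a) z := by
  have h2 : A r (tp (T := T) s ν a) = tp s ν (fun i => (r : ℂ) ^ (ν i).natAbs * a i) := by
    funext x; exact A_tp s ν a h0 h1 x
  rw [h2, A_tp s ν _ p0 p1, A_tp s ν a (mul_nonneg p0 h0) (by nlinarith)]
  refine Finset.sum_congr rfl fun i _ => ?_
  push_cast
  rw [mul_pow]; ring

lemma AR_coe (r : ℝ) (F : AddCircle T → ℝ) (z : AddCircle T) :
    ((AR r F z : ℝ) : ℂ) = A r (fun x => (F x : ℂ)) z := by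
  unfold AR A
  rw [← integral_complex_ofReal]
  push_cast; rfl

/-- weighted Cauchy-Schwarz -/
lemma csw {w p q : AddCircle T → ℝ} (hw : Continuous w) (hp : Continuous p) (hq : Continuous q)
    (w0 : ∀ x, 0 ≤ w x) :
    (∫ x, w x * (p x * q x) ∂haarAddCircle) ^ 2
      ≤ (∫ x, w x * p x ^ 2 ∂haarAddCircle) * ∫ x, w x * q x ^ 2 ∂haarAddCircle := by
  have key : ∀ t : ℝ, 0 ≤ (∫ x, w x * q x ^ 2 ∂haarAddCircle) * (t * t)
      + (-(2 * ∫ x, w x * (p x * q x) ∂haarAddCircle)) * t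
      + ∫ x, w x * p x ^ 2 ∂haarAddCircle := by
    intro t
    have h : 0 ≤ ∫ x, w x * (p x - t * q x) ^ 2 ∂haarAddCircle :=
      integral_nonneg fun x => mul_nonneg (w0 x) (sq_nonneg _)
    have h2 : ∀ x, w x * (p x - t * q x) ^ 2
        = (w x * p x ^ 2 - (2 * t) * (w x * (p x * q x))) + (t * t) * (w x * q x ^ 2) := by
      intro x; ring
    simp_rw [h2] at h
    rw [integral_add (cint (by fun_prop)) (cint (by fun_prop)),
      integral_sub (cint (by fun_prop)) (cint (by fun_prop)), integral_const_mul,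
      integral_const_mul] at h
    linarith
  have := discrim_le_zero key
  unfold discrim at this
  nlinarith

end Pool.Agent.Q81.HR
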