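import Pool.Agent.Q81.HR.Lac

/-!
# Riesz products and the bilinear bound
-/

open MeasureTheory AddCircle Finset
open scoped ComplexConjugate

namespace Pool.Agent.Q81.HR

set_option linter.unusedSectionVars false

variable {T : ℝ} [hT : Fact (0 < T)]

/-- finite Riesz product -/
noncomputable def P (N : ℕ → ℕ) (c : ℕ → ℂ) (K : ℕ) (x : AddCircle T) : ℝ :=
  ∏ k ∈ range K, (1 + 2 * (c k * fourier (N k : ℤ) x).re)

lemma P_cont (N : ℕ → ℕ) (c : ℕ → ℂ) (K : ℕ) : Continuous (P (T := T) N c K) := by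
  unfold P
  refine continuous_finsetProd _ fun k _ => ?_
  exact continuous_const.add (continuous_const.mul
    (Complex.continuous_re.comp (continuous_const.mul (cont_f _))))

lemma P_nonneg (N : ℕ → ℕ) (c : ℕ → ℂ) (hc : ∀ k, ‖c k‖ ≤ 1 / 2) (K : ℕ) (x : AddCircle T) :
    0 ≤ P N c K x := by
  unfold P
  refine Finset.prod_nonneg fun k _ => ?_
  have h1 : |(c k * fourier (N k : ℤ) x).re| ≤ 1 / 2 := by
    refine (Complex.abs_re_le_norm _).trans ?_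
    rw [norm_mul, fnorm, mul_one]; exact hc k
  have := (abs_le.1 h1).1
  linarith

/-- coefficients -/
noncomputable def pc (T : ℝ) [Fact (0 < T)] (N : ℕ → ℕ) (c : ℕ → ℂ) (K : ℕ) (m : ℤ) : ℂ :=
  ∫ x : AddCircle T, ((P N c K x : ℝ) : ℂ) * fourier m x ∂haarAddCircle

lemma P_succ (N : ℕ → ℕ) (c : ℕ → ℂ) (K : ℕ) (x : AddCircle T) :
    ((P N c (K + 1) x : ℝ) : ℂ) = ((P N c K x : ℝ) : ℂ)
      + c K * (((P N c K x : ℝ) : ℂ) * fourier (N K : ℤ) x)
      + conj (c K) * (((P N c K x : ℝ) : ℂ) * fourier (-(N K : ℤ)) x) := by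
  unfold P
  rw [Finset.prod_range_succ]
  set Q : ℝ := ∏ k ∈ range K, (1 + 2 * (c k * fourier (N k : ℤ) x).re)
  have h : (((c K * fourier (N K : ℤ) x).re : ℝ) : ℂ)
      = (c K * fourier (N K : ℤ) x + conj (c K) * fourier (-(N K : ℤ)) x) / 2 := by
    rw [Complex.re_eq_add_conj, map_mul, fconj]
  push_cast
  rw [h]
  ring

lemma pc_succ (N : ℕ → ℕ) (c : ℕ → ℂ) (K : ℕ) (m : ℤ) :
    pc T N c (K + 1) m = pc T N c K m + c K * pc T N c K (m + N K)
      + conj (c K) * pc T N c K (m - N K) := by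
  unfold pc
  have hP := P_cont (T := T) N c K
  have h1 : ∀ x : AddCircle T, ((P N c (K + 1) x : ℝ) : ℂ) * fourier m x
      = ((P N c K x : ℝ) : ℂ) * fourier m x
        + c K * (((P N c K x : ℝ) : ℂ) * fourier (m + N K) x)
        + conj (c K) * (((P N c K x : ℝ) : ℂ) * fourier (m - N K) x) := by
    intro x
    rw [P_succ, sub_eq_add_neg m, ← fadd m, ← fadd m]; ring
  simp_rw [h1]
  rw [integral_add (cint (by fun_prop)) (cint (by fun_prop)),
    integral_add (cint (by fun_prop)) (cint (by fun_prop)), integral_const_mul,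
    integral_const_mul]

lemma pc_zero (N : ℕ → ℕ) (c : ℕ → ℂ) (m : ℤ) :
    pc T N c 0 m = if m = 0 then 1 else 0 := by
  unfold pc P
  simp only [Finset.range_zero, Finset.prod_empty, Complex.ofReal_one, one_mul]
  exact intf m

/-- support of the coefficients -/
lemma pc_supp {N : ℕ → ℕ} (hN : ∀ k, 1 ≤ N k) (hNN : ∀ k, 3 * N k ≤ N (k + 1)) (c : ℕ → ℂ)
    (K : ℕ) : ∀ m : ℤ, (N K : ℤ) ≤ 2 * |m| → pc T N c K m = 0 := by
  induction K with
  | zero =>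
    intro m hm
    rw [pc_zero, if_neg]
    rintro rfl
    have := hN 0
    simp at hm
    omega
  | succ K ih =>
    intro m hm
    have h3 := hNN K
    have h4 := hN K
    rw [pc_succ, ih m (by zify at h3 ⊢; omega), ih (m + N K) ?_, ih (m - N K) ?_]
    · simp
    · zify at h3 h4
      rcases abs_cases m with ⟨h1, h2⟩ | ⟨h1, h2⟩ <;>
      rcases abs_cases (m - (N K : ℤ)) with ⟨h5, h6⟩ | ⟨h5, h6⟩ <;> omega
    · zify at h3 h4
      rcases abs_cases m with ⟨h1, h2⟩ | ⟨h1, h2⟩ <;>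
      rcases abs_cases (m + (N K : ℤ)) with ⟨h5, h6⟩ | ⟨h5, h6⟩ <;> omega

/-- stability of the low coefficients -/
lemma pc_stab {N : ℕ → ℕ} (hN : ∀ k, 1 ≤ N k) (hNN : ∀ k, 3 * N k ≤ N (k + 1)) (c : ℕ → ℂ)
    {K M : ℕ} (hKM : K ≤ M) (m : ℤ) (hm : 2 * |m| ≤ (N K : ℤ)) :
    pc T N c M m = pc T N c K m := by
  have hmono : ∀ j, K ≤ j → (N K : ℤ) ≤ N j := by
    intro j hj
    induction hj with
    | refl => exact le_rfl
    | step _ ih =>
      rename_i j _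
      have := hNN j
      zify at this
      simp only [Nat.succ_eq_add_one]
      omega
  induction hKM with
  | refl => rfl
  | step hj ih =>
    rename_i j
    have h0 := hmono j hj
    simp only [Nat.succ_eq_add_one]
    rw [pc_succ, ih, pc_supp hN hNN c j (m + N j), pc_supp hN hNN c j (m - N j)]
    · simp
    · rcases abs_cases m with ⟨h1, h2⟩ | ⟨h1, h2⟩ <;>
      rcases abs_cases (m - (N j : ℤ)) with ⟨h5, h6⟩ | ⟨h5, h6⟩ <;> omega
    · rcases abs_cases m with ⟨h1, h2⟩ | ⟨h1, h2⟩ <;>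
      rcases abs_cases (m + (N j : ℤ)) with ⟨h5, h6⟩ | ⟨h5, h6⟩ <;> omega

lemma pc_one {N : ℕ → ℕ} (hN : ∀ k, 1 ≤ N k) (hNN : ∀ k, 3 * N k ≤ N (k + 1)) (c : ℕ → ℂ)
    (K : ℕ) : pc T N c K 0 = 1 := by
  rw [pc_stab hN hNN c (Nat.zero_le K) 0 (by simp), pc_zero, if_pos rfl]

lemma P_int {N : ℕ → ℕ} (hN : ∀ k, 1 ≤ N k) (hNN : ∀ k, 3 * N k ≤ N (k + 1)) (c : ℕ → ℂ)
    (K : ℕ) : ∫ x : AddCircle T, P N c K x ∂haarAddCircle = 1 := by
  have h := pc_one (T := T) hN hNN c K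
  unfold pc at h
  simp only [fourier_zero, mul_one] at h
  rw [integral_complex_ofReal] at h
  exact_mod_cast h

/-- the dual pieces -/
noncomputable def bK {ι : Type*} (N : ℕ → ℕ) (c : ℕ → ℂ) (s : Finset ι) (ν : ι → ℤ) (b : ι → ℂ)
    (K : ℕ) (z : AddCircle T) : ℂ :=
  tp s ν (fun i => pc T N c K (ν i - N K) * b i) z

lemma bK_cont {ι : Type*} (N : ℕ → ℕ) (c : ℕ → ℂ) (s : Finset ι) (ν : ι → ℤ) (b : ι → ℂ)
    (K : ℕ) : Continuous (bK (T := T) N c s ν b K) := tp_cont _ _ _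

lemma bK_eq {ι : Type*} (N : ℕ → ℕ) (c : ℕ → ℂ) (s : Finset ι) (ν : ι → ℤ) (b : ι → ℂ)
    (K : ℕ) (z : AddCircle T) :
    bK N c s ν b K z = ∫ y, (((P N c K y : ℝ) : ℂ) * fourier (-(N K : ℤ)) y) * tp s ν b (z + y)
      ∂haarAddCircle := by
  have hP := P_cont (T := T) N c K
  rw [corr_tp s ν b (k := fun y => ((P N c K y : ℝ) : ℂ) * fourier (-(N K : ℤ)) y)
    (by fun_prop) z]
  unfold bK
  refine Finset.sum_congr rfl fun i _ => ?_
  simp only
  congr 2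
  unfold pc
  congr 1; funext y
  rw [mul_assoc, fadd]
  congr 3; ring

lemma bK_psi {ι : Type*} {N : ℕ → ℕ} (hN : ∀ k, 1 ≤ N k) (hNN : ∀ k, 3 * N k ≤ N (k + 1))
    (c : ℕ → ℂ) (s : Finset ι) (ν : ι → ℤ) (b : ι → ℂ) (K : ℕ) (z : AddCircle T) :
    bK N c s ν b K z = bK N c s ν (fun i => (psi (N K) (ν i) : ℂ) * b i) K z := by
  unfold bK
  refine Finset.sum_congr rfl fun i _ => ?_
  simp only
  by_cases h : (N K : ℤ) ≤ 2 * |ν i - N K|
  · rw [pc_supp hN hNN c K _ h]; simp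
  · have h2 : psi (N K) (ν i) = 1 := by
      apply psi_mid (hN K)
      · rcases abs_cases (ν i - (N K : ℤ)) with ⟨h5, h6⟩ | ⟨h5, h6⟩ <;> omega
      · rcases abs_cases (ν i - (N K : ℤ)) with ⟨h5, h6⟩ | ⟨h5, h6⟩ <;> omega
    rw [h2]; simp

lemma bK_le {ι : Type*} {N : ℕ → ℕ} (_hN : ∀ k, 1 ≤ N k) (_hNN : ∀ k, 3 * N k ≤ N (k + 1))
    {c : ℕ → ℂ} (hc : ∀ k, ‖c k‖ ≤ 1 / 2) (s : Finset ι) (ν : ι → ℤ) (b : ι → ℂ) (K : ℕ)
    (z : AddCircle T) :
    ‖bK N c s ν b K z‖ ≤ ∫ y, P N c K y * ‖tp s ν b (z + y)‖ ∂haarAddCircle := by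
  rw [bK_eq]
  refine (norm_integral_le_integral_norm _).trans (le_of_eq ?_)
  congr 1; funext y
  rw [norm_mul, norm_mul, fnorm, mul_one, Complex.norm_real, Real.norm_eq_abs,
    abs_of_nonneg (P_nonneg N c hc K y)]

lemma bK_le_one {ι : Type*} {N : ℕ → ℕ} (hN : ∀ k, 1 ≤ N k) (hNN : ∀ k, 3 * N k ≤ N (k + 1))
    {c : ℕ → ℂ} (hc : ∀ k, ‖c k‖ ≤ 1 / 2) (s : Finset ι) (ν : ι → ℤ) (b : ι → ℂ)
    (hu : ∀ x : AddCircle T, ‖tp s ν b x‖ ≤ 1) (K : ℕ) (z : AddCircle T) :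
    ‖bK N c s ν b K z‖ ≤ 1 := by
  refine (bK_le hN hNN hc s ν b K z).trans ?_
  rw [← P_int (T := T) hN hNN c K]
  have hP := P_cont (T := T) N c K
  have ht := tp_cont (T := T) s ν b
  refine integral_mono (cint (by fun_prop)) (cint hP) (fun y => ?_)
  have := mul_le_mul_of_nonneg_left (hu (z + y)) (P_nonneg N c hc K y)
  simpa using this

lemma bK_sq {ι : Type*} {N : ℕ → ℕ} (hN : ∀ k, 1 ≤ N k) (hNN : ∀ k, 3 * N k ≤ N (k + 1))
    {c : ℕ → ℂ} (hc : ∀ k, ‖c k‖ ≤ 1 / 2) (s : Finset ι) (ν : ι → ℤ) (b : ι → ℂ)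
    (K : ℕ) (z : AddCircle T) :
    ‖bK N c s ν b K z‖ ^ 2
      ≤ ∫ y, P N c K y * ‖tp s ν (fun i => (psi (N K) (ν i) : ℂ) * b i) (z + y)‖ ^ 2
        ∂haarAddCircle := by
  rw [bK_psi hN hNN]
  have h1 := bK_le (T := T) hN hNN hc s ν (fun i => (psi (N K) (ν i) : ℂ) * b i) K z
  have ht := tp_cont (T := T) s ν (fun i => (psi (N K) (ν i) : ℂ) * b i)
  have cs := csw (P_cont (T := T) N c K)
    (p := fun y => ‖tp s ν (fun i => (psi (N K) (ν i) : ℂ) * b i) (z + y)‖)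
    (q := fun _ => (1 : ℝ)) (by fun_prop) continuous_const (P_nonneg N c hc K)
  simp only [mul_one, one_pow] at cs
  rw [P_int hN hNN, mul_one] at cs
  exact (pow_le_pow_left₀ (norm_nonneg _) h1 2).trans cs

/-- exchanging the Riesz product of order K with the one of order M against low frequencies -/
lemma low_swap {N : ℕ → ℕ} (hN : ∀ k, 1 ≤ N k) (hNN : ∀ k, 3 * N k ≤ N (k + 1))
    (c : ℕ → ℂ) (D : ℕ) (a : ℕ → ℂ) {K M : ℕ} (hKM : K ≤ M) (z : AddCircle T) :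
    ∫ y, P N c K y * ‖Lo D a (N K) (z - y)‖ ^ 2 ∂haarAddCircle
      = ∫ y, P N c M y * ‖Lo D a (N K) (z - y)‖ ^ 2 ∂haarAddCircle := by
  have key : ∀ j, ((∫ y, P N c j y * ‖Lo D a (N K) (z - y)‖ ^ 2 ∂haarAddCircle : ℝ) : ℂ)
      = ∑ p ∈ range D ×ˢ range D,
        ((if 4 * p.1 < N K then a p.1 else 0) * conj (if 4 * p.2 < N K then a p.2 else 0)
          * fourier ((p.1 : ℤ) + -(p.2 : ℤ)) z) * pc T N c j (-((p.1 : ℤ) + -(p.2 : ℤ))) := by
    intro j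
    have hP := P_cont (T := T) N c j
    rw [← integral_complex_ofReal]
    have h1 : ∀ y : AddCircle T, ((P N c j y * ‖Lo D a (N K) (z - y)‖ ^ 2 : ℝ) : ℂ)
        = ∑ p ∈ range D ×ˢ range D,
        ((if 4 * p.1 < N K then a p.1 else 0) * conj (if 4 * p.2 < N K then a p.2 else 0)
          * fourier ((p.1 : ℤ) + -(p.2 : ℤ)) z)
            * (((P N c j y : ℝ) : ℂ) * fourier (-((p.1 : ℤ) + -(p.2 : ℤ))) y) := by
      intro y
      have h2 := sq_tp (T := T) (range D) (fun n : ℕ => (n : ℤ))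
        (fun n => if 4 * n < N K then a n else 0) (z - y)
      have h3 : ((‖Lo D a (N K) (z - y)‖ ^ 2 : ℝ) : ℂ)
          = tp (range D ×ˢ range D) (fun p => (p.1 : ℤ) + -(p.2 : ℤ))
            (fun p => (if 4 * p.1 < N K then a p.1 else 0)
              * conj (if 4 * p.2 < N K then a p.2 else 0)) (z - y) := h2
      rw [Complex.ofReal_mul, h3]
      unfold tp
      rw [Finset.mul_sum]
      refine Finset.sum_congr rfl fun p _ => ?_
      have h4 : ∀ n : ℤ, (fourier n (z - y) : ℂ) = fourier n z * fourier (-n) y := by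
        intro n
        rw [sub_eq_add_neg, fsh]
        congr 1
        simp [fourier_apply]
      rw [h4]; ring
    simp_rw [h1]
    rw [integral_finsetSum _ (fun p _ => cint (by fun_prop))]
    refine Finset.sum_congr rfl fun p _ => ?_
    rw [integral_const_mul]
    rfl
  have h : ((∫ y, P N c K y * ‖Lo D a (N K) (z - y)‖ ^ 2 ∂haarAddCircle : ℝ) : ℂ)
      = ((∫ y, P N c M y * ‖Lo D a (N K) (z - y)‖ ^ 2 ∂haarAddCircle : ℝ) : ℂ) := by
    rw [key, key]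
    refine Finset.sum_congr rfl fun p _ => ?_
    by_cases h1 : 4 * p.1 < N K
    · by_cases h2 : 4 * p.2 < N K
      · rw [pc_stab hN hNN c hKM]
        zify at h1 h2
        rw [abs_neg]
        rcases abs_cases ((p.1 : ℤ) + -(p.2 : ℤ)) with ⟨h5, h6⟩ | ⟨h5, h6⟩ <;> omega
      · rw [if_neg h2]; simp
    · rw [if_neg h1]; simp
  exact_mod_cast h

end Pool.Agent.Q81.HR
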