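import Pool.Agent.Q81.HR.Fej
import Pool.Agent.Q81.HR.Abs

/-!
# The spectrum of a Riesz product multiplier on H1
-/

open MeasureTheory AddCircle Finset Filter Topology
open scoped ComplexConjugate ENNReal

namespace Pool.Agent.Q81.HR

set_option linter.unusedSectionVars false

variable {T : ℝ} [hT : Fact (0 < T)]

lemma pc_pow {N : ℕ → ℕ} (hN : ∀ k, 1 ≤ N k) (hNN : ∀ k, 3 * N k ≤ N (k + 1)) (c : ℕ → ℂ)
    {j : ℕ} (hj : j ≠ 0) (K : ℕ) : ∀ m : ℤ,
    pc T N (fun k => c k ^ j) K m = (pc T N c K m) ^ j := by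
  induction K with
  | zero =>
    intro m
    rw [pc_zero, pc_zero]
    split_ifs
    · rw [one_pow]
    · rw [zero_pow hj]
  | succ K ih =>
    intro m
    have h4 := hN K
    rw [pc_succ, pc_succ, ih, ih, ih, map_pow]
    by_cases h1 : (N K : ℤ) ≤ 2 * |m|
    · rw [pc_supp hN hNN c K m h1]
      by_cases h2 : (N K : ℤ) ≤ 2 * |m + N K|
      · rw [pc_supp hN hNN c K _ h2]
        simp only [zero_pow hj, mul_zero, zero_add]
        rw [mul_pow]
      · have h3 : (N K : ℤ) ≤ 2 * |m - N K| := by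
          zify at h4
          rcases abs_cases m with ⟨h1, h2⟩ | ⟨h1, h2⟩ <;>
          rcases abs_cases (m + (N K : ℤ)) with ⟨h5, h6⟩ | ⟨h5, h6⟩ <;>
          rcases abs_cases (m - (N K : ℤ)) with ⟨h7, h8⟩ | ⟨h7, h8⟩ <;> omega
        rw [pc_supp hN hNN c K _ h3]
        simp only [zero_pow hj, mul_zero, zero_add, add_zero]
        rw [mul_pow]
    · have h2 : (N K : ℤ) ≤ 2 * |m + N K| := by
        zify at h4
        rcases abs_cases m with ⟨h1, h2⟩ | ⟨h1, h2⟩ <;>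
        rcases abs_cases (m + (N K : ℤ)) with ⟨h5, h6⟩ | ⟨h5, h6⟩ <;> omega
      have h3 : (N K : ℤ) ≤ 2 * |m - N K| := by
        zify at h4
        rcases abs_cases m with ⟨h1, h2⟩ | ⟨h1, h2⟩ <;>
        rcases abs_cases (m - (N K : ℤ)) with ⟨h7, h8⟩ | ⟨h7, h8⟩ <;> omega
      rw [pc_supp hN hNN c K _ h2, pc_supp hN hNN c K _ h3]
      simp only [zero_pow hj, mul_zero, add_zero]

lemma pc_block {N : ℕ → ℕ} (hN : ∀ k, 1 ≤ N k) (hNN : ∀ k, 3 * N k ≤ N (k + 1)) (c : ℕ → ℂ)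
    {n : ℤ} (hn : 0 < n) (M : ℕ) :
    pc T N c M (-n) = ∑ k ∈ range M, c k * pc T N c k (N k - n) := by
  induction M with
  | zero => rw [pc_zero, if_neg (by omega), Finset.range_zero, Finset.sum_empty]
  | succ M ih =>
    have h4 := hN M
    rw [pc_succ, Finset.sum_range_succ, ih, pc_supp hN hNN c M (-n - N M), mul_zero, add_zero]
    · congr 3; ring
    · zify at h4
      rcases abs_cases (-n - (N M : ℤ)) with ⟨h7, h8⟩ | ⟨h7, h8⟩ <;> omega

/-- the measure is the weak star limit of the Riesz products -/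
def RieszLim (N : ℕ → ℕ) (c : ℕ → ℂ) (μ : Measure (AddCircle T)) : Prop :=
  ∀ φ : C(AddCircle T, ℂ), Tendsto (fun K : ℕ => ∫ x, φ x * ((P N c K x : ℝ) : ℂ) ∂haarAddCircle)
    atTop (𝓝 (∫ x, φ x ∂μ))

lemma fs_eq {N : ℕ → ℕ} (hN : ∀ k, 1 ≤ N k) (hNN : ∀ k, 3 * N k ≤ N (k + 1)) {c : ℕ → ℂ}
    {μ : Measure (AddCircle T)} (hμ : RieszLim N c μ) {n : ℤ} {M : ℕ} (hM : 2 * |n| ≤ (N M : ℤ)) :
    fs μ n = pc T N c M (-n) := by
  have h1 := hμ (fourier (-n))
  have h2 : ∀ K : ℕ, ∫ x, (fourier (-n) : C(AddCircle T, ℂ)) x * ((P N c K x : ℝ) : ℂ)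
      ∂haarAddCircle = pc T N c K (-n) := by
    intro K
    unfold pc
    congr 1; funext x; rw [mul_comm]
  simp_rw [h2] at h1
  have h3 : Tendsto (fun K : ℕ => pc T N c K (-n)) atTop (𝓝 (pc T N c M (-n))) := by
    refine tendsto_const_nhds.congr' ?_
    filter_upwards [eventually_ge_atTop M] with K hK
    rw [pc_stab hN hNN c hK (-n) (by rwa [abs_neg])]
  exact tendsto_nhds_unique h1 h3

lemma N_ge {N : ℕ → ℕ} (hN : ∀ k, 1 ≤ N k) (hNN : ∀ k, 3 * N k ≤ N (k + 1)) (k : ℕ) :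
    k + 1 ≤ N k := by
  induction k with
  | zero => exact hN 0
  | succ k ih => have := hNN k; omega

lemma N_mono {N : ℕ → ℕ} (hNN : ∀ k, 3 * N k ≤ N (k + 1)) : Monotone N :=
  monotone_nat_of_le_succ fun j => by have := hNN j; omega

/-- tail estimate on polynomials -/
lemma tail_pol {N : ℕ → ℕ} (hN : ∀ k, 1 ≤ N k) (hNN : ∀ k, 3 * N k ≤ N (k + 1)) {c : ℕ → ℂ}
    (hc : ∀ k, ‖c k‖ ≤ 1 / 2) {μ : Measure (AddCircle T)} (hμ : RieszLim N c μ)
    {K0 : ℕ} {ε : ℝ} (hε : ∀ k, K0 ≤ k → ‖c k‖ ≤ ε) {j : ℕ} (hj : j ≠ 0)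
    (D : ℕ) (α : ℕ → ℂ) (hα : ∀ n, n < 2 * N K0 → α n = 0) :
    ‖lpol T D (fun n => (fs μ n) ^ j * α n)‖ ≤ 35032 * (ε ^ j * ‖lpol T D α‖) := by
  have hε0 : 0 ≤ ε := (norm_nonneg _).trans (hε K0 le_rfl)
  set M := 2 * D with hM
  set w : ℕ → ℂ := fun k => if k < K0 then 0 else c k ^ j with hw
  have hwε : ∀ k, ‖w k‖ ≤ ε ^ j := by
    intro k
    simp only [hw]
    split_ifs with h
    · rw [norm_zero]; positivity
    · rw [norm_pow]; exact pow_le_pow_left₀ (norm_nonneg _) (hε k (not_lt.1 h)) j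
  have hcj : ∀ k, ‖c k ^ j‖ ≤ 1 / 2 := by
    intro k
    rw [norm_pow]
    obtain ⟨i, rfl⟩ := Nat.exists_eq_succ_of_ne_zero hj
    rw [pow_succ]
    have h1 : ‖c k‖ ^ i ≤ 1 := pow_le_one₀ (norm_nonneg _) ((hc k).trans (by norm_num))
    calc ‖c k‖ ^ i * ‖c k‖ ≤ 1 * ‖c k‖ := mul_le_mul_of_nonneg_right h1 (norm_nonneg _)
      _ ≤ 1 / 2 := by rw [one_mul]; exact hc k
  have h := l1_bound (T := T) hN hNN hcj D α M w hwε
  rw [← lpol_norm, ← lpol_norm] at h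
  refine le_trans (le_of_eq ?_) h
  congr 1
  unfold lpol
  refine Finset.sum_congr rfl fun n hn => ?_
  have hnD := Finset.mem_range.1 hn
  suffices hcoe : (fs μ n) ^ j * α n
      = (∑ k ∈ range M, w k * pc T N (fun k => c k ^ j) k (N k - n)) * α n by
    simp only
    rw [hcoe]
  by_cases h0 : n < 2 * N K0
  · rw [hα n h0]; simp
  · congr 1
    have hNM : 2 * |(n : ℤ)| ≤ (N M : ℤ) := by
      have := N_ge hN hNN M
      rw [abs_of_nonneg (by omega)]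
      zify at this
      omega
    have hn1 : 0 < (n : ℤ) := by
      have := hN K0; omega
    rw [fs_eq hN hNN hμ hNM, ← pc_pow hN hNN c hj, pc_block hN hNN _ hn1]
    refine Finset.sum_congr rfl fun k _ => ?_
    simp only [hw]
    split_ifs with hk
    · rw [zero_mul, pc_supp hN hNN, mul_zero]
      have h1 : N k ≤ N K0 := N_mono hNN hk.le
      rcases abs_cases ((N k : ℤ) - (n : ℤ)) with ⟨h7, h8⟩ | ⟨h7, h8⟩ <;> omega
    · rfl

lemma conv_pow_lpol (μ : Measure (AddCircle T)) [IsFiniteMeasure μ] (j : ℕ) (D : ℕ) (α : ℕ → ℂ) :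
    ((conv μ) ^ j) (lpol T D α) = lpol T D (fun n => (fs μ n) ^ j * α n) := by
  induction j with
  | zero => simp
  | succ j ih =>
    rw [pow_succ', mul_apply_eq_comp, ih]
    unfold lpol
    rw [map_sum]
    refine Finset.sum_congr rfl fun n _ => ?_
    rw [map_smul, conv_E, smul_smul]
    congr 1
    ring

/-- tail estimate -/
lemma tail_L1 {N : ℕ → ℕ} (hN : ∀ k, 1 ≤ N k) (hNN : ∀ k, 3 * N k ≤ N (k + 1)) {c : ℕ → ℂ}
    (hc : ∀ k, ‖c k‖ ≤ 1 / 2) {μ : Measure (AddCircle T)} [IsFiniteMeasure μ]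
    (hμ : RieszLim N c μ)
    {K0 : ℕ} {ε : ℝ} (hε : ∀ k, K0 ≤ k → ‖c k‖ ≤ ε) {j : ℕ} (hj : j ≠ 0)
    (f : L1 T) (hf : ∀ n : ℤ, n < (2 * N K0 : ℕ) → phi n f = 0) :
    ‖((conv μ) ^ j) f‖ ≤ 35032 * (ε ^ j * ‖f‖) := by
  have hmem := mem_closure_pol (T := T) (2 * N K0) f hf
  have hclosed : IsClosed {g : L1 T | ‖((conv μ) ^ j) g‖ ≤ 35032 * (ε ^ j * ‖g‖)} :=
    isClosed_le (by fun_prop) (by fun_prop)
  refine closure_minimal ?_ hclosed hmem
  intro g hg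
  obtain ⟨D, α, hα, rfl⟩ := span_lpol (2 * N K0) hg
  simp only [Set.mem_ofPred_eq]
  rw [conv_pow_lpol]
  exact tail_pol hN hNN hc hμ hε hj D α hα

/-- the exponentials in H1 -/
noncomputable def EH (T : ℝ) [Fact (0 < T)] (n : ℕ) : H1 T :=
  ⟨E T (n : ℤ), fun m hm => by
    have := phi_E (T := T) m (n : ℤ)
    rw [if_neg (by omega), phi_apply] at this
    exact this⟩

noncomputable def phiH (n : ℤ) : H1 T →L[ℂ] ℂ := (phi n).comp (H1 T).subtypeL

lemma phiH_apply (n : ℤ) (f : H1 T) : phiH n f = phi n (f : L1 T) := rfl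

lemma phiH_EH (n m : ℕ) : phiH (n : ℤ) (EH T m) = if n = m then 1 else 0 := by
  rw [phiH_apply]
  have := phi_E (T := T) (n : ℤ) (m : ℤ)
  rw [show ((EH T m : H1 T) : L1 T) = E T (m : ℤ) from rfl, this]
  by_cases h : n = m
  · subst h; simp
  · rw [if_neg (by omega), if_neg h]

lemma EH_ne (n : ℕ) : EH T n ≠ 0 := by
  intro h
  have h1 := phiH_EH (T := T) n n
  rw [h, map_zero, if_pos rfl] at h1
  exact zero_ne_one h1

lemma phiH_convH (μ : Measure (AddCircle T)) [IsFiniteMeasure μ] (f : H1 T) (n : ℤ) :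
    phiH n (convH μ f) = fs μ n * phiH n f := by
  rw [phiH_apply, phiH_apply, convH_coe, conv_coef]

lemma convH_EH (μ : Measure (AddCircle T)) [IsFiniteMeasure μ] (n : ℕ) :
    convH μ (EH T n) = fs μ n • EH T n := by
  apply Subtype.ext
  rw [convH_coe]
  exact conv_E μ (n : ℤ)

lemma convH_pow_coe (μ : Measure (AddCircle T)) [IsFiniteMeasure μ] (j : ℕ) (f : H1 T) :
    ((((convH μ) ^ j) f : H1 T) : L1 T) = ((conv μ) ^ j) (f : L1 T) := by
  induction j with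
  | zero => rfl
  | succ j ih =>
    rw [pow_succ', pow_succ', mul_apply_eq_comp, mul_apply_eq_comp, convH_coe, ih]

/-- the spectrum is natural -/
theorem natural {N : ℕ → ℕ} (hN : ∀ k, 1 ≤ N k) (hNN : ∀ k, 3 * N k ≤ N (k + 1)) {c : ℕ → ℂ}
    (hc : ∀ k, ‖c k‖ ≤ 1 / 2) {μ : Measure (AddCircle T)} [IsFiniteMeasure μ]
    (hμ : RieszLim N c μ) (h0 : Tendsto (fun n : ℤ => fs μ n) cofinite (𝓝 0)) :
    spectrum ℂ (convH μ) = closure (Set.range fun n : ℕ => fs μ n) := by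
  have hnat : Tendsto (fun n : ℕ => fs μ (n : ℤ)) atTop (𝓝 0) := by
    rw [← Nat.cofinite_eq_atTop]
    exact h0.comp (Nat.cast_injective (R := ℤ)).tendsto_cofinite
  -- the coefficients tend to zero
  have hck : ∀ k, fs μ (N k) = c k := by
    intro k
    have h1 := N_ge hN hNN k
    have h2 := hNN k
    rw [fs_eq hN hNN hμ (M := k + 1) (by rw [abs_of_nonneg (by omega)]; omega), pc_succ,
      pc_supp hN hNN c k (-(N k : ℤ)), pc_supp hN hNN c k (-(N k : ℤ) - N k)]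
    · rw [neg_add_cancel, pc_one hN hNN]; simp
    · rcases abs_cases (-(N k : ℤ) - N k) with ⟨h7, h8⟩ | ⟨h7, h8⟩ <;> omega
    · rw [abs_neg]; rcases abs_cases (N k : ℤ) with ⟨h7, h8⟩ | ⟨h7, h8⟩ <;> omega
  have hNtop : Tendsto N atTop atTop := by
    refine tendsto_atTop_mono (fun k => ?_) tendsto_id
    have := N_ge hN hNN k
    simp only [id]; omega
  have hc0 : Tendsto c atTop (𝓝 0) := by
    have h1 := hnat.comp hNtop
    refine h1.congr (fun k => ?_)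
    simp only [Function.comp]
    exact hck k
  refine abs_spec (φ := fun n : ℕ => phiH (T := T) (n : ℤ)) (e := EH T) (A := convH μ)
    (lam := fun n : ℕ => fs μ n) phiH_EH (fun n f => phiH_convH μ f n) (convH_EH μ) hnat ?_
  intro ε hε0
  obtain ⟨K0, hK0⟩ := Metric.tendsto_atTop.1 hc0 ε hε0
  have hε : ∀ k, K0 ≤ k → ‖c k‖ ≤ ε := by
    intro k hk
    have := hK0 k hk
    rw [dist_zero_right] at this
    exact this.le
  refine ⟨2 * N K0, 35032, by norm_num, fun j f hf => ?_⟩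
  have h1 : ‖((convH μ) ^ (j + 1)) f‖ = ‖((conv μ) ^ (j + 1)) (f : L1 T)‖ := by
    rw [← convH_pow_coe]; rfl
  rw [h1]
  refine (tail_L1 hN hNN hc hμ hε (Nat.succ_ne_zero j) (f : L1 T) (fun n hn => ?_)).trans
    (le_of_eq ?_)
  · rcases lt_or_ge n 0 with h | h
    · exact f.2 n h
    · obtain ⟨m, rfl⟩ := Int.eq_ofNat_of_zero_le h
      exact hf m (by exact_mod_cast hn)
  · show 35032 * (ε ^ (j + 1) * ‖f‖) = 35032 * ε ^ (j + 1) * ‖f‖
    ring

end Pool.Agent.Q81.HR
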